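import Mathlib

/-!
# Kernel inequality for the Hayman–Wu constant
-/

open Set MeasureTheory Real

namespace Pool.Agent.HaymanWu

/-- kernel in the line variable -/
noncomputable def kx (p q x : ℝ) : ℝ := 1 / (1 - 2 * p * x + (p ^ 2 + q ^ 2) * x ^ 2)

/-- kernel in the angle variable -/
noncomputable def kphi (p q φ : ℝ) : ℝ :=
  1 / (1 + (p ^ 2 + q ^ 2) - 2 * p * cos φ - 2 * q * sin φ)

theorem kx_den_pos {p q x : ℝ} (h : p ^ 2 + q ^ 2 < 1) (hx : |x| ≤ 1) :
    0 < 1 - 2 * p * x + (p ^ 2 + q ^ 2) * x ^ 2 := by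
  have hx2 : x ^ 2 ≤ 1 := by
    have := abs_le.mp hx; nlinarith
  have hp : p ^ 2 < 1 := by nlinarith [sq_nonneg q]
  have h1 : (p * x) ^ 2 < 1 := by nlinarith [sq_nonneg p, sq_nonneg x]
  have h2 : p * x < 1 := by nlinarith
  nlinarith [sq_nonneg (q * x), mul_pos (sub_pos.mpr h2) (sub_pos.mpr h2)]

theorem kphi_den_pos {p q φ : ℝ} (h : p ^ 2 + q ^ 2 < 1) :
    0 < 1 + (p ^ 2 + q ^ 2) - 2 * p * cos φ - 2 * q * sin φ := by
  have hcs := Real.sin_sq_add_cos_sq φ
  have hid : 1 + (p ^ 2 + q ^ 2) - 2 * p * cos φ - 2 * q * sin φ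
      = (1 - p * cos φ - q * sin φ) ^ 2 + (q * cos φ - p * sin φ) ^ 2 := by
    nlinarith [hcs]
  have hkey : (p * cos φ + q * sin φ) ^ 2 + (q * cos φ - p * sin φ) ^ 2 = p ^ 2 + q ^ 2 := by
    nlinarith [hcs]
  have h3 : (p * cos φ + q * sin φ) ^ 2 < 1 := by
    nlinarith [sq_nonneg (q * cos φ - p * sin φ)]
  have h4 : p * cos φ + q * sin φ < 1 := by nlinarith
  rw [hid]
  nlinarith [sq_nonneg (q * cos φ - p * sin φ),
    mul_pos (sub_pos.mpr h4) (sub_pos.mpr h4)]

theorem kphi_pos {p q : ℝ} (φ : ℝ) (h : p ^ 2 + q ^ 2 < 1) : 0 < kphi p q φ :=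
  one_div_pos.mpr (kphi_den_pos h)

theorem kx_pos {p q x : ℝ} (h : p ^ 2 + q ^ 2 < 1) (hx : |x| ≤ 1) : 0 < kx p q x :=
  one_div_pos.mpr (kx_den_pos h hx)

theorem continuous_kphi {p q : ℝ} (h : p ^ 2 + q ^ 2 < 1) : Continuous (kphi p q) := by
  unfold kphi
  refine Continuous.div continuous_const (by fun_prop) ?_
  intro φ
  exact (kphi_den_pos h).ne'

theorem continuousOn_kx {p q : ℝ} (h : p ^ 2 + q ^ 2 < 1) : ContinuousOn (kx p q) (Icc (-1) 1) := by
  unfold kx
  refine ContinuousOn.div continuousOn_const (by fun_prop) ?_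
  intro x hx
  exact (kx_den_pos h (abs_le.mpr ⟨hx.1, hx.2⟩)).ne'

/-- the `x`-integral, case `q ≠ 0` -/
theorem integral_kx {p q : ℝ} (h : p ^ 2 + q ^ 2 < 1) (hq : q ≠ 0) :
    ∫ x in (-1:ℝ)..1, kx p q x = (1 / q) * arctan (2 * q / (1 - (p ^ 2 + q ^ 2))) := by
  have hq2 : 0 < q ^ 2 := by positivity
  have hρ : 0 < p ^ 2 + q ^ 2 := by positivity
  have hderiv : ∀ x ∈ uIcc (-1:ℝ) 1, HasDerivAt
      (fun x => (1 / q) * arctan (((p ^ 2 + q ^ 2) * x - p) / q)) (kx p q x) x := by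
    intro x hx
    rw [uIcc_of_le (by norm_num)] at hx
    have hpos := kx_den_pos h (abs_le.mpr ⟨hx.1, hx.2⟩)
    have h1 : HasDerivAt (fun x : ℝ => ((p ^ 2 + q ^ 2) * x - p) / q) ((p ^ 2 + q ^ 2) / q) x := by
      have := (((hasDerivAt_id x).const_mul (p ^ 2 + q ^ 2)).sub_const p).div_const q
      simpa using this
    have h2 := (h1.arctan).const_mul (1 / q)
    refine h2.congr_deriv ?_
    unfold kx
    have hne : 1 - 2 * p * x + (p ^ 2 + q ^ 2) * x ^ 2 ≠ 0 := hpos.ne'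
    have hne2 : 1 + (((p ^ 2 + q ^ 2) * x - p) / q) ^ 2 ≠ 0 := by positivity
    have e1 : 1 + (((p ^ 2 + q ^ 2) * x - p) / q) ^ 2
        = (p ^ 2 + q ^ 2) * (1 - 2 * p * x + (p ^ 2 + q ^ 2) * x ^ 2) / q ^ 2 := by
      field_simp
      ring
    rw [e1]
    field_simp
  rw [intervalIntegral.integral_eq_sub_of_hasDerivAt hderiv]
  · have hprod : ((p ^ 2 + q ^ 2) * 1 - p) / q * (((p ^ 2 + q ^ 2) * 1 + p) / q) < 1 := by
      have hqq : 0 < q * q := by nlinarith
      rw [div_mul_div_comm, div_lt_one hqq]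
      nlinarith
    have hadd := Real.arctan_add hprod
    have hneg : arctan (((p ^ 2 + q ^ 2) * (-1) - p) / q)
        = - arctan (((p ^ 2 + q ^ 2) * 1 + p) / q) := by
      rw [← Real.arctan_neg]; congr 1; ring
    rw [hneg]
    have : (1 / q) * arctan (((p ^ 2 + q ^ 2) * 1 - p) / q) -
        (1 / q) * -arctan (((p ^ 2 + q ^ 2) * 1 + p) / q)
        = (1 / q) * (arctan (((p ^ 2 + q ^ 2) * 1 - p) / q)
          + arctan (((p ^ 2 + q ^ 2) * 1 + p) / q)) := by ring
    rw [this, hadd]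
    congr 2
    have h1 : 1 - (p ^ 2 + q ^ 2) ≠ 0 := by linarith [sub_pos.mpr h]
    have h2 : 1 - ((p ^ 2 + q ^ 2) * 1 - p) / q * (((p ^ 2 + q ^ 2) * 1 + p) / q) ≠ 0 := by
      linarith [sub_pos.mpr hprod]
    rw [div_eq_div_iff h2 h1]
    field_simp
    ring
  · refine ContinuousOn.intervalIntegrable ?_
    rw [uIcc_of_le (by norm_num)]
    exact continuousOn_kx h

/-- the `x`-integral, case `q = 0` -/
theorem integral_kx_zero {p : ℝ} (h : p ^ 2 < 1) :
    ∫ x in (-1:ℝ)..1, kx p 0 x = 2 / (1 - p ^ 2) := by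
  have hpa : |p| < 1 := by
    rw [← sq_lt_one_iff_abs_lt_one]; exact h
  have hp := abs_lt.mp hpa
  have hden : ∀ x ∈ uIcc (-1:ℝ) 1, 0 < 1 - p * x := by
    intro x hx
    rw [uIcc_of_le (by norm_num)] at hx
    have : |p * x| < 1 := by
      rw [abs_mul]
      have : |x| ≤ 1 := abs_le.mpr ⟨hx.1, hx.2⟩
      nlinarith [abs_nonneg p, abs_nonneg x]
    linarith [(abs_lt.mp this).2]
  have hderiv : ∀ x ∈ uIcc (-1:ℝ) 1, HasDerivAt
      (fun x => x / (1 - p * x)) (kx p 0 x) x := by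
    intro x hx
    have hpos := hden x hx
    have h1 : HasDerivAt (fun x : ℝ => 1 - p * x) (-p) x := by
      have := ((hasDerivAt_id x).const_mul p).const_sub 1
      simpa using this
    have h2 := (hasDerivAt_id x).div h1 hpos.ne'
    refine h2.congr_deriv ?_
    unfold kx
    have hne : 1 - p * x ≠ 0 := hpos.ne'
    have e : 1 - 2 * p * x + (p ^ 2 + 0 ^ 2) * x ^ 2 = (1 - p * x) ^ 2 := by ring
    rw [e]
    simp only [id]
    congr 1
    ring
  rw [intervalIntegral.integral_eq_sub_of_hasDerivAt hderiv]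
  · have h1 : 1 - p * 1 ≠ 0 := by linarith
    have h2 : 1 - p * (-1) ≠ 0 := by linarith
    have h3 : 1 - p ^ 2 ≠ 0 := by linarith
    have h4 : 1 - p ≠ 0 := by linarith
    have h5 : 1 + p ≠ 0 := by linarith
    have e : 1 - p ^ 2 = (1 - p) * (1 + p) := by ring
    rw [e]
    have e2 : 1 - p * 1 = 1 - p := by ring
    have e3 : 1 - p * (-1) = 1 + p := by ring
    rw [e2, e3]
    field_simp
    ring
  · refine ContinuousOn.intervalIntegrable ?_
    rw [uIcc_of_le (by norm_num)]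
    exact continuousOn_kx (by simpa using h)

/-- the angular integral over the lower half circle -/
theorem integral_kphi {p q : ℝ} (h : p ^ 2 + q ^ 2 < 1) :
    ∫ φ in (-π)..0, kphi p q φ =
      (1 / (1 - (p ^ 2 + q ^ 2))) * (π - 2 * arctan (2 * q / (1 - (p ^ 2 + q ^ 2)))) := by
  have hD : ∀ φ : ℝ, 0 < 1 - p * cos φ - q * sin φ := by
    intro φ
    have hcs := Real.sin_sq_add_cos_sq φ
    have hkey : (p * cos φ + q * sin φ) ^ 2 + (q * cos φ - p * sin φ) ^ 2 = p ^ 2 + q ^ 2 := by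
      nlinarith [hcs]
    have h3 : (p * cos φ + q * sin φ) ^ 2 < 1 := by
      nlinarith [sq_nonneg (q * cos φ - p * sin φ)]
    nlinarith
  have h0 : 1 - (p ^ 2 + q ^ 2) ≠ 0 := by linarith [sub_pos.mpr h]
  have hderiv : ∀ φ ∈ uIcc (-π) 0, HasDerivAt
      (fun φ => (1 / (1 - (p ^ 2 + q ^ 2))) *
        (φ - 2 * arctan ((q * cos φ - p * sin φ) / (1 - p * cos φ - q * sin φ))))
      (kphi p q φ) φ := by
    intro φ _
    have hcs := Real.sin_sq_add_cos_sq φ
    have hDp := hD φ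
    have hN : HasDerivAt (fun φ => q * cos φ - p * sin φ) (q * (-sin φ) - p * cos φ) φ :=
      ((Real.hasDerivAt_cos φ).const_mul q).sub ((Real.hasDerivAt_sin φ).const_mul p)
    have hDd : HasDerivAt (fun φ => 1 - p * cos φ - q * sin φ) (-(p * (-sin φ)) - q * cos φ) φ :=
      (((Real.hasDerivAt_cos φ).const_mul p).const_sub 1).sub
        ((Real.hasDerivAt_sin φ).const_mul q)
    have h2 := (((hasDerivAt_id φ).sub
      (((hN.div hDd hDp.ne').arctan).const_mul 2)).const_mul (1 / (1 - (p ^ 2 + q ^ 2))))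
    refine h2.congr_deriv ?_
    simp only [Pi.div_apply]
    unfold kphi
    have hid : 1 + (p ^ 2 + q ^ 2) - 2 * p * cos φ - 2 * q * sin φ
      = (1 - p * cos φ - q * sin φ) ^ 2 + (q * cos φ - p * sin φ) ^ 2 := by
      nlinarith [hcs]
    rw [hid]
    set D := 1 - p * cos φ - q * sin φ with hDdef
    set N := q * cos φ - p * sin φ with hNdef
    have e1 : q * (-sin φ) - p * cos φ = D - 1 := by rw [hDdef]; ring
    have e2 : -(p * (-sin φ)) - q * cos φ = -N := by rw [hNdef]; ring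
    rw [e1, e2]
    have hDN : p ^ 2 + q ^ 2 = (1 - D) ^ 2 + N ^ 2 := by
      rw [hDdef, hNdef]; nlinarith [hcs]
    have hne : D ≠ 0 := hDp.ne'
    have hne1 : D ^ 2 + N ^ 2 ≠ 0 := by positivity
    have hne2 : 1 + (N / D) ^ 2 ≠ 0 := by positivity
    rw [hDN] at h0 ⊢
    have h0' : 1 - ((1 - D) ^ 2 + N ^ 2) ≠ 0 := h0
    have e3 : 1 / (1 + (N / D) ^ 2) * (((D - 1) * D - N * (-N)) / D ^ 2)
        = (D ^ 2 - D + N ^ 2) / (D ^ 2 + N ^ 2) := by
      field_simp
      ring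
    rw [e3]
    field_simp
    ring
  rw [intervalIntegral.integral_eq_sub_of_hasDerivAt hderiv
    ((continuous_kphi h).intervalIntegrable _ _)]
  simp only [Real.cos_zero, Real.sin_zero, Real.cos_neg, Real.cos_pi, Real.sin_neg, Real.sin_pi]
  have hp1 : p ^ 2 < 1 := by nlinarith [sq_nonneg q]
  have hp := abs_lt.mp ((sq_lt_one_iff_abs_lt_one p).mp hp1)
  have e1 : (q * 1 - p * 0) / (1 - p * 1 - q * 0) = q / (1 - p) := by ring_nf
  have e2 : (q * -1 - p * -0) / (1 - p * -1 - q * -0) = -(q / (1 + p)) := by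
    rw [neg_div']; congr 1 <;> ring
  rw [e1, e2, Real.arctan_neg]
  have hprod : q / (1 - p) * (q / (1 + p)) < 1 := by
    rw [div_mul_div_comm, div_lt_one (by nlinarith)]
    nlinarith
  have hadd := Real.arctan_add hprod
  have e3 : (q / (1 - p) + q / (1 + p)) / (1 - q / (1 - p) * (q / (1 + p)))
      = 2 * q / (1 - (p ^ 2 + q ^ 2)) := by
    have h1 : 1 - p ≠ 0 := by linarith
    have h2 : 1 + p ≠ 0 := by linarith
    have h3 : 1 - q / (1 - p) * (q / (1 + p)) ≠ 0 := by linarith [sub_pos.mpr hprod]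
    rw [div_eq_div_iff h3 h0]
    field_simp
    ring
  rw [e3] at hadd
  rw [← hadd]
  ring

/-- the elementary inequality `u cos u ≤ (π/2) (π/2 - u) sin u`. -/
theorem trig_ineq {u : ℝ} (h0 : 0 ≤ u) (h1 : u ≤ π / 2) :
    u * cos u ≤ (π / 2) * (π / 2 - u) * sin u := by
  have hj : 2 / π * u ≤ sin u := Real.mul_le_sin h0 h1
  have hc : cos u ≤ π / 2 - u := by
    rw [← Real.sin_pi_div_two_sub]
    exact Real.sin_le (by linarith)
  have hpi := Real.pi_pos
  have e : u = (π / 2) * (2 / π * u) := by field_simp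
  calc u * cos u ≤ u * (π / 2 - u) := mul_le_mul_of_nonneg_left hc h0
    _ = (π / 2) * (π / 2 - u) * (2 / π * u) := by field_simp
    _ ≤ (π / 2) * (π / 2 - u) * sin u := by
        apply mul_le_mul_of_nonneg_left hj
        apply mul_nonneg <;> linarith

theorem kernel_ineq_half {p q : ℝ} (h : p ^ 2 + q ^ 2 < 1) (hq : 0 ≤ q) :
    ∫ x in (-1:ℝ)..1, kx p q x ≤ (π / 2) * ∫ φ in (-π)..0, kphi p q φ := by
  rw [integral_kphi h]
  have h0 : 0 < 1 - (p ^ 2 + q ^ 2) := sub_pos.mpr h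
  rcases hq.eq_or_lt with hq0 | hq0
  · subst hq0
    rw [integral_kx_zero (by simpa using h)]
    have e : p ^ 2 + (0:ℝ) ^ 2 = p ^ 2 := by ring
    rw [e] at h0 ⊢
    simp only [mul_zero, zero_div, Real.arctan_zero, sub_zero]
    have hpi := Real.pi_gt_three
    rw [div_eq_mul_one_div 2]
    have : 2 ≤ π / 2 * π := by nlinarith
    calc 2 * (1 / (1 - p ^ 2)) ≤ (π / 2 * π) * (1 / (1 - p ^ 2)) :=
          mul_le_mul_of_nonneg_right this (by positivity)
      _ = π / 2 * (1 / (1 - p ^ 2) * π) := by ring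
  · rw [integral_kx h hq0.ne']
    set m := 2 * q / (1 - (p ^ 2 + q ^ 2)) with hm
    have hmpos : 0 < m := by positivity
    set u := arctan m with hu
    have hu0 : 0 < u := by rw [hu]; exact Real.arctan_pos.mpr hmpos
    have hu1 : u < π / 2 := Real.arctan_lt_pi_div_two m
    have hcos : 0 < cos u := Real.cos_pos_of_mem_Ioo ⟨by linarith, hu1⟩
    have htan : m = sin u / cos u := by
      rw [← Real.tan_eq_sin_div_cos, hu, Real.tan_arctan]
    have hineq := trig_ineq hu0.le hu1.le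
    have hq' : 1 / q = (1 / (1 - (p ^ 2 + q ^ 2))) * (2 / m) := by
      rw [hm]; field_simp
    rw [hq', htan]
    have hsin : 0 < sin u := Real.sin_pos_of_pos_of_lt_pi hu0 (by linarith)
    have e1 : 1 / (1 - (p ^ 2 + q ^ 2)) * (2 / (sin u / cos u)) * u
        = (1 / (1 - (p ^ 2 + q ^ 2))) * (2 * (u * cos u) / sin u) := by
      field_simp
    have e2 : π / 2 * (1 / (1 - (p ^ 2 + q ^ 2)) * (π - 2 * u))
        = (1 / (1 - (p ^ 2 + q ^ 2))) * (π / 2 * (π - 2 * u)) := by ring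
    rw [e1, e2]
    apply mul_le_mul_of_nonneg_left _ (by positivity)
    rw [div_le_iff₀ hsin]
    nlinarith

/-- integral over a set meeting each conjugate pair dominates the one over the far half circle -/
theorem half_le_integral {p q : ℝ} (h : p ^ 2 + q ^ 2 < 1) (hq : 0 ≤ q) {A : Set ℝ}
    (hA : MeasurableSet A) (hAsub : A ⊆ Ioo (-π) π)
    (hAsym : ∀ φ ∈ Ioo 0 π, φ ∈ A ∨ -φ ∈ A) :
    ∫ φ in (-π)..0, kphi p q φ ≤ ∫ φ in A, kphi p q φ := by
  have hpi := Real.pi_pos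
  have hcont := continuous_kphi h
  set g : ℝ → ℝ := A.indicator (kphi p q) with hg
  have hgi : ∀ a b : ℝ, IntervalIntegrable g volume a b := by
    intro a b
    have h1 : IntervalIntegrable (kphi p q) volume a b := hcont.intervalIntegrable a b
    rw [intervalIntegrable_iff] at h1 ⊢
    exact h1.indicator hA
  have e1 : ∫ φ in A, kphi p q φ = ∫ φ in (-π)..π, g φ := by
    rw [intervalIntegral.integral_of_le (by linarith), hg,
      MeasureTheory.integral_indicator hA, Measure.restrict_restrict hA,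
      inter_eq_self_of_subset_left (hAsub.trans Ioo_subset_Ioc_self)]
  rw [e1, ← intervalIntegral.integral_add_adjacent_intervals (hgi (-π) 0) (hgi 0 π)]
  have e2 : ∫ φ in (-π)..0, g φ = ∫ φ in (0:ℝ)..π, g (-φ) := by
    rw [intervalIntegral.integral_comp_neg]; simp
  have e3 : ∫ φ in (-π)..0, kphi p q φ = ∫ φ in (0:ℝ)..π, kphi p q (-φ) := by
    rw [intervalIntegral.integral_comp_neg]; simp
  rw [e2, e3]
  have hgi' : IntervalIntegrable (fun φ => g (-φ)) volume 0 π := by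
    have h1 := (IntervalIntegrable.iff_comp_neg (by simp)).mp (hgi 0 (-π))
    simpa using h1
  rw [← intervalIntegral.integral_add hgi' (hgi 0 π)]
  refine intervalIntegral.integral_mono_on_of_le_Ioo hpi.le ?_ (hgi'.add (hgi 0 π)) ?_
  · exact (hcont.comp continuous_neg).intervalIntegrable _ _
  · intro φ hφ
    have hs : 0 < sin φ := Real.sin_pos_of_pos_of_lt_pi hφ.1 hφ.2
    have hle : kphi p q (-φ) ≤ kphi p q φ := by
      unfold kphi
      apply one_div_le_one_div_of_le (kphi_den_pos h)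
      rw [Real.cos_neg, Real.sin_neg]
      nlinarith
    have hpos1 := kphi_pos (-φ) h
    have hpos2 := kphi_pos φ h
    have hg1 : 0 ≤ g φ := by
      rw [hg]; exact indicator_nonneg (fun x _ => (kphi_pos x h).le) _
    have hg2 : 0 ≤ g (-φ) := by
      rw [hg]; exact indicator_nonneg (fun x _ => (kphi_pos x h).le) _
    rcases hAsym φ hφ with hin | hin
    · have : g φ = kphi p q φ := by rw [hg, indicator_of_mem hin]
      change kphi p q (-φ) ≤ g (-φ) + g φ
      rw [this]; linarith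
    · have : g (-φ) = kphi p q (-φ) := by rw [hg, indicator_of_mem hin]
      change kphi p q (-φ) ≤ g (-φ) + g φ
      rw [this]; linarith

theorem kernel_ineq_real {p q : ℝ} (h : p ^ 2 + q ^ 2 < 1) {A : Set ℝ}
    (hA : MeasurableSet A) (hAsub : A ⊆ Ioo (-π) π)
    (hAsym : ∀ φ ∈ Ioo 0 π, φ ∈ A ∨ -φ ∈ A) :
    ∫ x in (-1:ℝ)..1, kx p q x ≤ (π / 2) * ∫ φ in A, kphi p q φ := by
  rcases le_total 0 q with hq | hq
  · refine (kernel_ineq_half h hq).trans ?_
    exact mul_le_mul_of_nonneg_left (half_le_integral h hq hA hAsub hAsym) (by positivity)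
  · have h' : p ^ 2 + (-q) ^ 2 < 1 := by simpa using h
    have hq' : 0 ≤ -q := by linarith
    have hkx : kx p q = kx p (-q) := by ext x; simp [kx]
    rw [hkx]
    refine (kernel_ineq_half h' hq').trans ?_
    apply mul_le_mul_of_nonneg_left _ (by positivity)
    have hA' : MeasurableSet (-A) := hA.neg
    have hsub' : -A ⊆ Ioo (-π) π := by
      intro x hx
      have := hAsub (Set.mem_neg.mp hx)
      exact ⟨by linarith [this.2], by linarith [this.1]⟩
    have hsym' : ∀ φ ∈ Ioo 0 π, φ ∈ -A ∨ -φ ∈ -A := by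
      intro φ hφ
      rcases hAsym φ hφ with h1 | h1
      · right; simpa using h1
      · left; simpa using h1
    refine (half_le_integral h' hq' hA' hsub' hsym').trans (le_of_eq ?_)
    rw [← MeasureTheory.integral_indicator hA, ← MeasureTheory.integral_indicator hA',
      ← MeasureTheory.integral_neg_eq_self (A.indicator (kphi p q))]
    congr 1
    ext φ
    by_cases hin : -φ ∈ A
    · rw [indicator_of_mem hin, indicator_of_mem (by simpa using hin)]
      simp [kphi]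
    · rw [indicator_of_notMem hin, indicator_of_notMem (by simpa using hin)]

/-- complex form of the kernel inequality -/
theorem kernel_ineq (z : ℂ) (hz : ‖z‖ < 1) {A : Set ℝ}
    (hA : MeasurableSet A) (hAsub : A ⊆ Ioo (-π) π)
    (hAsym : ∀ φ ∈ Ioo 0 π, φ ∈ A ∨ -φ ∈ A) :
    ∫ x in (-1:ℝ)..1, 1 / ‖1 - (x:ℂ) * z‖ ^ 2 ≤
      (π / 2) * ∫ φ in A, 1 / ‖Complex.exp (φ * Complex.I) - z‖ ^ 2 := by
  have hz2 : z.re ^ 2 + z.im ^ 2 < 1 := by
    have : ‖z‖ ^ 2 < 1 := by nlinarith [norm_nonneg z]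
    rw [Complex.sq_norm, Complex.normSq_apply] at this
    nlinarith
  have h1 : ∀ x : ℝ, 1 / ‖1 - (x:ℂ) * z‖ ^ 2 = kx z.re z.im x := by
    intro x
    rw [Complex.sq_norm, Complex.normSq_apply]
    simp only [kx, Complex.sub_re, Complex.one_re, Complex.mul_re, Complex.ofReal_re,
      Complex.ofReal_im, zero_mul, sub_zero, Complex.sub_im, Complex.one_im, Complex.mul_im,
      add_zero, zero_sub]
    congr 1
    ring
  have h2 : ∀ φ : ℝ, 1 / ‖Complex.exp (φ * Complex.I) - z‖ ^ 2 = kphi z.re z.im φ := by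
    intro φ
    rw [Complex.sq_norm, Complex.normSq_apply]
    have hcs := Real.sin_sq_add_cos_sq φ
    simp only [kphi, Complex.sub_re, Complex.exp_ofReal_mul_I_re, Complex.sub_im,
      Complex.exp_ofReal_mul_I_im]
    congr 1
    nlinarith
  simp_rw [h1, h2]
  exact kernel_ineq_real hz2 hA hAsub hAsym

end Pool.Agent.HaymanWu
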