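import Mathlib
import Pool.Agent.HaymanWu.Kernel

/-!
# Positive harmonic functions in the disc: derivative formula and the line integral estimate
-/

open Set MeasureTheory Metric

namespace Pool.Agent.HaymanWu

theorem closedBall_subset_ball_one {t : ℝ} (ht1 : t < 1) :
    closedBall (0:ℂ) t ⊆ ball (0:ℂ) 1 := closedBall_subset_ball ht1

theorem norm_circleMap_zero' {t : ℝ} (ht0 : 0 < t) (θ : ℝ) : ‖circleMap 0 t θ‖ = t := by
  simp [abs_of_pos ht0]

theorem circleMap_mem_ball {t : ℝ} (ht0 : 0 < t) (ht1 : t < 1) (θ : ℝ) :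
    circleMap 0 t θ ∈ ball (0:ℂ) 1 := by
  rw [mem_ball_zero_iff, norm_circleMap_zero' ht0]; exact ht1

theorem circleMap_sub_ne {t : ℝ} (ht0 : 0 < t) {w : ℂ} (hw : ‖w‖ < t) (θ : ℝ) :
    circleMap 0 t θ - w ≠ 0 := by
  intro h
  rw [sub_eq_zero] at h
  have := norm_circleMap_zero' ht0 θ
  rw [h] at this
  linarith

section

variable {h : ℂ → ℂ} (hh : DifferentiableOn ℂ h (ball 0 1))

include hh

theorem continuous_comp_circleMap {t : ℝ} (ht0 : 0 < t) (ht1 : t < 1) :
    Continuous (fun θ => h (circleMap 0 t θ)) := by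
  have h1 : ContinuousOn h (ball 0 1) := hh.continuousOn
  exact h1.comp_continuous (continuous_circleMap 0 t) (circleMap_mem_ball ht0 ht1)

theorem poisson_re {t : ℝ} (ht0 : 0 < t) (ht1 : t < 1) {w : ℂ} (hw : ‖w‖ < t) :
    (h w).re = (2 * Real.pi)⁻¹ * ∫ θ in (0:ℝ)..2 * Real.pi,
      (t ^ 2 - ‖w‖ ^ 2) / ‖circleMap 0 t θ - w‖ ^ 2 * (h (circleMap 0 t θ)).re := by
  have hd : DiffContOnCl ℂ h (ball 0 t) :=
    hh.diffContOnCl_ball (closedBall_subset_ball_one ht1)
  have h1 := hd.circleAverage_poissonKernel_smul (mem_ball_zero_iff.mpr hw)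
  have h2 := congrArg Complex.re h1
  rw [← h2, Real.circleAverage_def, Complex.real_smul, Complex.re_ofReal_mul]
  congr 1
  have hcont : Continuous (fun θ => (poissonKernel 0 w • h) (circleMap 0 t θ)) := by
    simp only [Pi.smul_apply', poissonKernel_def, sub_zero]
    have hc1 : Continuous (fun θ : ℝ => (‖circleMap 0 t θ‖ ^ 2 - ‖w‖ ^ 2) /
        ‖circleMap 0 t θ - w‖ ^ 2) := by
      refine Continuous.div (by fun_prop) (by fun_prop) ?_
      intro θ
      have := circleMap_sub_ne ht0 hw θ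
      positivity
    exact hc1.smul (continuous_comp_circleMap hh ht0 ht1)
  have h3 := Complex.reCLM.intervalIntegral_comp_comm
    (hcont.intervalIntegrable (μ := volume) 0 (2 * Real.pi))
  rw [Complex.reCLM_apply] at h3
  rw [← h3]
  congr 1
  ext θ
  simp only [Pi.smul_apply', Complex.reCLM_apply, poissonKernel_def, sub_zero,
    Complex.real_smul, Complex.re_ofReal_mul, norm_circleMap_zero' ht0]

theorem deriv_formula {t : ℝ} (ht0 : 0 < t) (ht1 : t < 1) {w : ℂ} (hw : ‖w‖ < t) :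
    deriv h w = (2 * (Real.pi:ℂ))⁻¹ * ∫ θ in (0:ℝ)..2 * Real.pi,
      (2 * circleMap 0 t θ / (circleMap 0 t θ - w) ^ 2) * ((h (circleMap 0 t θ)).re : ℂ) := by
  have hcl := closedBall_subset_ball_one ht1
  have h1 := Complex.two_pi_I_inv_smul_circleIntegral_sub_sq_inv_smul_of_differentiable
    isOpen_ball hcl hh (mem_ball_zero_iff.mpr hw)
  have hpi : (Real.pi : ℂ) ≠ 0 := by exact_mod_cast Real.pi_ne_zero
  have hcont := continuous_comp_circleMap hh ht0 ht1
  -- first integral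
  have hC1 : Continuous (fun θ => circleMap 0 t θ / (circleMap 0 t θ - w) ^ 2 *
      h (circleMap 0 t θ)) := by
    refine Continuous.mul (Continuous.div (by fun_prop) (by fun_prop) ?_) hcont
    intro θ
    exact pow_ne_zero 2 (circleMap_sub_ne ht0 hw θ)
  have e1 : deriv h w = (2 * (Real.pi:ℂ))⁻¹ * ∫ θ in (0:ℝ)..2 * Real.pi,
      circleMap 0 t θ / (circleMap 0 t θ - w) ^ 2 * h (circleMap 0 t θ) := by
    rw [← h1, circleIntegral, smul_eq_mul, ← intervalIntegral.integral_const_mul,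
      ← intervalIntegral.integral_const_mul]
    congr 1
    ext θ
    rw [deriv_circleMap, smul_eq_mul, smul_eq_mul]
    have hI := Complex.I_ne_zero
    have hs := circleMap_sub_ne ht0 hw θ
    field_simp
  -- second integral
  set G : ℂ → ℂ := fun s => (t:ℂ) ^ 2 * s * h s / ((t:ℂ) ^ 2 - (starRingEnd ℂ) w * s) ^ 2 with hG
  have hden : ∀ s ∈ closedBall (0:ℂ) t, (t:ℂ) ^ 2 - (starRingEnd ℂ) w * s ≠ 0 := by
    intro s hs h0
    rw [sub_eq_zero] at h0
    have := congrArg norm h0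
    rw [norm_mul, norm_pow, Complex.norm_real, Real.norm_of_nonneg ht0.le, Complex.norm_conj] at this
    have hs' := mem_closedBall_zero_iff.mp hs
    nlinarith [norm_nonneg w, norm_nonneg s]
  have hGd : DiffContOnCl ℂ G (ball 0 t) := by
    have hd : DifferentiableOn ℂ G (closedBall 0 t) := by
      intro s hs
      have hsb : s ∈ ball (0:ℂ) 1 := hcl hs
      have hdiff : DifferentiableAt ℂ h s := hh.differentiableAt (isOpen_ball.mem_nhds hsb)
      have : DifferentiableAt ℂ G s := by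
        rw [hG]
        refine DifferentiableAt.div (by fun_prop) (by fun_prop) ?_
        exact pow_ne_zero 2 (hden s hs)
      exact this.differentiableWithinAt
    exact DiffContOnCl.mk_ball (hd.mono ball_subset_closedBall) hd.continuousOn
  have hG0 : Real.circleAverage G 0 t = 0 := by
    have := (abs_of_pos ht0).symm ▸ hGd
    have h2 := DiffContOnCl.circleAverage (f := G) (c := 0) (R := t)
      (by rw [abs_of_pos ht0]; exact hGd)
    rw [h2, hG]; simp
  rw [Real.circleAverage_def] at hG0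
  have hG1 : ∫ θ in (0:ℝ)..2 * Real.pi, G (circleMap 0 t θ) = 0 := by
    have hne : (2 * Real.pi)⁻¹ ≠ (0:ℝ) := by positivity
    exact (smul_eq_zero.mp hG0).resolve_left hne
  have hGcont : Continuous (fun θ => G (circleMap 0 t θ)) := by
    have h5 : ContinuousOn G (closedBall 0 t) := by
      have := hGd.continuousOn
      rwa [closure_ball 0 ht0.ne'] at this
    refine h5.comp_continuous (continuous_circleMap 0 t) (fun θ => ?_)
    rw [mem_closedBall_zero_iff, norm_circleMap_zero' ht0]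
  have hconj : ∫ θ in (0:ℝ)..2 * Real.pi, (starRingEnd ℂ) (G (circleMap 0 t θ)) = 0 := by
    have := Complex.conjCLE.toContinuousLinearMap.intervalIntegral_comp_comm
      (hGcont.intervalIntegrable (μ := volume) 0 (2 * Real.pi))
    simp only [ContinuousLinearEquiv.coe_coe, Complex.conjCLE_apply] at this
    rw [this, hG1, map_zero]
  have e2 : ∀ θ, (starRingEnd ℂ) (G (circleMap 0 t θ)) =
      circleMap 0 t θ / (circleMap 0 t θ - w) ^ 2 * (starRingEnd ℂ) (h (circleMap 0 t θ)) := by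
    intro θ
    set s := circleMap 0 t θ with hs
    have hsn : ‖s‖ = t := norm_circleMap_zero' ht0 θ
    have hss : (t:ℂ) ^ 2 = s * (starRingEnd ℂ) s := by
      rw [Complex.mul_conj, Complex.normSq_eq_norm_sq, hsn]; push_cast; ring
    have hs0 : s ≠ 0 := by
      intro h0; rw [h0, norm_zero] at hsn; linarith
    have hcs0 : (starRingEnd ℂ) s ≠ 0 := by simpa using hs0
    have hsw : s - w ≠ 0 := circleMap_sub_ne ht0 hw θ
    simp only [hG, map_div₀, map_mul, map_pow, map_sub, Complex.conj_ofReal, Complex.conj_conj]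
    rw [hss]
    have e3 : s * (starRingEnd ℂ) s - w * (starRingEnd ℂ) s = (s - w) * (starRingEnd ℂ) s := by
      ring
    rw [e3]
    field_simp
  have hconj' : ∫ θ in (0:ℝ)..2 * Real.pi, circleMap 0 t θ / (circleMap 0 t θ - w) ^ 2 *
      (starRingEnd ℂ) (h (circleMap 0 t θ)) = 0 := by
    refine Eq.trans ?_ hconj
    congr 1; ext θ; exact (e2 θ).symm
  have hC2 : Continuous (fun θ => circleMap 0 t θ / (circleMap 0 t θ - w) ^ 2 *
      (starRingEnd ℂ) (h (circleMap 0 t θ))) := by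
    refine Continuous.mul (Continuous.div (by fun_prop) (by fun_prop) ?_)
      (Complex.continuous_conj.comp hcont)
    intro θ
    exact pow_ne_zero 2 (circleMap_sub_ne ht0 hw θ)
  have e4 : ∫ θ in (0:ℝ)..2 * Real.pi, (2 * circleMap 0 t θ / (circleMap 0 t θ - w) ^ 2) *
      ((h (circleMap 0 t θ)).re : ℂ) =
      (∫ θ in (0:ℝ)..2 * Real.pi, circleMap 0 t θ / (circleMap 0 t θ - w) ^ 2 *
        h (circleMap 0 t θ)) +
      ∫ θ in (0:ℝ)..2 * Real.pi, circleMap 0 t θ / (circleMap 0 t θ - w) ^ 2 *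
        (starRingEnd ℂ) (h (circleMap 0 t θ)) := by
    rw [← intervalIntegral.integral_add (hC1.intervalIntegrable _ _)
      (hC2.intervalIntegrable _ _)]
    congr 1
    ext θ
    rw [Complex.re_eq_add_conj]
    ring
  rw [e4, hconj', add_zero, e1]

theorem norm_deriv_le_integral (hpos : ∀ z ∈ ball (0:ℂ) 1, 0 ≤ (h z).re)
    {t : ℝ} (ht0 : 0 < t) (ht1 : t < 1) {w : ℂ} (hw : ‖w‖ < t) :
    ‖deriv h w‖ ≤ (2 * Real.pi)⁻¹ * ∫ θ in (0:ℝ)..2 * Real.pi,
      (2 * t / ‖circleMap 0 t θ - w‖ ^ 2) * (h (circleMap 0 t θ)).re := by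
  rw [deriv_formula hh ht0 ht1 hw, norm_mul]
  have e1 : ‖(2 * (Real.pi:ℂ))⁻¹‖ = (2 * Real.pi)⁻¹ := by
    rw [norm_inv, norm_mul, Complex.norm_real, Real.norm_of_nonneg Real.pi_pos.le]; simp
  rw [e1]
  apply mul_le_mul_of_nonneg_left _ (by positivity)
  refine (intervalIntegral.norm_integral_le_integral_norm (by positivity)).trans (le_of_eq ?_)
  congr 1
  ext θ
  rw [norm_mul, norm_div, norm_mul, norm_pow, norm_circleMap_zero' ht0, Complex.norm_real,
    Real.norm_of_nonneg (hpos _ (circleMap_mem_ball ht0 ht1 θ))]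
  simp

theorem norm_deriv_le_aux (hpos : ∀ z ∈ ball (0:ℂ) 1, 0 ≤ (h z).re)
    {t : ℝ} (ht0 : 0 < t) (ht1 : t < 1) {w : ℂ} (hw : ‖w‖ < t) :
    ‖deriv h w‖ ≤ (2 * t / (t ^ 2 - ‖w‖ ^ 2)) * (h w).re := by
  refine (norm_deriv_le_integral hh hpos ht0 ht1 hw).trans (le_of_eq ?_)
  have e : ∫ θ in (0:ℝ)..2 * Real.pi,
      (2 * t / ‖circleMap 0 t θ - w‖ ^ 2) * (h (circleMap 0 t θ)).re =
      (2 * t / (t ^ 2 - ‖w‖ ^ 2)) * ∫ θ in (0:ℝ)..2 * Real.pi,
      (t ^ 2 - ‖w‖ ^ 2) / ‖circleMap 0 t θ - w‖ ^ 2 * (h (circleMap 0 t θ)).re := by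
    rw [← intervalIntegral.integral_const_mul]
    refine intervalIntegral.integral_congr (fun θ _ => ?_)
    have h1 : t ^ 2 - ‖w‖ ^ 2 ≠ 0 := by nlinarith [norm_nonneg w]
    have h2 : ‖circleMap 0 t θ - w‖ ≠ 0 := norm_ne_zero_iff.mpr (circleMap_sub_ne ht0 hw θ)
    field_simp
  rw [e, poisson_re hh ht0 ht1 hw]
  ring

/-- Schwarz–Pick for the half plane -/
theorem norm_deriv_le (hpos : ∀ z ∈ ball (0:ℂ) 1, 0 ≤ (h z).re) {w : ℂ} (hw : ‖w‖ < 1) :
    ‖deriv h w‖ ≤ 2 * (h w).re / (1 - ‖w‖ ^ 2) := by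
  have hlim : Filter.Tendsto (fun t : ℝ => (2 * t / (t ^ 2 - ‖w‖ ^ 2)) * (h w).re)
      (nhdsWithin 1 (Iio 1)) (nhds (2 * (h w).re / (1 - ‖w‖ ^ 2))) := by
    have hne : (1:ℝ) ^ 2 - ‖w‖ ^ 2 ≠ 0 := by nlinarith [norm_nonneg w]
    have hc : ContinuousAt (fun t : ℝ => (2 * t / (t ^ 2 - ‖w‖ ^ 2)) * (h w).re) 1 := by
      refine ContinuousAt.mul (ContinuousAt.div (by fun_prop) (by fun_prop) hne) (by fun_prop)
    have h1 := hc.tendsto.mono_left (nhdsWithin_le_nhds (s := Iio 1))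
    convert h1 using 2
    ring
  refine ge_of_tendsto hlim ?_
  have hmem : Ioo (max ‖w‖ 0) 1 ∈ nhdsWithin (1:ℝ) (Iio 1) :=
    Ioo_mem_nhdsLT (by simpa using hw)
  filter_upwards [hmem] with t ht
  exact norm_deriv_le_aux hh hpos (lt_of_le_of_lt (le_max_right _ _) ht.1) ht.2
    (lt_of_le_of_lt (le_max_left _ _) ht.1)

end

end Pool.Agent.HaymanWu
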