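import Mathlib
import Pool.Agent.HaymanWu.Analytic

/-!
# The line integral estimate for positive harmonic functions
-/

open Set MeasureTheory Metric

namespace Pool.Agent.HaymanWu

theorem norm_sub_swap_scale {t τ : ℝ} (ht : 0 < t) (θ φ : ℝ) :
    ‖circleMap 0 t θ - circleMap 0 τ φ‖ =
      t * ‖Complex.exp (φ * Complex.I) - ((τ / t : ℝ) : ℂ) * Complex.exp (θ * Complex.I)‖ := by
  have e1 : ∀ (a b : ℝ), ‖(a:ℂ) * Complex.exp (θ * Complex.I) - b * Complex.exp (φ * Complex.I)‖ ^ 2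
      = a ^ 2 + b ^ 2 - 2 * a * b * (Real.cos θ * Real.cos φ + Real.sin θ * Real.sin φ) := by
    intro a b
    rw [Complex.sq_norm, Complex.normSq_apply]
    have h1 := Real.sin_sq_add_cos_sq θ
    have h2 := Real.sin_sq_add_cos_sq φ
    simp only [Complex.sub_re, Complex.re_ofReal_mul, Complex.exp_ofReal_mul_I_re, Complex.sub_im,
      Complex.im_ofReal_mul, Complex.exp_ofReal_mul_I_im]
    linear_combination (a ^ 2) * h1 + (b ^ 2) * h2
  have h0 : circleMap 0 t θ - circleMap 0 τ φ =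
      (t:ℂ) * Complex.exp (θ * Complex.I) - τ * Complex.exp (φ * Complex.I) := by
    simp [circleMap]
  have e2 : ‖Complex.exp (φ * Complex.I) - ((τ / t : ℝ) : ℂ) * Complex.exp (θ * Complex.I)‖ ^ 2
      = 1 + (τ / t) ^ 2 - 2 * (τ / t) *
        (Real.cos θ * Real.cos φ + Real.sin θ * Real.sin φ) := by
    have := e1 (τ / t) 1
    rw [← norm_neg] at this
    have e3 : -(((τ / t : ℝ) : ℂ) * Complex.exp (θ * Complex.I) -
        ((1:ℝ):ℂ) * Complex.exp (φ * Complex.I)) =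
        Complex.exp (φ * Complex.I) - ((τ / t : ℝ) : ℂ) * Complex.exp (θ * Complex.I) := by
      push_cast; ring
    rw [e3] at this
    rw [this]; ring
  have hsq : ‖circleMap 0 t θ - circleMap 0 τ φ‖ ^ 2 = (t * ‖Complex.exp (φ * Complex.I) -
      ((τ / t : ℝ) : ℂ) * Complex.exp (θ * Complex.I)‖) ^ 2 := by
    rw [mul_pow, e2, h0, e1]
    field_simp
  exact (pow_left_inj₀ (norm_nonneg _) (by positivity) (by norm_num)).mp hsq

/-- the kernel inequality, scaled -/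
theorem inner_ineq {τ t : ℝ} (hτ0 : 0 < τ) (hτt : τ < t) (θ : ℝ) {A : Set ℝ}
    (hA : MeasurableSet A) (hAsub : A ⊆ Ioo (-Real.pi) Real.pi)
    (hAsym : ∀ φ ∈ Ioo 0 Real.pi, φ ∈ A ∨ -φ ∈ A) :
    ∫ x in (-τ)..τ, 1 / ‖circleMap 0 t θ - (x:ℂ)‖ ^ 2 ≤
      (Real.pi / 2) * τ * ∫ φ in A, 1 / ‖circleMap 0 t θ - circleMap 0 τ φ‖ ^ 2 := by
  have ht : 0 < t := hτ0.trans hτt
  set z : ℂ := ((τ / t : ℝ) : ℂ) * Complex.exp (θ * Complex.I) with hz
  have hzn : ‖z‖ < 1 := by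
    rw [hz, norm_mul, Complex.norm_real, Complex.norm_exp_ofReal_mul_I, mul_one,
      Real.norm_of_nonneg (by positivity), div_lt_one ht]
    exact hτt
  have hk := kernel_ineq z hzn hA hAsub hAsym
  have e1 : ∫ x in (-τ)..τ, 1 / ‖circleMap 0 t θ - (x:ℂ)‖ ^ 2 =
      τ * ((1 / t ^ 2) * ∫ y in (-1:ℝ)..1, 1 / ‖1 - (y:ℂ) * z‖ ^ 2) := by
    have h1 := intervalIntegral.integral_comp_mul_left (a := -1) (b := 1)
      (fun x : ℝ => 1 / ‖circleMap 0 t θ - (x:ℂ)‖ ^ 2) hτ0.ne'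
    have h2 : ∫ x in (-τ)..τ, 1 / ‖circleMap 0 t θ - (x:ℂ)‖ ^ 2 =
        τ * ∫ y in (-1:ℝ)..1, 1 / ‖circleMap 0 t θ - ((τ * y : ℝ):ℂ)‖ ^ 2 := by
      rw [h1, smul_eq_mul]
      have e : τ * -1 = -τ := by ring
      rw [e, mul_one, ← mul_assoc, mul_inv_cancel₀ hτ0.ne', one_mul]
    have h5 : ∫ y in (-1:ℝ)..1, 1 / ‖circleMap 0 t θ - ((τ * y : ℝ):ℂ)‖ ^ 2 =
        (1 / t ^ 2) * ∫ y in (-1:ℝ)..1, 1 / ‖1 - (y:ℂ) * z‖ ^ 2 := ?_
    · rw [h2, h5]
    rw [← intervalIntegral.integral_const_mul]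
    refine intervalIntegral.integral_congr (fun y _ => ?_)
    have h3 : ‖circleMap 0 t θ - ((τ * y : ℝ):ℂ)‖ = t * ‖1 - (y:ℂ) * z‖ := by
      have h4 := norm_sub_swap_scale (τ := τ * y) ht θ 0
      simp only [circleMap, Complex.ofReal_zero, zero_mul, Complex.exp_zero, mul_one,
        zero_add] at h4 ⊢
      rw [h4, hz]
      congr 3
      push_cast
      ring
    change 1 / ‖circleMap 0 t θ - ((τ * y : ℝ):ℂ)‖ ^ 2 = 1 / t ^ 2 * (1 / ‖1 - (y:ℂ) * z‖ ^ 2)
    rw [h3, mul_pow]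
    rw [one_div_mul_one_div]
  have e2 : ∫ φ in A, 1 / ‖circleMap 0 t θ - circleMap 0 τ φ‖ ^ 2 =
      (1 / t ^ 2) * ∫ φ in A, 1 / ‖Complex.exp (φ * Complex.I) - z‖ ^ 2 := by
    rw [← MeasureTheory.integral_const_mul]
    congr 1
    ext φ
    rw [norm_sub_swap_scale ht, mul_pow, one_div_mul_one_div]
  rw [e1, e2]
  calc τ * ((1 / t ^ 2) * ∫ y in (-1:ℝ)..1, 1 / ‖1 - (y:ℂ) * z‖ ^ 2)
      ≤ τ * ((1 / t ^ 2) * ((Real.pi / 2) *
        ∫ φ in A, 1 / ‖Complex.exp (φ * Complex.I) - z‖ ^ 2)) := by gcongr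
    _ = _ := by ring

section

variable {h : ℂ → ℂ} (hh : DifferentiableOn ℂ h (ball 0 1))

include hh

theorem continuousOn_deriv_line {τ : ℝ} (hτ1 : τ < 1) :
    ContinuousOn (fun x : ℝ => deriv h (x:ℂ)) (Icc (-τ) τ) := by
  have h1 : ContinuousOn (deriv h) (ball 0 1) := (hh.deriv isOpen_ball).continuousOn
  refine h1.comp Complex.continuous_ofReal.continuousOn ?_
  intro x hx
  rw [mem_ball_zero_iff, Complex.norm_real, Real.norm_eq_abs]
  exact lt_of_le_of_lt (abs_le.mpr ⟨hx.1, hx.2⟩) hτ1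

theorem line_integral_le_aux (hpos : ∀ z ∈ ball (0:ℂ) 1, 0 ≤ (h z).re)
    {τ t : ℝ} (hτ0 : 0 < τ) (hτt : τ < t) (ht1 : t < 1) {A : Set ℝ}
    (hA : MeasurableSet A) (hAsub : A ⊆ Ioo (-Real.pi) Real.pi)
    (hAsym : ∀ φ ∈ Ioo 0 Real.pi, φ ∈ A ∨ -φ ∈ A) :
    ∫ x in (-τ)..τ, ‖deriv h (x:ℂ)‖ ≤
      (Real.pi * t * τ / (t ^ 2 - τ ^ 2)) * ∫ φ in A, (h (circleMap 0 τ φ)).re := by
  have ht0 : 0 < t := hτ0.trans hτt
  have hτ1 : τ < 1 := hτt.trans ht1
  have hpi := Real.pi_pos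
  set u : ℝ → ℝ := fun θ => (h (circleMap 0 t θ)).re with hu
  have hucont : Continuous u := Complex.continuous_re.comp (continuous_comp_circleMap hh ht0 ht1)
  have hupos : ∀ θ, 0 ≤ u θ := fun θ => hpos _ (circleMap_mem_ball ht0 ht1 θ)
  -- kernel in x
  set K : ℝ → ℝ → ℝ := fun x θ => (2 * t / ‖circleMap 0 t θ - (x:ℂ)‖ ^ 2) * u θ with hK
  have hxnorm : ∀ x ∈ Icc (-τ) τ, ‖(x:ℂ)‖ < t := by
    intro x hx
    rw [Complex.norm_real, Real.norm_eq_abs]
    exact lt_of_le_of_lt (abs_le.mpr ⟨hx.1, hx.2⟩) hτt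
  have hKcont : ContinuousOn (Function.uncurry K) (Icc (-τ) τ ×ˢ Icc 0 (2 * Real.pi)) := by
    have : ContinuousOn (fun p : ℝ × ℝ => (2 * t / ‖circleMap 0 t p.2 - (p.1:ℂ)‖ ^ 2) * u p.2)
        (Icc (-τ) τ ×ˢ Icc 0 (2 * Real.pi)) := by
      refine ContinuousOn.mul (ContinuousOn.div continuousOn_const ?_ ?_)
        (hucont.comp continuous_snd).continuousOn
      · have h1 : Continuous (fun p : ℝ × ℝ => circleMap 0 t p.2) :=
          (continuous_circleMap 0 t).comp continuous_snd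
        have h2 : Continuous (fun p : ℝ × ℝ => (p.1:ℂ)) :=
          Complex.continuous_ofReal.comp continuous_fst
        exact ((h1.sub h2).norm.pow 2).continuousOn
      · intro p hp
        have := circleMap_sub_ne ht0 (hxnorm p.1 hp.1) p.2
        positivity
    exact this
  have hKint : IntegrableOn (Function.uncurry K) (Icc (-τ) τ ×ˢ Icc 0 (2 * Real.pi)) :=
    hKcont.integrableOn_compact (isCompact_Icc.prod isCompact_Icc)
  have hττ : -τ ≤ τ := by linarith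
  have h2pi : (0:ℝ) ≤ 2 * Real.pi := by positivity
  have hKint' : IntegrableOn (Function.uncurry K) (uIoc (-τ) τ ×ˢ uIoc 0 (2 * Real.pi)) := by
    refine hKint.mono_set ?_
    rw [uIoc_of_le hττ, uIoc_of_le h2pi]
    exact prod_mono Ioc_subset_Icc_self Ioc_subset_Icc_self
  have hswap : ∫ x in (-τ)..τ, ∫ θ in (0:ℝ)..2 * Real.pi, K x θ =
      ∫ θ in (0:ℝ)..2 * Real.pi, ∫ x in (-τ)..τ, K x θ :=
    intervalIntegral_intervalIntegral_swap hKint'
  -- integrability of x-marginal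
  have hprod : Integrable (Function.uncurry K)
      ((volume.restrict (uIoc (-τ) τ)).prod (volume.restrict (uIoc 0 (2 * Real.pi)))) := by
    rw [Measure.prod_restrict, ← Measure.volume_eq_prod]; exact hKint'
  have hint1 : IntervalIntegrable (fun x => ∫ θ in (0:ℝ)..2 * Real.pi, K x θ) volume (-τ) τ := by
    rw [intervalIntegrable_iff]
    have := hprod.integral_prod_left
    simp only [Function.uncurry] at this
    rw [IntegrableOn]
    refine this.congr ?_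
    refine Filter.Eventually.of_forall (fun x => ?_)
    simp only
    rw [intervalIntegral.integral_of_le h2pi, uIoc_of_le h2pi]
  have hint2 : IntervalIntegrable (fun θ => ∫ x in (-τ)..τ, K x θ) volume 0 (2 * Real.pi) := by
    rw [intervalIntegrable_iff]
    have := hprod.integral_prod_right
    simp only [Function.uncurry] at this
    rw [IntegrableOn]
    refine this.congr ?_
    refine Filter.Eventually.of_forall (fun x => ?_)
    simp only
    rw [intervalIntegral.integral_of_le hττ, uIoc_of_le hττ]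
  -- step 1
  have step1 : ∫ x in (-τ)..τ, ‖deriv h (x:ℂ)‖ ≤
      (2 * Real.pi)⁻¹ * ∫ x in (-τ)..τ, ∫ θ in (0:ℝ)..2 * Real.pi, K x θ := by
    rw [← intervalIntegral.integral_const_mul]
    refine intervalIntegral.integral_mono_on hττ ?_ (hint1.const_mul _) ?_
    · refine ContinuousOn.intervalIntegrable ?_
      rw [uIcc_of_le hττ]
      exact (continuousOn_deriv_line hh hτ1).norm
    · intro x hx
      exact norm_deriv_le_integral hh hpos ht0 ht1 (hxnorm x hx)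
  -- kernel in φ
  set M : ℝ → ℝ → ℝ := fun θ φ => u θ * (1 / ‖circleMap 0 t θ - circleMap 0 τ φ‖ ^ 2) with hM
  have hMcont : Continuous (Function.uncurry M) := by
    have : Continuous (fun p : ℝ × ℝ =>
        u p.1 * (1 / ‖circleMap 0 t p.1 - circleMap 0 τ p.2‖ ^ 2)) := by
      refine (hucont.comp continuous_fst).mul (Continuous.div continuous_const ?_ ?_)
      · have h1 : Continuous (fun p : ℝ × ℝ => circleMap 0 t p.1) :=
          (continuous_circleMap 0 t).comp continuous_fst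
        have h2 : Continuous (fun p : ℝ × ℝ => circleMap 0 τ p.2) :=
          (continuous_circleMap 0 τ).comp continuous_snd
        exact (h1.sub h2).norm.pow 2
      · intro p
        have := circleMap_sub_ne ht0 (w := circleMap 0 τ p.2)
          (by rw [norm_circleMap_zero' hτ0]; exact hτt) p.1
        positivity
    exact this
  have hMprod : Integrable (Function.uncurry M)
      ((volume.restrict (uIoc 0 (2 * Real.pi))).prod (volume.restrict A)) := by
    rw [Measure.prod_restrict, ← Measure.volume_eq_prod]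
    have h1 : IntegrableOn (Function.uncurry M)
        (Icc 0 (2 * Real.pi) ×ˢ Icc (-Real.pi) Real.pi) :=
      hMcont.continuousOn.integrableOn_compact (isCompact_Icc.prod isCompact_Icc)
    refine h1.mono_set (prod_mono ?_ (hAsub.trans Ioo_subset_Icc_self))
    rw [uIoc_of_le h2pi]; exact Ioc_subset_Icc_self
  have hint3 : IntervalIntegrable (fun θ => ∫ φ in A, M θ φ) volume 0 (2 * Real.pi) := by
    rw [intervalIntegrable_iff]
    exact hMprod.integral_prod_left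
  -- step 2
  have step2 : ∫ θ in (0:ℝ)..2 * Real.pi, ∫ x in (-τ)..τ, K x θ ≤
      ∫ θ in (0:ℝ)..2 * Real.pi, (Real.pi * t * τ) * ∫ φ in A, M θ φ := by
    refine intervalIntegral.integral_mono_on h2pi hint2 (hint3.const_mul _) ?_
    intro θ _
    have h1 := inner_ineq hτ0 hτt θ hA hAsub hAsym
    have e1 : ∫ x in (-τ)..τ, K x θ =
        (2 * t * u θ) * ∫ x in (-τ)..τ, 1 / ‖circleMap 0 t θ - (x:ℂ)‖ ^ 2 := by
      rw [← intervalIntegral.integral_const_mul]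
      refine intervalIntegral.integral_congr (fun x _ => ?_)
      simp only [hK]
      ring
    have e2 : ∫ φ in A, M θ φ =
        u θ * ∫ φ in A, 1 / ‖circleMap 0 t θ - circleMap 0 τ φ‖ ^ 2 := by
      rw [← MeasureTheory.integral_const_mul]
    rw [e1, e2]
    have h2 : 0 ≤ 2 * t * u θ := by have := hupos θ; positivity
    calc _ ≤ (2 * t * u θ) * ((Real.pi / 2) * τ *
          ∫ φ in A, 1 / ‖circleMap 0 t θ - circleMap 0 τ φ‖ ^ 2) :=
          mul_le_mul_of_nonneg_left h1 h2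
      _ = _ := by ring
  -- step 3
  have step3 : ∫ θ in (0:ℝ)..2 * Real.pi, ∫ φ in A, M θ φ =
      (2 * Real.pi) * (1 / (t ^ 2 - τ ^ 2)) * ∫ φ in A, (h (circleMap 0 τ φ)).re := by
    rw [intervalIntegral_integral_swap hMprod, ← MeasureTheory.integral_const_mul]
    congr 1
    ext φ
    have hw : ‖circleMap 0 τ φ‖ < t := by rw [norm_circleMap_zero' hτ0]; exact hτt
    rw [poisson_re hh ht0 ht1 hw, norm_circleMap_zero' hτ0]
    have hne : t ^ 2 - τ ^ 2 ≠ 0 := by nlinarith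
    have e3 : 2 * Real.pi * (1 / (t ^ 2 - τ ^ 2)) * ((2 * Real.pi)⁻¹ *
        ∫ θ in (0:ℝ)..2 * Real.pi, (t ^ 2 - τ ^ 2) / ‖circleMap 0 t θ - circleMap 0 τ φ‖ ^ 2 *
          (h (circleMap 0 t θ)).re) = (1 / (t ^ 2 - τ ^ 2)) *
        ∫ θ in (0:ℝ)..2 * Real.pi, (t ^ 2 - τ ^ 2) / ‖circleMap 0 t θ - circleMap 0 τ φ‖ ^ 2 *
          (h (circleMap 0 t θ)).re := by
      field_simp
    rw [e3, ← intervalIntegral.integral_const_mul]
    refine intervalIntegral.integral_congr (fun θ _ => ?_)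
    simp only [hM, hu]
    field_simp
  calc ∫ x in (-τ)..τ, ‖deriv h (x:ℂ)‖
      ≤ (2 * Real.pi)⁻¹ * ∫ x in (-τ)..τ, ∫ θ in (0:ℝ)..2 * Real.pi, K x θ := step1
    _ = (2 * Real.pi)⁻¹ * ∫ θ in (0:ℝ)..2 * Real.pi, ∫ x in (-τ)..τ, K x θ := by rw [hswap]
    _ ≤ (2 * Real.pi)⁻¹ * ∫ θ in (0:ℝ)..2 * Real.pi, (Real.pi * t * τ) * ∫ φ in A, M θ φ :=
        mul_le_mul_of_nonneg_left step2 (by positivity)
    _ = _ := by
        rw [intervalIntegral.integral_const_mul, step3]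
        have hne : t ^ 2 - τ ^ 2 ≠ 0 := by nlinarith
        field_simp

theorem line_integral_le (hpos : ∀ z ∈ ball (0:ℂ) 1, 0 ≤ (h z).re)
    {τ : ℝ} (hτ0 : 0 < τ) (hτ1 : τ < 1) {A : Set ℝ}
    (hA : MeasurableSet A) (hAsub : A ⊆ Ioo (-Real.pi) Real.pi)
    (hAsym : ∀ φ ∈ Ioo 0 Real.pi, φ ∈ A ∨ -φ ∈ A) :
    ∫ x in (-τ)..τ, ‖deriv h (x:ℂ)‖ ≤
      (Real.pi * τ / (1 - τ ^ 2)) * ∫ φ in A, (h (circleMap 0 τ φ)).re := by
  have hlim : Filter.Tendsto (fun t : ℝ => (Real.pi * t * τ / (t ^ 2 - τ ^ 2)) *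
      ∫ φ in A, (h (circleMap 0 τ φ)).re)
      (nhdsWithin 1 (Iio 1)) (nhds ((Real.pi * τ / (1 - τ ^ 2)) *
      ∫ φ in A, (h (circleMap 0 τ φ)).re)) := by
    have hne : (1:ℝ) ^ 2 - τ ^ 2 ≠ 0 := by nlinarith
    have hc : ContinuousAt (fun t : ℝ => (Real.pi * t * τ / (t ^ 2 - τ ^ 2)) *
      ∫ φ in A, (h (circleMap 0 τ φ)).re) 1 := by
      refine ContinuousAt.mul (ContinuousAt.div (by fun_prop) (by fun_prop) hne) continuousAt_const
    have h1 := hc.tendsto.mono_left (nhdsWithin_le_nhds (s := Iio 1))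
    convert h1 using 2
    simp
  refine ge_of_tendsto hlim ?_
  have hmem : Ioo τ 1 ∈ nhdsWithin (1:ℝ) (Iio 1) := Ioo_mem_nhdsLT hτ1
  filter_upwards [hmem] with t ht
  exact line_integral_le_aux hh hpos hτ0 ht.1 ht.2 hA hAsub hAsym

end

end Pool.Agent.HaymanWu
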