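import Mathlib
import Pool.Agent.HaymanWu.LineIntegral
import Pool.Agent.Lib.RiemannMapping

/-!
# The Blaschke factor part
-/

open Set MeasureTheory Metric
open scoped ComplexConjugate
open Pool.Agent.Lib.RiemannMapping

namespace Pool.Agent.HaymanWu

/-- the normalised minorant of `-log |mob a z|` -/
noncomputable def BB (a : ℂ) (t θ : ℝ) : ℝ :=
  (1 + t) ^ 2 * (1 - ‖a‖ ^ 2) / (2 * ‖1 - conj a * circleMap 0 t θ‖ ^ 2)

theorem BB_den_ne {a : ℂ} (ha : ‖a‖ < 1) {t : ℝ} (ht0 : 0 < t) (ht1 : t < 1) (θ : ℝ) :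
    1 - conj a * circleMap 0 t θ ≠ 0 :=
  mob_den_ne_zero ha (by rw [norm_circleMap_zero' ht0]; exact ht1.le)

theorem one_sub_sq_pos {a : ℂ} (ha : ‖a‖ < 1) : 0 < 1 - ‖a‖ ^ 2 := by
  nlinarith [norm_nonneg a]

theorem BB_nonneg {a : ℂ} (ha : ‖a‖ < 1) {t : ℝ} (θ : ℝ) : 0 ≤ BB a t θ := by
  have := one_sub_sq_pos ha
  unfold BB
  positivity

theorem BB_continuous {a : ℂ} (ha : ‖a‖ < 1) {t : ℝ} (ht0 : 0 < t) (ht1 : t < 1) :
    Continuous (BB a t) := by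
  unfold BB
  refine Continuous.div continuous_const (by fun_prop) ?_
  intro θ
  have := BB_den_ne ha ht0 ht1 θ
  positivity

theorem BB_mono {a : ℂ} (ha : ‖a‖ < 1) {t₁ t₂ : ℝ} (h0 : 0 < t₁) (h12 : t₁ ≤ t₂) (h2 : t₂ < 1)
    (θ : ℝ) : BB a t₁ θ ≤ BB a t₂ θ := by
  have ha2 := one_sub_sq_pos ha
  set w : ℂ := conj a * Complex.exp (θ * Complex.I) with hw
  have hwn : ‖w‖ = ‖a‖ := by
    rw [hw, norm_mul, Complex.norm_exp_ofReal_mul_I, mul_one, RCLike.norm_conj]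
  have hform : ∀ t : ℝ, ‖1 - conj a * circleMap 0 t θ‖ ^ 2 =
      1 - 2 * w.re * t + ‖a‖ ^ 2 * t ^ 2 := by
    intro t
    have e1 : 1 - conj a * circleMap 0 t θ = 1 - (t:ℂ) * w := by
      rw [hw]; simp [circleMap]; ring
    rw [e1, ← hwn, Complex.sq_norm, Complex.sq_norm, Complex.normSq_apply, Complex.normSq_apply]
    simp only [Complex.sub_re, Complex.one_re, Complex.re_ofReal_mul, Complex.sub_im,
      Complex.one_im, Complex.im_ofReal_mul]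
    ring
  have hre : |w.re| ≤ ‖a‖ := by rw [← hwn]; exact Complex.abs_re_le_norm w
  have hre' := abs_le.mp hre
  have hp1 : 0 < ‖1 - conj a * circleMap 0 t₁ θ‖ ^ 2 := by
    have := BB_den_ne ha h0 (lt_of_le_of_lt h12 h2) θ
    positivity
  have hp2 : 0 < ‖1 - conj a * circleMap 0 t₂ θ‖ ^ 2 := by
    have := BB_den_ne ha (lt_of_lt_of_le h0 h12) h2 θ
    positivity
  unfold BB
  rw [div_le_div_iff₀ (by linarith) (by linarith)]
  have hkey : (1 + t₁) ^ 2 * ‖1 - conj a * circleMap 0 t₂ θ‖ ^ 2 ≤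
      (1 + t₂) ^ 2 * ‖1 - conj a * circleMap 0 t₁ θ‖ ^ 2 := by
    rw [hform, hform]
    set p := w.re
    set ρ := ‖a‖
    have hρ : 0 ≤ ρ := norm_nonneg a
    have hid : (1 + t₂) ^ 2 * (1 - 2 * p * t₁ + ρ ^ 2 * t₁ ^ 2) -
        (1 + t₁) ^ 2 * (1 - 2 * p * t₂ + ρ ^ 2 * t₂ ^ 2) =
        (t₂ - t₁) * ((1 - ρ ^ 2) * (t₁ + t₂) + 2 * (1 - t₁ * t₂) * (1 + p) +
          2 * (t₁ * t₂) * (1 - ρ ^ 2)) := by ring
    have ht12 : t₁ * t₂ < 1 := by nlinarith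
    have ht12' : 0 < t₁ * t₂ := mul_pos h0 (lt_of_lt_of_le h0 h12)
    have hpp : 0 ≤ 1 + p := by linarith [hre'.1]
    have : 0 ≤ (t₂ - t₁) * ((1 - ρ ^ 2) * (t₁ + t₂) + 2 * (1 - t₁ * t₂) * (1 + p) +
          2 * (t₁ * t₂) * (1 - ρ ^ 2)) := by
      apply mul_nonneg (by linarith)
      have h1 : 0 ≤ (1 - ρ ^ 2) * (t₁ + t₂) := mul_nonneg ha2.le (by linarith)
      have h2 : 0 ≤ 2 * (1 - t₁ * t₂) * (1 + p) := mul_nonneg (by linarith) hpp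
      have h3 : 0 ≤ 2 * (t₁ * t₂) * (1 - ρ ^ 2) := mul_nonneg (by linarith) ha2.le
      linarith
    linarith
  nlinarith [mul_le_mul_of_nonneg_left hkey (by linarith : (0:ℝ) ≤ 2 * (1 - ‖a‖ ^ 2))]

theorem BB_le_log {a : ℂ} (ha : ‖a‖ < 1) {t : ℝ} (ht0 : 0 < t) (ht1 : t < 1) (θ : ℝ)
    (hne : mob a (circleMap 0 t θ) ≠ 0) :
    BB a t θ ≤ (1 + t) / (1 - t) * (-Real.log ‖mob a (circleMap 0 t θ)‖) := by
  set z := circleMap 0 t θ with hz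
  have hzn : ‖z‖ = t := norm_circleMap_zero' ht0 θ
  have hden := BB_den_ne ha ht0 ht1 θ
  have hid := sq_norm_den_sub_sq_norm_num a z
  have hdpos : 0 < ‖1 - conj a * z‖ ^ 2 := by positivity
  have hnpos : 0 < ‖mob a z‖ := norm_pos_iff.mpr hne
  have h1 : 1 - ‖mob a z‖ ^ 2 = (1 - t ^ 2) * (1 - ‖a‖ ^ 2) / ‖1 - conj a * z‖ ^ 2 := by
    rw [mob, norm_div, div_pow, eq_div_iff hdpos.ne', sub_mul, div_mul_cancel₀ _ hdpos.ne',
      ← hzn, ← hid]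
    ring
  have hlog : Real.log (‖mob a z‖ ^ 2) ≤ ‖mob a z‖ ^ 2 - 1 :=
    Real.log_le_sub_one_of_pos (by positivity)
  rw [Real.log_pow] at hlog
  push_cast at hlog
  have h2 : (1 - ‖mob a z‖ ^ 2) / 2 ≤ -Real.log ‖mob a z‖ := by linarith
  have h3 : BB a t θ = (1 + t) / (1 - t) * ((1 - ‖mob a z‖ ^ 2) / 2) := by
    rw [h1]
    unfold BB
    have : 1 - t ≠ 0 := by linarith
    rw [← hz]
    have hd : ‖1 - conj a * z‖ ≠ 0 := by simpa using hden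
    field_simp
    ring
  rw [h3]
  apply mul_le_mul_of_nonneg_left h2
  apply div_nonneg <;> linarith

theorem line_integral_mob {a : ℂ} (ha : ‖a‖ < 1) {τ : ℝ} (hτ0 : 0 < τ) (hτ1 : τ < 1) {A : Set ℝ}
    (hA : MeasurableSet A) (hAsub : A ⊆ Ioo (-Real.pi) Real.pi)
    (hAsym : ∀ φ ∈ Ioo 0 Real.pi, φ ∈ A ∨ -φ ∈ A) :
    ∫ x in (-τ)..τ, ‖deriv (mob a) (x:ℂ)‖ ≤
      (Real.pi * τ / (1 + τ) ^ 2) * ∫ φ in A, BB a τ φ := by
  have ha2 := one_sub_sq_pos ha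
  have hx : ∀ x ∈ uIcc (-τ) τ, ‖(x:ℂ)‖ ≤ 1 := by
    intro x hx
    rw [uIcc_of_le (by linarith)] at hx
    rw [Complex.norm_real, Real.norm_eq_abs]
    exact (abs_le.mpr ⟨hx.1, hx.2⟩).trans hτ1.le
  -- derivative norm
  have e1 : ∫ x in (-τ)..τ, ‖deriv (mob a) (x:ℂ)‖ =
      (1 - ‖a‖ ^ 2) * ∫ x in (-τ)..τ, 1 / ‖1 - conj a * (x:ℂ)‖ ^ 2 := by
    rw [← intervalIntegral.integral_const_mul]
    refine intervalIntegral.integral_congr (fun x hx' => ?_)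
    rw [(hasDerivAt_mob ha (hx x hx')).deriv, norm_div, norm_pow]
    have : ‖(1:ℂ) - (‖a‖:ℂ) ^ 2‖ = 1 - ‖a‖ ^ 2 := by
      have e : (1:ℂ) - (‖a‖:ℂ) ^ 2 = ((1 - ‖a‖ ^ 2 : ℝ) : ℂ) := by push_cast; ring
      rw [e, Complex.norm_real, Real.norm_of_nonneg ha2.le]
    rw [this]; ring
  set z : ℂ := (τ:ℂ) * a with hz
  have hzn : ‖z‖ < 1 := by
    rw [hz, norm_mul, Complex.norm_real, Real.norm_of_nonneg hτ0.le]
    nlinarith [norm_nonneg a]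
  have hk := kernel_ineq z hzn hA hAsub hAsym
  have e2 : ∫ x in (-τ)..τ, 1 / ‖1 - conj a * (x:ℂ)‖ ^ 2 =
      τ * ∫ y in (-1:ℝ)..1, 1 / ‖1 - (y:ℂ) * z‖ ^ 2 := by
    have h1 := intervalIntegral.integral_comp_mul_left (a := -1) (b := 1)
      (fun x : ℝ => 1 / ‖1 - conj a * (x:ℂ)‖ ^ 2) hτ0.ne'
    have h2 : ∫ x in (-τ)..τ, 1 / ‖1 - conj a * (x:ℂ)‖ ^ 2 =
        τ * ∫ y in (-1:ℝ)..1, 1 / ‖1 - conj a * ((τ * y : ℝ):ℂ)‖ ^ 2 := by
      rw [h1, smul_eq_mul]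
      have e : τ * -1 = -τ := by ring
      rw [e, mul_one, ← mul_assoc, mul_inv_cancel₀ hτ0.ne', one_mul]
    rw [h2]
    have h5 : ∫ y in (-1:ℝ)..1, 1 / ‖1 - conj a * ((τ * y : ℝ):ℂ)‖ ^ 2 =
        ∫ y in (-1:ℝ)..1, 1 / ‖1 - (y:ℂ) * z‖ ^ 2 := by
      refine intervalIntegral.integral_congr (fun y _ => ?_)
      have e3 : ‖1 - conj a * ((τ * y : ℝ):ℂ)‖ = ‖1 - (y:ℂ) * z‖ := by
        rw [← RCLike.norm_conj (1 - (y:ℂ) * z), hz]
        simp only [map_sub, map_one, map_mul, Complex.conj_ofReal]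
        congr 2
        push_cast
        ring
      rw [e3]
    rw [h5]
  have e4 : ∀ φ : ℝ, ‖Complex.exp (φ * Complex.I) - z‖ = ‖1 - conj a * circleMap 0 τ φ‖ := by
    intro φ
    have hE : Complex.exp (φ * Complex.I) * conj (Complex.exp (φ * Complex.I)) = 1 := by
      rw [Complex.mul_conj, Complex.normSq_eq_norm_sq, Complex.norm_exp_ofReal_mul_I]; simp
    have : Complex.exp (φ * Complex.I) - z =
        Complex.exp (φ * Complex.I) * conj (1 - conj a * circleMap 0 τ φ) := by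
      simp only [circleMap, zero_add, map_sub, map_one, map_mul, Complex.conj_conj,
        Complex.conj_ofReal, hz]
      linear_combination ((τ:ℂ) * a) * (hE)
    rw [this, norm_mul, Complex.norm_exp_ofReal_mul_I, one_mul, RCLike.norm_conj]
  have e5 : ∫ φ in A, BB a τ φ = ((1 + τ) ^ 2 * (1 - ‖a‖ ^ 2) / 2) *
      ∫ φ in A, 1 / ‖Complex.exp (φ * Complex.I) - z‖ ^ 2 := by
    rw [← MeasureTheory.integral_const_mul]
    congr 1
    ext φ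
    rw [e4 φ]
    unfold BB
    rw [div_mul_div_comm, mul_one]
  rw [e1, e2, e5]
  have hτ2 : (1 + τ) ≠ 0 := by linarith
  calc (1 - ‖a‖ ^ 2) * (τ * ∫ y in (-1:ℝ)..1, 1 / ‖1 - (y:ℂ) * z‖ ^ 2)
      ≤ (1 - ‖a‖ ^ 2) * (τ * ((Real.pi / 2) *
        ∫ φ in A, 1 / ‖Complex.exp (φ * Complex.I) - z‖ ^ 2)) := by gcongr
    _ = _ := by
        generalize ∫ φ in A, 1 / ‖Complex.exp (φ * Complex.I) - z‖ ^ 2 = X
        field_simp

end Pool.Agent.HaymanWu
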