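import Mathlib
import Pool.Agent.HaymanWu.Blaschke

/-!
# The comparison function of an injective self-map of the disc
-/

open Set MeasureTheory Metric
open scoped ComplexConjugate
open Pool.Agent.Lib.RiemannMapping

namespace Pool.Agent.HaymanWu

/-- properties of the comparison function `Lam` for a holomorphic self-map of the disc -/
structure IsLam (ψ : ℂ → ℂ) (Lam : ℝ → ℝ → ℝ) : Prop where
  nonneg : ∀ t, 0 < t → t < 1 → ∀ θ, 0 ≤ Lam t θ
  mono : ∀ t₁ t₂, 0 < t₁ → t₁ ≤ t₂ → t₂ < 1 → ∀ θ, Lam t₁ θ ≤ Lam t₂ θ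
  cont : ∀ t, 0 < t → t < 1 → Continuous (Lam t)
  le_log : ∀ t, 0 < t → t < 1 → ∀ θ, ψ (circleMap 0 t θ) ≠ 0 →
    Lam t θ ≤ (1 + t) / (1 - t) * (-Real.log ‖ψ (circleMap 0 t θ)‖)
  line : ∀ τ, 0 < τ → τ < 1 → ∀ A : Set ℝ, MeasurableSet A → A ⊆ Ioo (-Real.pi) Real.pi →
    (∀ φ ∈ Ioo 0 Real.pi, φ ∈ A ∨ -φ ∈ A) →
    ∫ x in (-τ)..τ, ‖deriv ψ (x:ℂ)‖ ≤ (Real.pi * τ / (1 + τ) ^ 2) * ∫ φ in A, Lam τ φ

theorem isLam_one : IsLam (fun _ => 1) (fun _ _ => 0) where
  nonneg := fun _ _ _ _ => le_rfl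
  mono := fun _ _ _ _ _ _ => le_rfl
  cont := fun _ _ _ => continuous_const
  le_log := fun t _ _ θ _ => by simp
  line := fun τ _ _ A _ _ _ => by simp

theorem isLam_mob {a : ℂ} (ha : ‖a‖ < 1) : IsLam (mob a) (BB a) where
  nonneg := fun _ _ _ θ => BB_nonneg ha θ
  mono := fun _ _ h0 h12 h2 θ => BB_mono ha h0 h12 h2 θ
  cont := fun _ h0 h1 => BB_continuous ha h0 h1
  le_log := fun _ h0 h1 θ hne => BB_le_log ha h0 h1 θ hne
  line := fun _ h0 h1 _ hA hsub hsym => line_integral_mob ha h0 h1 hA hsub hsym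

theorem harm_mono {h : ℂ → ℂ} (hh : DifferentiableOn ℂ h (ball 0 1))
    (hpos : ∀ z ∈ ball (0:ℂ) 1, 0 ≤ (h z).re) {t₁ t₂ : ℝ} (h0 : 0 < t₁) (h12 : t₁ ≤ t₂)
    (h2 : t₂ < 1) (θ : ℝ) :
    (1 + t₁) / (1 - t₁) * (h (circleMap 0 t₁ θ)).re ≤
      (1 + t₂) / (1 - t₂) * (h (circleMap 0 t₂ θ)).re := by
  set E : ℂ := Complex.exp (θ * Complex.I) with hE
  have hEn : ‖E‖ = 1 := Complex.norm_exp_ofReal_mul_I θ
  set F : ℝ → ℝ := fun t => (1 + t) / (1 - t) * (h ((t:ℂ) * E)).re with hF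
  have hcm : ∀ t : ℝ, circleMap 0 t θ = (t:ℂ) * E := by intro t; simp [circleMap, hE]
  have hmem : ∀ t ∈ Ioo (0:ℝ) 1, (t:ℂ) * E ∈ ball (0:ℂ) 1 := by
    intro t ht
    rw [mem_ball_zero_iff, norm_mul, hEn, mul_one, Complex.norm_real, Real.norm_of_nonneg ht.1.le]
    exact ht.2
  have hder : ∀ t ∈ Ioo (0:ℝ) 1, HasDerivAt F
      (2 / (1 - t) ^ 2 * (h ((t:ℂ) * E)).re +
        (1 + t) / (1 - t) * (deriv h ((t:ℂ) * E) * E).re) t := by
    intro t ht
    have h1 : HasDerivAt h (deriv h ((t:ℂ) * E)) ((t:ℂ) * E) :=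
      (hh.differentiableAt (isOpen_ball.mem_nhds (hmem t ht))).hasDerivAt
    have h2 : HasDerivAt (fun w : ℂ => w * E) E (t:ℂ) := by
      simpa using (hasDerivAt_id (t:ℂ)).mul_const E
    have h3 : HasDerivAt (fun w : ℂ => h (w * E)) (deriv h ((t:ℂ) * E) * E) (t:ℂ) :=
      HasDerivAt.comp (t:ℂ) h1 h2
    have h4 := h3.real_of_complex
    have h5 : HasDerivAt (fun t : ℝ => (1 + t) / (1 - t)) (2 / (1 - t) ^ 2) t := by
      have hne : 1 - t ≠ 0 := by linarith [ht.2]
      have := ((hasDerivAt_id t).const_add 1).div ((hasDerivAt_id t).const_sub 1) hne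
      refine this.congr_deriv ?_
      simp only [id]
      congr 1
      ring
    exact h5.mul h4
  have hmono : MonotoneOn F (Ioo 0 1) := by
    refine monotoneOn_of_deriv_nonneg (convex_Ioo 0 1) ?_ ?_ ?_
    · exact fun t ht => (hder t ht).continuousAt.continuousWithinAt
    · rw [interior_Ioo]
      exact fun t ht => (hder t ht).differentiableAt.differentiableWithinAt
    · rw [interior_Ioo]
      intro t ht
      rw [(hder t ht).deriv]
      have hz := hmem t ht
      set z := (t:ℂ) * E with hzdef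
      have hzn : ‖z‖ = t := by
        rw [hzdef, norm_mul, hEn, mul_one, Complex.norm_real, Real.norm_of_nonneg ht.1.le]
      have hb := norm_deriv_le hh hpos (mem_ball_zero_iff.mp hz)
      rw [hzn] at hb
      have hu := hpos z hz
      have h1 : -(2 * (h z).re / (1 - t ^ 2)) ≤ (deriv h z * E).re := by
        have h3 : |(deriv h z * E).re| ≤ ‖deriv h z * E‖ := Complex.abs_re_le_norm _
        rw [norm_mul, hEn, mul_one] at h3
        have := (abs_le.mp (h3.trans hb)).1
        exact this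
      have ht1 : 0 < 1 - t := by linarith [ht.2]
      have ht2 : 0 < 1 + t := by linarith [ht.1]
      have hfac : 0 ≤ (1 + t) / (1 - t) := by positivity
      have h4 := mul_le_mul_of_nonneg_left h1 hfac
      have e : (1 + t) / (1 - t) * -(2 * (h z).re / (1 - t ^ 2)) =
          -(2 / (1 - t) ^ 2 * (h z).re) := by
        have e1 : 1 - t ^ 2 = (1 - t) * (1 + t) := by ring
        rw [e1]
        field_simp
      rw [e] at h4
      linarith
  rw [hcm, hcm]
  exact hmono ⟨h0, lt_of_le_of_lt h12 h2⟩ ⟨lt_of_lt_of_le h0 h12, h2⟩ h12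

theorem isLam_mul_exp {b h ψ : ℂ → ℂ} {B : ℝ → ℝ → ℝ} (hB : IsLam b B)
    (hb : DifferentiableOn ℂ b (ball 0 1)) (hb1 : ∀ z ∈ ball (0:ℂ) 1, ‖b z‖ ≤ 1)
    (hh : DifferentiableOn ℂ h (ball 0 1)) (hpos : ∀ z ∈ ball (0:ℂ) 1, 0 ≤ (h z).re)
    (hψ : ∀ z ∈ ball (0:ℂ) 1, ψ z = b z * Complex.exp (-h z)) :
    IsLam ψ (fun t θ => B t θ + (1 + t) / (1 - t) * (h (circleMap 0 t θ)).re) where
  nonneg := by
    intro t h0 h1 θ
    have h2 := hpos _ (circleMap_mem_ball h0 h1 θ)
    have h3 := hB.nonneg t h0 h1 θ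
    have h4 : 0 ≤ (1 + t) / (1 - t) := div_nonneg (by linarith) (by linarith)
    positivity
  mono := fun t₁ t₂ h0 h12 h2 θ =>
    add_le_add (hB.mono t₁ t₂ h0 h12 h2 θ) (harm_mono hh hpos h0 h12 h2 θ)
  cont := fun t h0 h1 => (hB.cont t h0 h1).add
    (continuous_const.mul (Complex.continuous_re.comp (continuous_comp_circleMap hh h0 h1)))
  le_log := by
    intro t h0 h1 θ hne
    have hz := circleMap_mem_ball h0 h1 θ
    set z := circleMap 0 t θ with hzdef
    rw [hψ z hz] at hne ⊢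
    have hbne : b z ≠ 0 := left_ne_zero_of_mul hne
    have h2 := hB.le_log t h0 h1 θ hbne
    rw [norm_mul, Complex.norm_exp, Real.log_mul (by simpa using hbne) (Real.exp_pos _).ne',
      Real.log_exp]
    have e : (1 + t) / (1 - t) * -(Real.log ‖b z‖ + (-h z).re) =
        (1 + t) / (1 - t) * (-Real.log ‖b z‖) + (1 + t) / (1 - t) * (h z).re := by
      rw [Complex.neg_re]; ring
    rw [e]
    exact add_le_add h2 le_rfl
  line := by
    intro τ hτ0 hτ1 A hA hsub hsym
    have h1 := hB.line τ hτ0 hτ1 A hA hsub hsym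
    have h2 := line_integral_le hh hpos hτ0 hτ1 hA hsub hsym
    have hττ : -τ ≤ τ := by linarith
    have hxmem : ∀ x ∈ Icc (-τ) τ, (x:ℂ) ∈ ball (0:ℂ) 1 := by
      intro x hx
      rw [mem_ball_zero_iff, Complex.norm_real, Real.norm_eq_abs]
      exact lt_of_le_of_lt (abs_le.mpr ⟨hx.1, hx.2⟩) hτ1
    have hψd : DifferentiableOn ℂ ψ (ball 0 1) :=
      (hb.mul (hh.neg.cexp)).congr hψ
    have hi1 : IntervalIntegrable (fun x : ℝ => ‖deriv ψ (x:ℂ)‖) volume (-τ) τ := by
      refine ContinuousOn.intervalIntegrable ?_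
      rw [uIcc_of_le hττ]
      exact (continuousOn_deriv_line hψd hτ1).norm
    have hi2 : IntervalIntegrable (fun x : ℝ => ‖deriv b (x:ℂ)‖) volume (-τ) τ := by
      refine ContinuousOn.intervalIntegrable ?_
      rw [uIcc_of_le hττ]
      exact (continuousOn_deriv_line hb hτ1).norm
    have hi3 : IntervalIntegrable (fun x : ℝ => ‖deriv h (x:ℂ)‖) volume (-τ) τ := by
      refine ContinuousOn.intervalIntegrable ?_
      rw [uIcc_of_le hττ]
      exact (continuousOn_deriv_line hh hτ1).norm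
    have step : ∫ x in (-τ)..τ, ‖deriv ψ (x:ℂ)‖ ≤
        (∫ x in (-τ)..τ, ‖deriv b (x:ℂ)‖) + ∫ x in (-τ)..τ, ‖deriv h (x:ℂ)‖ := by
      rw [← intervalIntegral.integral_add hi2 hi3]
      refine intervalIntegral.integral_mono_on hττ hi1 (hi2.add hi3) ?_
      intro x hx
      have hz := hxmem x hx
      have hbd : HasDerivAt b (deriv b (x:ℂ)) (x:ℂ) :=
        (hb.differentiableAt (isOpen_ball.mem_nhds hz)).hasDerivAt
      have hhd : HasDerivAt h (deriv h (x:ℂ)) (x:ℂ) :=
        (hh.differentiableAt (isOpen_ball.mem_nhds hz)).hasDerivAt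
      have h3 := hbd.mul (hhd.neg.cexp)
      have h4 : HasDerivAt ψ (deriv b (x:ℂ) * Complex.exp (-h x) +
          b x * (Complex.exp (-h x) * (-deriv h (x:ℂ)))) (x:ℂ) := by
        refine h3.congr_of_eventuallyEq ?_
        filter_upwards [isOpen_ball.mem_nhds hz] with w hw
        exact hψ w hw
      rw [h4.deriv]
      have hexp : ‖Complex.exp (-h x)‖ ≤ 1 := by
        rw [Complex.norm_exp, Complex.neg_re]
        exact Real.exp_le_one_iff.mpr (by linarith [hpos _ hz])
      have hbx := hb1 _ hz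
      refine (norm_add_le _ _).trans (add_le_add ?_ ?_)
      · rw [norm_mul]
        nlinarith [norm_nonneg (deriv b (x:ℂ)), norm_nonneg (Complex.exp (-h x))]
      · rw [norm_mul, norm_mul, norm_neg]
        have h5 : ‖b x‖ * ‖Complex.exp (-h x)‖ ≤ 1 := by
          nlinarith [norm_nonneg (b x), norm_nonneg (Complex.exp (-h x))]
        calc ‖b x‖ * (‖Complex.exp (-h x)‖ * ‖deriv h (x:ℂ)‖)
            = (‖b x‖ * ‖Complex.exp (-h x)‖) * ‖deriv h (x:ℂ)‖ := by ring
          _ ≤ 1 * ‖deriv h (x:ℂ)‖ := mul_le_mul_of_nonneg_right h5 (norm_nonneg _)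
          _ = ‖deriv h (x:ℂ)‖ := one_mul _
    have hAint : ∀ g : ℝ → ℝ, Continuous g → IntegrableOn g A := by
      intro g hg
      exact (hg.continuousOn.integrableOn_compact isCompact_Icc).mono_set
        (hsub.trans Ioo_subset_Icc_self)
    have e1 : ∫ φ in A, (B τ φ + (1 + τ) / (1 - τ) * (h (circleMap 0 τ φ)).re) =
        (∫ φ in A, B τ φ) + (1 + τ) / (1 - τ) * ∫ φ in A, (h (circleMap 0 τ φ)).re := by
      rw [← MeasureTheory.integral_const_mul]
      refine MeasureTheory.integral_add (hAint _ (hB.cont τ hτ0 hτ1)) (hAint _ ?_)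
      exact continuous_const.mul (Complex.continuous_re.comp (continuous_comp_circleMap hh hτ0 hτ1))
    rw [e1, mul_add]
    refine step.trans (add_le_add h1 (h2.trans (le_of_eq ?_)))
    have e2 : 1 - τ ^ 2 = (1 - τ) * (1 + τ) := by ring
    have e3 : 1 - τ ≠ 0 := by linarith
    have e4 : 1 + τ ≠ 0 := by linarith
    rw [e2, ← mul_assoc]
    congr 1
    field_simp

/-- nonvanishing holomorphic functions on the unit disc have a logarithm -/
theorem exists_log {g : ℂ → ℂ} (hg : DifferentiableOn ℂ g (ball 0 1))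
    (hne : ∀ z ∈ ball (0:ℂ) 1, g z ≠ 0) :
    ∃ h : ℂ → ℂ, DifferentiableOn ℂ h (ball 0 1) ∧
      ∀ z ∈ ball (0:ℂ) 1, g z = Complex.exp (-h z) := by
  have hq : DifferentiableOn ℂ (fun z => deriv g z / g z) (ball 0 1) :=
    (hg.deriv isOpen_ball).div hg hne
  obtain ⟨P, hP⟩ := hq.isExactOn_ball
  have h0 : (0:ℂ) ∈ ball (0:ℂ) 1 := mem_ball_self one_pos
  obtain ⟨c, hc⟩ : ∃ c, Complex.exp c = g 0 * Complex.exp (-P 0) := by
    refine ⟨Complex.log (g 0 * Complex.exp (-P 0)), Complex.exp_log ?_⟩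
    exact mul_ne_zero (hne 0 h0) (Complex.exp_ne_zero _)
  have hder : ∀ z ∈ ball (0:ℂ) 1, HasDerivAt (fun z => g z * Complex.exp (-P z)) 0 z := by
    intro z hz
    have h1 : HasDerivAt g (deriv g z) z :=
      (hg.differentiableAt (isOpen_ball.mem_nhds hz)).hasDerivAt
    have h2 := h1.mul ((hP z hz).neg.cexp)
    refine h2.congr_deriv ?_
    have := hne z hz
    field_simp
    ring
  have hconst : ∀ z ∈ ball (0:ℂ) 1, g z * Complex.exp (-P z) = g 0 * Complex.exp (-P 0) := by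
    intro z hz
    have := (convex_ball (0:ℂ) 1).norm_image_sub_le_of_norm_hasDerivWithin_le (𝕜 := ℂ)
      (f := fun z => g z * Complex.exp (-P z)) (f' := fun _ => 0) (C := 0)
      (fun x hx => (hder x hx).hasDerivWithinAt) (fun x _ => by simp) h0 hz
    simpa [sub_eq_zero] using this
  refine ⟨fun z => -(P z + c), ?_, ?_⟩
  · intro z hz
    exact (((hP z hz).differentiableAt.add_const c).neg).differentiableWithinAt
  · intro z hz
    rw [neg_neg, Complex.exp_add, hc, ← hconst z hz]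
    rw [mul_left_comm, ← Complex.exp_add]
    simp

/-- every injective self-map of the disc has a comparison function -/
theorem exists_isLam {ψ : ℂ → ℂ} (hd : DifferentiableOn ℂ ψ (ball 0 1))
    (hinj : InjOn ψ (ball 0 1)) (hmaps : MapsTo ψ (ball 0 1) (ball 0 1)) :
    ∃ Lam, IsLam ψ Lam := by
  by_cases hz : ∃ a ∈ ball (0:ℂ) 1, ψ a = 0
  · obtain ⟨a, ha, ha0⟩ := hz
    have han : ‖a‖ < 1 := mem_ball_zero_iff.mp ha
    have han' : ‖-a‖ < 1 := by rwa [norm_neg]
    set φ : ℂ → ℂ := fun w => ψ (mob (-a) w) with hφ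
    have hφd : DifferentiableOn ℂ φ (ball 0 1) :=
      hd.comp ((differentiableOn_mob han').mono ball_subset_closedBall) (mob_mapsTo han')
    have hφm : MapsTo φ (ball 0 1) (ball 0 1) := hmaps.comp (mob_mapsTo han')
    have hφ0 : φ 0 = 0 := by simp only [hφ, mob_zero, neg_neg, ha0]
    have hφi : InjOn φ (ball 0 1) := by
      intro x hx y hy hxy
      exact mob_injOn han' hx hy (hinj (mob_mapsTo han' hx) (mob_mapsTo han' hy) hxy)
    have h0 : (0:ℂ) ∈ ball (0:ℂ) 1 := mem_ball_self one_pos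
    -- dslope
    have hg1 : DifferentiableOn ℂ (dslope φ 0) (ball 0 1) :=
      (Complex.differentiableOn_dslope (isOpen_ball.mem_nhds h0)).mpr hφd
    have hgne : ∀ w ∈ ball (0:ℂ) 1, dslope φ 0 w ≠ 0 := by
      intro w hw
      by_cases hw0 : w = 0
      · rw [hw0, dslope_same]
        exact Pool.Agent.Lib.Hurwitz.deriv_ne_zero_of_injOn isOpen_ball hφd hφi h0
      · rw [dslope_of_ne _ hw0, slope_def_field, hφ0]
        refine div_ne_zero ?_ (by simpa using hw0)
        rw [sub_zero]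
        intro h
        exact hw0 (hφi hw h0 (h.trans hφ0.symm))
    have hgn : ∀ w ∈ ball (0:ℂ) 1, ‖dslope φ 0 w‖ ≤ 1 := by
      intro w hw
      have := Complex.norm_dslope_le_div_of_mapsTo_ball (R₂ := 1) hφd
        (by rw [hφ0]; exact hφm.mono_right ball_subset_closedBall) hw
      simpa using this
    obtain ⟨h, hh, hexp⟩ := exists_log hg1 hgne
    refine ⟨_, isLam_mul_exp (b := mob a) (h := fun z => h (mob a z)) (isLam_mob han)
      ((differentiableOn_mob han).mono ball_subset_closedBall) ?_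
      (hh.comp ((differentiableOn_mob han).mono ball_subset_closedBall) (mob_mapsTo han)) ?_ ?_⟩
    · intro z hz
      exact (norm_mob_lt_one han (mem_ball_zero_iff.mp hz)).le
    · intro z hz
      have h1 := hgn _ (mob_mapsTo han hz)
      rw [hexp _ (mob_mapsTo han hz), Complex.norm_exp, Complex.neg_re,
        Real.exp_le_one_iff] at h1
      linarith
    · intro z hz
      rw [← hexp _ (mob_mapsTo han hz)]
      have h1 : φ (mob a z) = ψ z := by
        simp only [hφ]
        rw [mob_neg_mob han (mem_ball_zero_iff.mp hz)]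
      have h2 := sub_smul_dslope φ 0 (mob a z)
      rw [hφ0, sub_zero, sub_zero, smul_eq_mul, h1] at h2
      exact h2.symm
  · push Not at hz
    obtain ⟨h, hh, hexp⟩ := exists_log hd hz
    refine ⟨_, isLam_mul_exp (b := fun _ => 1) (h := h) isLam_one
      (differentiableOn_const 1) (by simp) hh ?_ (fun z hz => by rw [one_mul]; exact hexp z hz)⟩
    intro z hz
    have h1 : ‖ψ z‖ < 1 := mem_ball_zero_iff.mp (hmaps hz)
    rw [hexp z hz, Complex.norm_exp, Complex.neg_re, Real.exp_lt_one_iff] at h1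
    linarith

end Pool.Agent.HaymanWu
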