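import Mathlib
import Pool.Agent.HaymanWu.Decomp

/-!
# The area estimate along rays
-/

open Set MeasureTheory Metric
open scoped ComplexConjugate ENNReal

namespace Pool.Agent.HaymanWu

/-- determinant of multiplication by a complex number -/
theorem det_restrictScalars_smulRight (c : ℂ) :
    ((ContinuousLinearMap.smulRight (1 : ℂ →L[ℂ] ℂ) c).restrictScalars ℝ).det = ‖c‖ ^ 2 := by
  have h1 : ((ContinuousLinearMap.smulRight (1 : ℂ →L[ℂ] ℂ) c).restrictScalars ℝ).det =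
      LinearMap.det (LinearMap.mul ℝ ℂ c) := by
    rw [ContinuousLinearMap.det]
    congr 1
    ext z
    simp [mul_comm]
  rw [h1, ← Complex.normSq_eq_norm_sq, ← Algebra.norm_complex_apply, Algebra.norm_apply]
  rfl

/-- area formula for injective holomorphic maps -/
theorem lintegral_deriv_sq_eq {ψ : ℂ → ℂ} {S U : Set ℂ} (hU : IsOpen U) (hSU : S ⊆ U)
    (hd : DifferentiableOn ℂ ψ U) (hinj : InjOn ψ U) (hS : MeasurableSet S) :
    ∫⁻ z in S, ENNReal.ofReal (‖deriv ψ z‖ ^ 2) = volume (ψ '' S) := by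
  rw [← lintegral_abs_det_fderiv_eq_addHaar_image volume hS
    (f' := fun z => (ContinuousLinearMap.smulRight (1 : ℂ →L[ℂ] ℂ) (deriv ψ z)).restrictScalars ℝ)
    ?_ (hinj.mono hSU)]
  · refine lintegral_congr (fun z => ?_)
    rw [det_restrictScalars_smulRight, abs_of_nonneg (by positivity)]
  · intro z hz
    have h1 : HasDerivAt ψ (deriv ψ z) z :=
      (hd.differentiableAt (hU.mem_nhds (hSU hz))).hasDerivAt
    exact (h1.hasFDerivAt.restrictScalars ℝ).hasFDerivWithinAt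

/-- lower bound of the area of the image by a polar integral -/
theorem polar_le {ψ : ℂ → ℂ} (hd : DifferentiableOn ℂ ψ (ball 0 1))
    (hinj : InjOn ψ (ball 0 1)) {S : Set ℂ} (hSU : S ⊆ ball 0 1) (hS : MeasurableSet S)
    {A : Set ℝ} (hA : MeasurableSet A) (hAsub : A ⊆ Ioo (-Real.pi) Real.pi) :
    ∫⁻ θ in A, ∫⁻ t in Ioo (0:ℝ) 1, ENNReal.ofReal t *
      S.indicator (fun z => ENNReal.ofReal (‖deriv ψ z‖ ^ 2)) (circleMap 0 t θ) ≤
      volume (ψ '' S) := by
  rw [← lintegral_deriv_sq_eq isOpen_ball hSU hd hinj hS, ← lintegral_indicator hS,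
    ← Complex.lintegral_comp_polarCoord_symm]
  set F : ℂ → ℝ≥0∞ := S.indicator (fun z => ENNReal.ofReal (‖deriv ψ z‖ ^ 2)) with hF
  have hFm : Measurable F :=
    ((((measurable_deriv ψ).norm).pow_const 2).ennreal_ofReal).indicator hS
  have hcm : ∀ p : ℝ × ℝ, Complex.polarCoord.symm p = circleMap 0 p.1 p.2 := by
    intro p
    rw [Complex.polarCoord_symm_apply, circleMap, zero_add, Complex.exp_mul_I]
    push_cast
    ring
  have hGm : Measurable (fun p : ℝ × ℝ => ENNReal.ofReal p.1 * F (circleMap 0 p.1 p.2)) := by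
    refine (measurable_fst.ennreal_ofReal).mul (hFm.comp ?_)
    unfold circleMap
    fun_prop
  have e1 : ∫⁻ p in polarCoord.target, ENNReal.ofReal p.1 • F (Complex.polarCoord.symm p) =
      ∫⁻ p in polarCoord.target, ENNReal.ofReal p.1 * F (circleMap 0 p.1 p.2) := by
    refine lintegral_congr (fun p => ?_)
    rw [hcm, smul_eq_mul]
  rw [e1]
  have hsub : Ioo (0:ℝ) 1 ×ˢ A ⊆ polarCoord.target := by
    rw [polarCoord_target]
    exact prod_mono Ioo_subset_Ioi_self hAsub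
  refine le_trans (le_of_eq ?_) (lintegral_mono_set hsub)
  rw [Measure.volume_eq_prod, ← Measure.prod_restrict, lintegral_prod_symm _ hGm.aemeasurable]

/-- Cauchy–Schwarz on an interval -/
theorem sq_integral_le {F : ℝ → ℝ} {a b : ℝ} (hab : a < b) (hF : ContinuousOn F (Icc a b)) :
    (∫ t in a..b, F t) ^ 2 ≤ (b - a) * ∫ t in a..b, F t ^ 2 := by
  have hF' : ContinuousOn F (uIcc a b) := by rwa [uIcc_of_le hab.le]
  set X := ∫ t in a..b, F t with hX
  have hba : 0 < b - a := by linarith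
  set c := X / (b - a) with hc
  have h1 : 0 ≤ ∫ t in a..b, (F t - c) ^ 2 :=
    intervalIntegral.integral_nonneg hab.le (fun t _ => sq_nonneg _)
  have h2 : ∫ t in a..b, (F t - c) ^ 2 =
      (∫ t in a..b, F t ^ 2) - 2 * c * X + c ^ 2 * (b - a) := by
    have e : ∀ t, (F t - c) ^ 2 = F t ^ 2 - 2 * c * F t + c ^ 2 := by intro t; ring
    simp_rw [e]
    rw [intervalIntegral.integral_add, intervalIntegral.integral_sub,
      intervalIntegral.integral_const_mul, intervalIntegral.integral_const, smul_eq_mul]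
    · ring
    · exact (hF'.pow 2).intervalIntegrable
    · exact (continuousOn_const.mul hF').intervalIntegrable
    · exact ((hF'.pow 2).sub (continuousOn_const.mul hF')).intervalIntegrable
    · exact intervalIntegrable_const
  rw [h2] at h1
  have h3 : c * (b - a) = X := by rw [hc]; field_simp
  have h4 : 0 ≤ (∫ t in a..b, F t ^ 2) - c * X := by
    have : c ^ 2 * (b - a) = c * X := by rw [← h3]; ring
    rw [this] at h1; linarith
  have h5 : (b - a) * (c * X) = X ^ 2 := by rw [← h3]; ring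
  nlinarith

theorem circleMap_ray_mem {a b θ : ℝ} (ha : 0 < a) (hb : b < 1) {t : ℝ} (ht : t ∈ Icc a b) :
    circleMap 0 t θ ∈ ball (0:ℂ) 1 :=
  circleMap_mem_ball (lt_of_lt_of_le ha ht.1) (lt_of_le_of_lt ht.2 hb) θ

theorem continuous_circleMap_radius (θ : ℝ) : Continuous (fun t : ℝ => circleMap 0 t θ) := by
  unfold circleMap
  fun_prop

/-- the estimate along one ray -/
theorem ray_bound {ψ : ℂ → ℂ} (hd : DifferentiableOn ℂ ψ (ball 0 1)) {Lam : ℝ → ℝ → ℝ}
    (hL : IsLam ψ Lam) {τ r R θ : ℝ} (hτ0 : 0 < τ) (hτ1 : τ < 1) (hr0 : 0 < r) (hrR : r < R)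
    (hr1 : r < 1) (hlow : ‖ψ (circleMap 0 τ θ)‖ < r) (hhigh : ∃ t ∈ Ioo τ 1, R < ‖ψ (circleMap 0 t θ)‖) :
    ENNReal.ofReal (τ * (R - r) ^ 2 * Lam τ θ / (2 * (-Real.log r))) ≤
      ∫⁻ t in Ioo (0:ℝ) 1, ENNReal.ofReal t *
        ({z | z ∈ ball (0:ℂ) 1 ∧ r < ‖ψ z‖}).indicator
          (fun z => ENNReal.ofReal (‖deriv ψ z‖ ^ 2)) (circleMap 0 t θ) := by
  obtain ⟨t₂, ht₂, hR⟩ := hhigh
  set E : ℂ := Complex.exp (θ * Complex.I) with hE
  have hEn : ‖E‖ = 1 := Complex.norm_exp_ofReal_mul_I θ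
  have hcm : ∀ t : ℝ, circleMap 0 t θ = (t:ℂ) * E := by intro t; simp [circleMap, hE]
  set g : ℝ → ℝ := fun t => ‖ψ (circleMap 0 t θ)‖ with hg
  have hray : ∀ t ∈ Icc τ t₂, circleMap 0 t θ ∈ ball (0:ℂ) 1 :=
    fun t ht => circleMap_ray_mem hτ0 ht₂.2 ht
  have hψc : ContinuousOn (fun t : ℝ => ψ (circleMap 0 t θ)) (Icc τ t₂) :=
    hd.continuousOn.comp (continuous_circleMap_radius θ).continuousOn hray
  have hgc : ContinuousOn g (Icc τ t₂) := hψc.norm
  have hdc : ContinuousOn (fun t : ℝ => deriv ψ (circleMap 0 t θ)) (Icc τ t₂) :=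
    (hd.deriv isOpen_ball).continuousOn.comp (continuous_circleMap_radius θ).continuousOn hray
  -- last crossing
  obtain ⟨s₁, hs₁, hgs₁, hafter⟩ : ∃ s ∈ Icc τ t₂, g s = r ∧ ∀ t ∈ Ioc s t₂, r < g t := by
    set S' : Set ℝ := {t | t ∈ Icc τ t₂ ∧ g t = r} with hS'
    have hcomp : IsCompact S' := by
      have : S' = Icc τ t₂ ∩ g ⁻¹' {r} := rfl
      rw [this]
      exact isCompact_Icc.of_isClosed_subset
        (hgc.preimage_isClosed_of_isClosed isClosed_Icc isClosed_singleton) inter_subset_left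
    have hne : S'.Nonempty := by
      have h1 : r ∈ Icc (g τ) (g t₂) := ⟨hlow.le, (hrR.trans hR).le⟩
      obtain ⟨t, ht, hgt⟩ := intermediate_value_Icc ht₂.1.le hgc h1
      exact ⟨t, ht, hgt⟩
    obtain ⟨s, hs, hmax⟩ := hcomp.exists_isGreatest hne
    refine ⟨s, hs.1, hs.2, fun t ht => ?_⟩
    by_contra hcon
    push Not at hcon
    have htI : t ∈ Icc τ t₂ := ⟨hs.1.1.trans ht.1.le, ht.2⟩
    have h1 : r ∈ Icc (g t) (g t₂) := ⟨hcon, (hrR.trans hR).le⟩
    obtain ⟨t', ht', hgt'⟩ := intermediate_value_Icc ht.2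
      (hgc.mono (Icc_subset_Icc_left htI.1)) h1
    have := hmax (show t' ∈ S' from ⟨⟨htI.1.trans ht'.1, ht'.2⟩, hgt'⟩)
    linarith [ht.1, ht'.1]
  have hs₁0 : 0 < s₁ := lt_of_lt_of_le hτ0 hs₁.1
  have hs₁1 : s₁ < 1 := lt_of_le_of_lt hs₁.2 ht₂.2
  have hs₁t : s₁ < t₂ := by
    rcases hs₁.2.eq_or_lt with h | h
    · exfalso
      have : g t₂ = r := by rw [← h]; exact hgs₁
      have h2 : R < g t₂ := hR
      linarith
    · exact h
  have hlogr : 0 < -Real.log r := by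
    have := Real.log_neg hr0 hr1; linarith
  -- comparison
  have hcmp : Lam τ θ ≤ 2 * (-Real.log r) / (1 - s₁) := by
    have h1 := hL.mono τ s₁ hτ0 hs₁.1 hs₁1 θ
    have hne : ψ (circleMap 0 s₁ θ) ≠ 0 := by
      intro h0
      have : g s₁ = 0 := by simp [hg, h0]
      linarith
    have h2 := hL.le_log s₁ hs₁0 hs₁1 θ hne
    have h3 : ‖ψ (circleMap 0 s₁ θ)‖ = r := hgs₁
    rw [h3] at h2
    refine (h1.trans h2).trans ?_
    rw [div_mul_eq_mul_div]
    apply div_le_div_of_nonneg_right _ (by linarith)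
    apply mul_le_mul_of_nonneg_right _ hlogr.le
    linarith
  have hLpos := hL.nonneg τ hτ0 hτ1 θ
  -- Cauchy–Schwarz
  have hIcc : Icc s₁ t₂ ⊆ Icc τ t₂ := Icc_subset_Icc_left hs₁.1
  set N : ℝ → ℝ := fun t => ‖deriv ψ (circleMap 0 t θ)‖ with hN
  have hNc : ContinuousOn N (Icc s₁ t₂) := (hdc.norm).mono hIcc
  have hX : R - r ≤ ∫ t in s₁..t₂, N t := by
    have hder : ∀ t ∈ uIcc s₁ t₂, HasDerivAt (fun t : ℝ => ψ ((t:ℂ) * E))
        (deriv ψ ((t:ℂ) * E) * E) t := by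
      intro t ht
      rw [uIcc_of_le hs₁t.le] at ht
      have hz := hray t (hIcc ht)
      rw [hcm] at hz
      have h1 : HasDerivAt ψ (deriv ψ ((t:ℂ) * E)) ((t:ℂ) * E) :=
        (hd.differentiableAt (isOpen_ball.mem_nhds hz)).hasDerivAt
      have h2 : HasDerivAt (fun w : ℂ => w * E) E (t:ℂ) := by
        simpa using (hasDerivAt_id (t:ℂ)).mul_const E
      exact (HasDerivAt.comp (t:ℂ) h1 h2).comp_ofReal
    have hcont : ContinuousOn (fun t : ℝ => deriv ψ ((t:ℂ) * E) * E) (uIcc s₁ t₂) := by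
      rw [uIcc_of_le hs₁t.le]
      have := (hdc.mono hIcc)
      simp_rw [hcm] at this
      exact this.mul continuousOn_const
    have hftc := intervalIntegral.integral_eq_sub_of_hasDerivAt hder hcont.intervalIntegrable
    have h1 : ‖ψ ((t₂:ℂ) * E) - ψ ((s₁:ℂ) * E)‖ ≤ ∫ t in s₁..t₂, N t := by
      rw [← hftc]
      refine (intervalIntegral.norm_integral_le_integral_norm hs₁t.le).trans (le_of_eq ?_)
      refine intervalIntegral.integral_congr (fun t _ => ?_)
      simp only [hN, norm_mul, hEn, mul_one, hcm]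
    have h2 := norm_sub_norm_le (ψ ((t₂:ℂ) * E)) (ψ ((s₁:ℂ) * E))
    have h3 : g t₂ = ‖ψ ((t₂:ℂ) * E)‖ := by simp only [hg, hcm]
    have h4 : g s₁ = ‖ψ ((s₁:ℂ) * E)‖ := by simp only [hg, hcm]
    have h5 : R < g t₂ := hR
    rw [← h3, ← h4, hgs₁] at h2
    linarith
  have hCS := sq_integral_le hs₁t hNc
  have hN2 : 0 ≤ ∫ t in s₁..t₂, N t ^ 2 :=
    intervalIntegral.integral_nonneg hs₁t.le (fun t _ => sq_nonneg _)
  have hRr : (R - r) ^ 2 ≤ (1 - s₁) * ∫ t in s₁..t₂, N t ^ 2 := by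
    have h1 : (R - r) ^ 2 ≤ (∫ t in s₁..t₂, N t) ^ 2 := by
      apply pow_le_pow_left₀ (by linarith) hX
    have h2 : (t₂ - s₁) * ∫ t in s₁..t₂, N t ^ 2 ≤ (1 - s₁) * ∫ t in s₁..t₂, N t ^ 2 := by
      apply mul_le_mul_of_nonneg_right _ hN2
      linarith [ht₂.2]
    linarith
  have hmain : τ * (R - r) ^ 2 * Lam τ θ / (2 * (-Real.log r)) ≤
      ∫ t in s₁..t₂, t * N t ^ 2 := by
    have h1 : τ * ∫ t in s₁..t₂, N t ^ 2 ≤ ∫ t in s₁..t₂, t * N t ^ 2 := by
      rw [← intervalIntegral.integral_const_mul]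
      have hc2 : ContinuousOn (fun t => N t ^ 2) (uIcc s₁ t₂) := by
        rw [uIcc_of_le hs₁t.le]; exact hNc.pow 2
      refine intervalIntegral.integral_mono_on hs₁t.le
        ((continuousOn_const.mul hc2).intervalIntegrable)
        ((continuousOn_id.mul hc2).intervalIntegrable) ?_
      intro t ht
      exact mul_le_mul_of_nonneg_right (hs₁.1.trans ht.1) (sq_nonneg _)
    refine le_trans ?_ h1
    rw [div_le_iff₀ (by linarith)]
    have h2 : Lam τ θ * (1 - s₁) ≤ 2 * (-Real.log r) := by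
      rwa [le_div_iff₀ (by linarith)] at hcmp
    have h3 : (R - r) ^ 2 * Lam τ θ ≤ (∫ t in s₁..t₂, N t ^ 2) * (2 * (-Real.log r)) := by
      calc (R - r) ^ 2 * Lam τ θ ≤ ((1 - s₁) * ∫ t in s₁..t₂, N t ^ 2) * Lam τ θ :=
            mul_le_mul_of_nonneg_right hRr hLpos
        _ = (∫ t in s₁..t₂, N t ^ 2) * (Lam τ θ * (1 - s₁)) := by ring
        _ ≤ _ := mul_le_mul_of_nonneg_left h2 hN2
    calc τ * (R - r) ^ 2 * Lam τ θ = τ * ((R - r) ^ 2 * Lam τ θ) := by ring
      _ ≤ τ * ((∫ t in s₁..t₂, N t ^ 2) * (2 * (-Real.log r))) :=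
          mul_le_mul_of_nonneg_left h3 hτ0.le
      _ = _ := by ring
  refine (ENNReal.ofReal_le_ofReal hmain).trans ?_
  have hint : IntegrableOn (fun t => t * N t ^ 2) (Ioc s₁ t₂) := by
    have : ContinuousOn (fun t => t * N t ^ 2) (Icc s₁ t₂) := continuousOn_id.mul (hNc.pow 2)
    exact (this.integrableOn_compact isCompact_Icc).mono_set Ioc_subset_Icc_self
  rw [intervalIntegral.integral_of_le hs₁t.le, ofReal_integral_eq_lintegral_ofReal hint]
  · have hsub : Ioc s₁ t₂ ⊆ Ioo (0:ℝ) 1 := fun t ht =>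
      ⟨hs₁0.trans ht.1, lt_of_le_of_lt ht.2 ht₂.2⟩
    refine le_trans ?_ (lintegral_mono_set hsub)
    refine le_of_eq (setLIntegral_congr_fun measurableSet_Ioc (fun t ht => ?_))
    have htI : t ∈ Icc τ t₂ := ⟨hs₁.1.trans ht.1.le, ht.2⟩
    have hmemS : circleMap 0 t θ ∈ {z | z ∈ ball (0:ℂ) 1 ∧ r < ‖ψ z‖} :=
      ⟨hray t htI, hafter t ht⟩
    simp only [indicator_of_mem hmemS]
    rw [← ENNReal.ofReal_mul (hs₁0.trans ht.1).le]
  · filter_upwards [ae_restrict_mem measurableSet_Ioc] with t ht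
    exact mul_nonneg (hs₁0.trans ht.1).le (sq_nonneg _)

end Pool.Agent.HaymanWu
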