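import Mathlib
import Pool.Agent.HaymanWu.Area

/-!
# The bound for one component
-/

open Set MeasureTheory Metric
open scoped ComplexConjugate ENNReal

namespace Pool.Agent.HaymanWu

theorem component_bound {ψ : ℂ → ℂ} (hd : DifferentiableOn ℂ ψ (ball 0 1))
    (hinj : InjOn ψ (ball 0 1)) (hmaps : MapsTo ψ (ball 0 1) (ball 0 1))
    (hBD : ∀ ε > 0, ∃ t0 < 1, ∀ z : ℂ, t0 ≤ ‖z‖ → ‖z‖ < 1 →
      1 - ε ≤ ‖ψ z‖ ∨ 1 - ε ≤ ‖ψ ((starRingEnd ℂ) z)‖)
    {τ : ℝ} (hτ0 : 0 < τ) (hτ1 : τ < 1) :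
    ∃ r0 < 1, 0 ≤ r0 ∧ ∀ r, r0 < r → r < 1 →
      ENNReal.ofReal ((∫ x in (-τ)..τ, ‖deriv ψ (x:ℂ)‖) * ((1 + τ) ^ 2 / (2 * Real.pi)) *
        (r * (1 - r))) ≤ volume (ψ '' {z | z ∈ ball (0:ℂ) 1 ∧ r < ‖ψ z‖}) := by
  obtain ⟨Lam, hL⟩ := exists_isLam hd hinj hmaps
  have hpi := Real.pi_pos
  obtain ⟨z0, hz0, hmax⟩ := (isCompact_closedBall (0:ℂ) τ).exists_isMaxOn
    ⟨0, mem_closedBall_self hτ0.le⟩
    ((hd.continuousOn.mono (closedBall_subset_ball_one hτ1)).norm)
  refine ⟨‖ψ z0‖, mem_ball_zero_iff.mp (hmaps (closedBall_subset_ball_one hτ1 hz0)),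
    norm_nonneg _, fun r hr hr1 => ?_⟩
  have hr0 : 0 < r := lt_of_le_of_lt (norm_nonneg _) hr
  set I := ∫ x in (-τ)..τ, ‖deriv ψ (x:ℂ)‖ with hI
  have hI0 : 0 ≤ I := intervalIntegral.integral_nonneg (by linarith) (fun _ _ => norm_nonneg _)
  have hlogr : 0 < -Real.log r := by
    have := Real.log_neg hr0 hr1; linarith
  set S : Set ℂ := {z | z ∈ ball (0:ℂ) 1 ∧ r < ‖ψ z‖} with hS
  have hSo : IsOpen S := by
    have : S = ball (0:ℂ) 1 ∩ (fun z => ‖ψ z‖) ⁻¹' (Ioi r) := rfl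
    rw [this]
    exact hd.continuousOn.norm.isOpen_inter_preimage isOpen_ball isOpen_Ioi
  have hSU : S ⊆ ball 0 1 := fun z hz => hz.1
  -- the estimate for each level `R`
  have key : ∀ R, r < R → R < 1 →
      ENNReal.ofReal (I * ((1 + τ) ^ 2 / (2 * Real.pi)) * ((R - r) ^ 2 / (-Real.log r))) ≤
        volume (ψ '' S) := by
    intro R hrR hR1
    obtain ⟨t0, ht0, hbd⟩ := hBD ((1 - R) / 2) (by linarith)
    set A : Set ℝ := Ioo (-Real.pi) Real.pi ∩
      ⋃ t ∈ Ioo τ 1, (fun θ => ‖ψ (circleMap 0 t θ)‖) ⁻¹' (Ioi R) with hA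
    have hAo : IsOpen A := by
      refine isOpen_Ioo.inter (isOpen_biUnion (fun t ht => ?_))
      exact isOpen_Ioi.preimage
        (continuous_comp_circleMap hd (hτ0.trans ht.1) ht.2).norm
    have hAsub : A ⊆ Ioo (-Real.pi) Real.pi := inter_subset_left
    have hAmem : ∀ θ, θ ∈ A ↔ θ ∈ Ioo (-Real.pi) Real.pi ∧
        ∃ t ∈ Ioo τ 1, R < ‖ψ (circleMap 0 t θ)‖ := by
      intro θ
      simp [hA]
    have hAsym : ∀ φ ∈ Ioo 0 Real.pi, φ ∈ A ∨ -φ ∈ A := by
      intro φ hφ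
      set t := max t0 ((1 + τ) / 2) with ht
      have h1 : t0 ≤ t := le_max_left _ _
      have h2 : (1 + τ) / 2 ≤ t := le_max_right _ _
      have h3 : t < 1 := max_lt ht0 (by linarith)
      have h4 : 0 < t := by linarith
      have hn : ‖circleMap 0 t φ‖ = t := norm_circleMap_zero' h4 φ
      have hc : (starRingEnd ℂ) (circleMap 0 t φ) = circleMap 0 t (-φ) := by
        simp only [circleMap, zero_add, map_mul, Complex.conj_ofReal, ← Complex.exp_conj,
          Complex.conj_I]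
        push_cast
        ring_nf
      rcases hbd (circleMap 0 t φ) (by rw [hn]; exact h1) (by rw [hn]; exact h3) with h | h
      · left
        rw [hAmem]
        exact ⟨⟨by linarith [hφ.1], hφ.2⟩, t, ⟨by linarith, h3⟩, by linarith⟩
      · right
        rw [hAmem]
        rw [hc] at h
        exact ⟨⟨by linarith [hφ.2], by linarith [hφ.1]⟩, t, ⟨by linarith, h3⟩, by linarith⟩
    have hline := hL.line τ hτ0 hτ1 A hAo.measurableSet hAsub hAsym
    rw [← hI] at hline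
    set c := τ * (R - r) ^ 2 / (2 * (-Real.log r)) with hc
    have hRr : 0 < R - r := by linarith
    have hc0 : 0 < c := by
      rw [hc]; apply div_pos <;> [positivity; linarith]
    have hLint : IntegrableOn (fun θ => c * Lam τ θ) A :=
      ((continuous_const.mul (hL.cont τ hτ0 hτ1)).continuousOn.integrableOn_compact
        isCompact_Icc).mono_set (hAsub.trans Ioo_subset_Icc_self)
    have h1 : ∫⁻ θ in A, ENNReal.ofReal (c * Lam τ θ) ≤ volume (ψ '' S) := by
      refine le_trans ?_ (polar_le hd hinj hSU hSo.measurableSet hAo.measurableSet hAsub)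
      refine setLIntegral_mono' hAo.measurableSet (fun θ hθ => ?_)
      have hθ' := (hAmem θ).mp hθ
      have hlow : ‖ψ (circleMap 0 τ θ)‖ < r := by
        refine lt_of_le_of_lt (hmax ?_) hr
        rw [mem_closedBall_zero_iff, norm_circleMap_zero' hτ0]
      have := ray_bound hd hL hτ0 hτ1 hr0 hrR hr1 hlow hθ'.2
      refine le_trans (le_of_eq ?_) this
      congr 1
      rw [hc]; ring
    rw [← ofReal_integral_eq_lintegral_ofReal hLint
      (Filter.Eventually.of_forall fun θ => mul_nonneg hc0.le (hL.nonneg τ hτ0 hτ1 θ))] at h1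
    refine le_trans (ENNReal.ofReal_le_ofReal ?_) h1
    rw [MeasureTheory.integral_const_mul]
    have h2 : I * ((1 + τ) ^ 2 / (Real.pi * τ)) ≤ ∫ φ in A, Lam τ φ := by
      have h3 : 0 < (1 + τ) ^ 2 / (Real.pi * τ) := by positivity
      calc I * ((1 + τ) ^ 2 / (Real.pi * τ)) ≤
            (Real.pi * τ / (1 + τ) ^ 2 * ∫ φ in A, Lam τ φ) * ((1 + τ) ^ 2 / (Real.pi * τ)) :=
            mul_le_mul_of_nonneg_right hline h3.le
        _ = _ := by field_simp
    refine le_trans (le_of_eq ?_) (mul_le_mul_of_nonneg_left h2 hc0.le)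
    rw [hc]
    have := hlogr.ne'
    field_simp
  -- pass to the limit `R → 1`
  have hlim : ENNReal.ofReal (I * ((1 + τ) ^ 2 / (2 * Real.pi)) *
      ((1 - r) ^ 2 / (-Real.log r))) ≤ volume (ψ '' S) := by
    have ht : Filter.Tendsto (fun R : ℝ => ENNReal.ofReal (I * ((1 + τ) ^ 2 / (2 * Real.pi)) *
        ((R - r) ^ 2 / (-Real.log r)))) (nhdsWithin 1 (Iio 1))
        (nhds (ENNReal.ofReal (I * ((1 + τ) ^ 2 / (2 * Real.pi)) *
          ((1 - r) ^ 2 / (-Real.log r))))) := by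
      have hcont : Continuous (fun R : ℝ => ENNReal.ofReal (I * ((1 + τ) ^ 2 / (2 * Real.pi)) *
        ((R - r) ^ 2 / (-Real.log r)))) := ENNReal.continuous_ofReal.comp (by fun_prop)
      exact hcont.continuousAt.tendsto.mono_left nhdsWithin_le_nhds
    refine le_of_tendsto ht ?_
    filter_upwards [Ioo_mem_nhdsLT hr1] with R hR
    exact key R hR.1 hR.2
  refine le_trans (ENNReal.ofReal_le_ofReal ?_) hlim
  apply mul_le_mul_of_nonneg_left _ (by positivity)
  rw [le_div_iff₀ hlogr]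
  have h1 : -Real.log r ≤ 1 / r - 1 := by
    have := Real.log_le_sub_one_of_pos (show 0 < 1 / r by positivity)
    rw [one_div, Real.log_inv] at this
    rw [one_div]; exact this
  have h2 : r * (1 - r) * (-Real.log r) ≤ r * (1 - r) * (1 / r - 1) :=
    mul_le_mul_of_nonneg_left h1 (mul_nonneg hr0.le (by linarith))
  refine h2.trans (le_of_eq ?_)
  field_simp

end Pool.Agent.HaymanWu
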