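import Mathlib

/-!
The one-dimensional Hausdorff measure of a `C¹` curve is at most its length.
-/

set_option autoImplicit false

open Set MeasureTheory Measure intervalIntegral
open scoped NNReal ENNReal

namespace Pool.Agent.HaymanWu

variable {E : Type*} [NormedAddCommGroup E] [NormedSpace ℝ E] [CompleteSpace E]
  [MeasurableSpace E] [BorelSpace E]

theorem hausdorff_image_le' {f f' : ℝ → E} {a b : ℝ} (hab : a ≤ b)
    (hf : ∀ x ∈ Icc a b, HasDerivWithinAt f (f' x) (Icc a b) x)
    (hf' : ContinuousOn f' (Icc a b)) :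
    μH[1] (f '' Icc a b) ≤ ENNReal.ofReal (∫ x in a..b, ‖f' x‖) := by
  classical
  set s : ℝ → ℝ := fun x => ∫ t in a..x, ‖f' t‖ with hs
  have hint : ∀ x ∈ Icc a b, ∀ y ∈ Icc a b, IntervalIntegrable f' volume x y := by
    intro x hx y hy
    apply (hf'.mono _).intervalIntegrable
    exact uIcc_subset_Icc hx hy
  have haI : a ∈ Icc a b := left_mem_Icc.mpr hab
  have hbI : b ∈ Icc a b := right_mem_Icc.mpr hab
  have hsub : ∀ x ∈ Icc a b, ∀ y ∈ Icc a b, s y - s x = ∫ t in x..y, ‖f' t‖ := by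
    intro x hx y hy
    simp only [hs]
    exact integral_interval_sub_left (hint a haI y hy).norm (hint a haI x hx).norm
  have hkey : ∀ x ∈ Icc a b, ∀ y ∈ Icc a b, x ≤ y → ‖f y - f x‖ ≤ s y - s x := by
    intro x hx y hy hxy
    have h1 : ∫ t in x..y, f' t = f y - f x := by
      apply integral_eq_sub_of_hasDeriv_right_of_le hxy
      · intro t ht
        exact ((hf t ⟨hx.1.trans ht.1, ht.2.trans hy.2⟩).continuousWithinAt).mono
          (Icc_subset_Icc hx.1 hy.2)
      · intro t ht
        have ht' : t ∈ Ioo a b := ⟨hx.1.trans_lt ht.1, ht.2.trans_le hy.2⟩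
        exact ((hf t (Ioo_subset_Icc_self ht')).hasDerivAt (Icc_mem_nhds ht'.1 ht'.2)).hasDerivWithinAt
      · exact hint x hx y hy
    rw [← h1, hsub x hx y hy]
    exact norm_integral_le_integral_norm hxy
  have hdist : ∀ x ∈ Icc a b, ∀ y ∈ Icc a b, dist (f x) (f y) ≤ dist (s x) (s y) := by
    intro x hx y hy
    rcases le_total x y with h | h
    · have := hkey x hx y hy h
      rw [dist_comm, dist_eq_norm, dist_comm, Real.dist_eq]
      exact this.trans (le_abs_self _)
    · have := hkey y hy x hx h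
      rw [dist_eq_norm, Real.dist_eq]
      exact this.trans (le_abs_self _)
  set g : ℝ → ℝ := Function.invFunOn s (Icc a b) with hg
  have hg1 : ∀ u ∈ s '' Icc a b, g u ∈ Icc a b ∧ s (g u) = u := by
    intro u hu
    exact ⟨Function.invFunOn_mem hu, Function.invFunOn_eq hu⟩
  set F : ℝ → E := fun u => f (g u) with hF
  have hLip : LipschitzOnWith 1 F (s '' Icc a b) := by
    rw [lipschitzOnWith_iff_dist_le_mul]
    intro u hu v hv
    obtain ⟨h1, h2⟩ := hg1 u hu
    obtain ⟨h3, h4⟩ := hg1 v hv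
    have := hdist _ h1 _ h3
    rw [h2, h4] at this
    simpa using this
  have himg : f '' Icc a b ⊆ F '' (s '' Icc a b) := by
    rintro _ ⟨x, hx, rfl⟩
    refine ⟨s x, mem_image_of_mem s hx, ?_⟩
    obtain ⟨h1, h2⟩ := hg1 (s x) (mem_image_of_mem s hx)
    have := hdist _ h1 _ hx
    rw [h2, dist_self] at this
    exact dist_le_zero.mp this
  have hsI : s '' Icc a b ⊆ Icc 0 (s b) := by
    rintro _ ⟨x, hx, rfl⟩
    have h0 : s a = 0 := by simp [hs]
    constructor
    · have := hkey a haI x hx hx.1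
      have h2 := (norm_nonneg _).trans this
      linarith
    · have := hkey x hx b hbI hx.2
      have h2 := (norm_nonneg _).trans this
      linarith
  calc μH[1] (f '' Icc a b) ≤ μH[1] (F '' (s '' Icc a b)) := measure_mono himg
    _ ≤ ((1 : ℝ≥0) : ℝ≥0∞) ^ (1 : ℝ) * μH[1] (s '' Icc a b) :=
        hLip.hausdorffMeasure_image_le zero_le_one
    _ = μH[1] (s '' Icc a b) := by simp
    _ ≤ μH[1] (Icc 0 (s b)) := measure_mono hsI
    _ = ENNReal.ofReal (s b) := by
        rw [hausdorffMeasure_real, Real.volume_Icc, sub_zero]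

theorem hausdorff_image_le {f f' : ℝ → ℂ} {a b : ℝ} (hab : a ≤ b)
    (hf : ∀ x ∈ Icc a b, HasDerivWithinAt f (f' x) (Icc a b) x)
    (hf' : ContinuousOn f' (Icc a b)) :
    μH[1] (f '' Icc a b) ≤ ENNReal.ofReal (∫ x in a..b, ‖f' x‖) :=
  hausdorff_image_le' hab hf hf'

end Pool.Agent.HaymanWu
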