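import Mathlib
import Pool.Agent.Lib.SimplyConnectedInter
import Pool.Agent.Lib.Hurwitz

/-!
# The symmetric family of components

For a univalent function `f` on the unit disc the set `{Im f = 0}` is covered by the images of the
real diameter under countably many univalent maps `ψ i` of the disc into itself, with disjoint
images, coming from the components of `f(D) ∩ conj f(D)` which meet the real line.
-/

open Set Metric Complex Function

namespace Pool.Agent.HaymanWu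


/-- the reflected function -/
noncomputable def refl (f : ℂ → ℂ) : ℂ → ℂ := fun z => (starRingEnd ℂ) (f ((starRingEnd ℂ) z))

theorem conj_mem_ball {z : ℂ} {r : ℝ} : (starRingEnd ℂ) z ∈ ball (0:ℂ) r ↔ z ∈ ball (0:ℂ) r := by
  simp

theorem refl_differentiableOn {f : ℂ → ℂ} (hf : DifferentiableOn ℂ f (ball 0 1)) :
    DifferentiableOn ℂ (refl f) (ball 0 1) := by
  intro z hz
  have h1 := hf.differentiableAt (isOpen_ball.mem_nhds (conj_mem_ball.2 hz))
  exact (differentiableAt_conj_conj_iff.mpr h1).differentiableWithinAt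

theorem refl_injOn {f : ℂ → ℂ} (hinj : InjOn f (ball 0 1)) : InjOn (refl f) (ball 0 1) := by
  intro x hx y hy hxy
  have h1 : f ((starRingEnd ℂ) x) = f ((starRingEnd ℂ) y) := (starRingEnd ℂ).injective hxy
  exact (starRingEnd ℂ).injective (hinj (conj_mem_ball.2 hx) (conj_mem_ball.2 hy) h1)

theorem mem_refl_image {f : ℂ → ℂ} {w : ℂ} :
    w ∈ refl f '' ball 0 1 ↔ (starRingEnd ℂ) w ∈ f '' ball 0 1 := by
  constructor
  · rintro ⟨z, hz, rfl⟩
    exact ⟨(starRingEnd ℂ) z, conj_mem_ball.2 hz, by simp [refl]⟩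
  · rintro ⟨z, hz, h⟩
    refine ⟨(starRingEnd ℂ) z, conj_mem_ball.2 hz, ?_⟩
    simp [refl, h]

/-- conjugation as a homeomorphism -/
noncomputable def cj : ℂ ≃ₜ ℂ := conjCLE.toHomeomorph

theorem cj_apply (z : ℂ) : cj z = (starRingEnd ℂ) z := rfl

/-- the symmetric set -/
def VV (f : ℂ → ℂ) : Set ℂ := f '' ball 0 1 ∩ refl f '' ball 0 1

theorem mem_VV {f : ℂ → ℂ} {w : ℂ} :
    w ∈ VV f ↔ w ∈ f '' ball 0 1 ∧ (starRingEnd ℂ) w ∈ f '' ball 0 1 := by
  rw [VV, mem_inter_iff, mem_refl_image]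

theorem conj_mem_VV {f : ℂ → ℂ} {w : ℂ} (h : w ∈ VV f) : (starRingEnd ℂ) w ∈ VV f := by
  rw [mem_VV] at h ⊢
  exact ⟨h.2, by simpa using h.1⟩

theorem cj_image_VV (f : ℂ → ℂ) : cj '' VV f = VV f := by
  ext w
  constructor
  · rintro ⟨z, hz, rfl⟩
    exact conj_mem_VV hz
  · intro hw
    exact ⟨(starRingEnd ℂ) w, conj_mem_VV hw, by simp [cj_apply]⟩

theorem cj_image_comp (f : ℂ → ℂ) {p : ℂ} (hp : p ∈ VV f) (hr : (starRingEnd ℂ) p = p) :
    cj '' connectedComponentIn (VV f) p = connectedComponentIn (VV f) p := by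
  rw [cj.image_connectedComponentIn hp, cj_image_VV, cj_apply, hr]

theorem conj_mem_comp {f : ℂ → ℂ} {p : ℂ} (hp : p ∈ VV f) (hr : (starRingEnd ℂ) p = p) {w : ℂ}
    (hw : w ∈ connectedComponentIn (VV f) p) :
    (starRingEnd ℂ) w ∈ connectedComponentIn (VV f) p := by
  rw [← cj_image_comp f hp hr]
  exact ⟨w, hw, rfl⟩

theorem isOpen_VV {f : ℂ → ℂ} (hf : DifferentiableOn ℂ f (ball 0 1))
    (hinj : InjOn f (ball 0 1)) : IsOpen (VV f) :=
  (Pool.Lib.isOpen_image_of_injOn isOpen_ball hf hinj isOpen_ball Subset.rfl).inter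
    (Pool.Lib.isOpen_image_of_injOn isOpen_ball (refl_differentiableOn hf) (refl_injOn hinj)
      isOpen_ball Subset.rfl)

/-- the complement of a component is open -/
theorem isOpen_diff_comp {V : Set ℂ} (hV : IsOpen V) (p : ℂ) :
    IsOpen (V \ connectedComponentIn V p) := by
  rw [isOpen_iff_mem_nhds]
  rintro y ⟨hy, hyn⟩
  have h1 : connectedComponentIn V y ⊆ V \ connectedComponentIn V p := by
    intro z hz
    refine ⟨connectedComponentIn_subset _ _ hz, fun hz2 => hyn ?_⟩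
    rw [connectedComponentIn_eq hz2, ← connectedComponentIn_eq hz]
    exact mem_connectedComponentIn hy
  exact Filter.mem_of_superset ((hV.connectedComponentIn).mem_nhds (mem_connectedComponentIn hy)) h1

/-- the Riemann map of a symmetric component commutes with conjugation -/
theorem exists_symm_map {f : ℂ → ℂ} (hf : DifferentiableOn ℂ f (ball 0 1))
    (hinj : InjOn f (ball 0 1)) {p : ℂ} (hp : p ∈ VV f) (hr : (starRingEnd ℂ) p = p) :
    ∃ G : ℂ → ℂ, DifferentiableOn ℂ G (ball 0 1) ∧ InjOn G (ball 0 1) ∧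
      G '' ball 0 1 = connectedComponentIn (VV f) p ∧
      ∀ z ∈ ball (0:ℂ) 1, G ((starRingEnd ℂ) z) = (starRingEnd ℂ) (G z) := by
  obtain ⟨G, hG, hGi, hGim, hG0, c, hc, hGd⟩ := Pool.Lib.exists_map_component_inter hf hinj
    (refl_differentiableOn hf) (refl_injOn hinj) (p := p) hp
  change G '' ball 0 1 = connectedComponentIn (VV f) p at hGim
  refine ⟨G, hG, hGi, hGim, ?_⟩
  set C := connectedComponentIn (VV f) p with hC
  have hCo : IsOpen C := (isOpen_VV hf hinj).connectedComponentIn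
  have h0m : (0:ℂ) ∈ ball (0:ℂ) 1 := mem_ball_self one_pos
  have hpC : p ∈ C := mem_connectedComponentIn hp
  obtain ⟨g, hg, hgi, hgim, hgG, hGg, hgd⟩ :=
    Pool.Agent.Lib.Hurwitz.exists_inverse isOpen_ball hG hGi
  rw [hGim] at hg hgi hgim hGg
  have hgm : MapsTo g C (ball 0 1) := by rw [← hgim]; exact mapsTo_image _ _
  have hg0 : g p = 0 := by rw [← hG0, hgG 0 h0m]
  have hgd0 : HasDerivAt g ((c⁻¹ : ℝ) : ℂ) p := by
    have := hgd 0 h0m
    rwa [hG0, hGd, ← ofReal_inv] at this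
  have hcC : ∀ w ∈ C, (starRingEnd ℂ) w ∈ C := fun w hw => conj_mem_comp hp hr hw
  have hrd : DifferentiableOn ℂ (refl g) C := by
    intro z hz
    have h1 := hg.differentiableAt (hCo.mem_nhds (hcC z hz))
    exact (differentiableAt_conj_conj_iff.mpr h1).differentiableWithinAt
  have hri : InjOn (refl g) C := by
    intro x hx y hy hxy
    have h1 : g ((starRingEnd ℂ) x) = g ((starRingEnd ℂ) y) := (starRingEnd ℂ).injective hxy
    exact (starRingEnd ℂ).injective (hgi (hcC x hx) (hcC y hy) h1)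
  have hrim : refl g '' C = ball 0 1 := by
    apply Subset.antisymm
    · rintro _ ⟨z, hz, rfl⟩
      exact conj_mem_ball.2 (hgm (hcC z hz))
    · intro w hw
      rw [← conj_mem_ball, ← hgim] at hw
      obtain ⟨z, hz, h⟩ := hw
      exact ⟨(starRingEnd ℂ) z, hcC z hz, by simp [refl, h]⟩
  have hr0 : refl g p = 0 := by simp [refl, hr, hg0]
  have hrd0 : HasDerivAt (refl g) ((c⁻¹ : ℝ) : ℂ) p := by
    have h1 : HasDerivAt g ((c⁻¹ : ℝ) : ℂ) ((starRingEnd ℂ) p) := by rw [hr]; exact hgd0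
    have h2 := h1.conj_conj
    have h3 : (starRingEnd ℂ) ((starRingEnd ℂ) p) = p := by simp
    rw [h3] at h2
    have h4 : (starRingEnd ℂ) ((c⁻¹ : ℝ) : ℂ) = ((c⁻¹ : ℝ) : ℂ) := conj_ofReal _
    rw [h4] at h2
    exact h2
  have heq := Pool.Agent.Lib.RiemannMapping.eqOn_of_map_ball hCo hpC hg hgi hgim hg0
    (inv_pos.2 hc) hgd0.deriv hrd hri hrim hr0 (inv_pos.2 hc) hrd0.deriv
  intro z hz
  have hGz : G z ∈ C := by rw [← hGim]; exact mem_image_of_mem G hz
  have h1 := heq (hcC _ hGz)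
  have h2 : g ((starRingEnd ℂ) (G z)) = (starRingEnd ℂ) z := by
    rw [h1]
    simp [refl, hgG z hz]
  rw [← h2, hGg _ (hcC _ hGz)]

theorem exists_symmetric_family {f : ℂ → ℂ} (hf : DifferentiableOn ℂ f (ball 0 1))
    (hinj : InjOn f (ball 0 1)) :
    ∃ (ι : Type) (_ : Countable ι) (ψ : ι → ℂ → ℂ),
      (∀ i, DifferentiableOn ℂ (ψ i) (ball 0 1)) ∧ (∀ i, InjOn (ψ i) (ball 0 1)) ∧
      (∀ i, MapsTo (ψ i) (ball 0 1) (ball 0 1)) ∧
      (Pairwise fun i j => Disjoint (ψ i '' ball 0 1) (ψ j '' ball 0 1)) ∧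
      ({z : ℂ | z ∈ ball (0:ℂ) 1 ∧ (f z).im = 0} ⊆
        ⋃ i, ψ i '' ((fun x : ℝ => (x:ℂ)) '' Ioo (-1) 1)) ∧
      (∀ i, ∀ ε > 0, ∃ t0 < 1, ∀ z : ℂ, t0 ≤ ‖z‖ → ‖z‖ < 1 →
        1 - ε ≤ ‖ψ i z‖ ∨ 1 - ε ≤ ‖ψ i ((starRingEnd ℂ) z)‖) := by
  classical
  set S : Set (Set ℂ) := {C | ∃ p : ℂ, p ∈ VV f ∧ (starRingEnd ℂ) p = p ∧
    C = connectedComponentIn (VV f) p} with hS
  have hVo := isOpen_VV hf hinj
  have hdisj : ∀ C ∈ S, ∀ D ∈ S, ∀ w, w ∈ C → w ∈ D → C = D := by
    rintro C ⟨p, hp, -, rfl⟩ D ⟨q, hq, -, rfl⟩ w hwC hwD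
    rw [connectedComponentIn_eq hwC, connectedComponentIn_eq hwD]
  have hcount : S.Countable := by
    apply Set.PairwiseDisjoint.countable_of_isOpen (s := fun C : Set ℂ => C)
    · intro C hC D hD hne
      rw [Function.onFun, Set.disjoint_left]
      intro w hw hw'
      exact hne (hdisj C hC D hD w hw hw')
    · rintro C ⟨p, hp, -, rfl⟩
      exact hVo.connectedComponentIn
    · rintro C ⟨p, hp, -, rfl⟩
      exact ⟨p, mem_connectedComponentIn hp⟩
  have hG : ∀ i : S, ∃ G : ℂ → ℂ, DifferentiableOn ℂ G (ball 0 1) ∧ InjOn G (ball 0 1) ∧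
      G '' ball 0 1 = i.1 ∧
      ∀ z ∈ ball (0:ℂ) 1, G ((starRingEnd ℂ) z) = (starRingEnd ℂ) (G z) := by
    rintro ⟨C, p, hp, hr, rfl⟩
    exact exists_symm_map hf hinj hp hr
  choose G hGd hGi hGim hGc using hG
  obtain ⟨F, hF, hFi, hFim, hFf, hfF, hFd⟩ :=
    Pool.Agent.Lib.Hurwitz.exists_inverse isOpen_ball hf hinj
  have hsub : ∀ i : S, i.1 ⊆ f '' ball 0 1 := by
    rintro ⟨C, p, hp, hr, rfl⟩ w hw
    exact (connectedComponentIn_subset _ _ hw).1
  have hmap : ∀ i : S, MapsTo (G i) (ball 0 1) (f '' ball 0 1) := by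
    intro i z hz
    apply hsub i
    rw [← hGim i]
    exact mem_image_of_mem _ hz
  have hmF : MapsTo F (f '' ball 0 1) (ball 0 1) := by
    conv_rhs => rw [← hFim]
    exact mapsTo_image _ _
  refine ⟨S, hcount.to_subtype, fun i z => F (G i z), ?_, ?_, ?_, ?_, ?_, ?_⟩
  · intro i
    exact hF.comp (hGd i) (hmap i)
  · intro i
    exact hFi.comp (hGi i) (hmap i)
  · intro i
    exact hmF.comp (hmap i)
  · intro i j hij
    rw [Set.disjoint_left]
    rintro _ ⟨z, hz, rfl⟩ ⟨w, hw, hwz⟩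
    apply hij
    have h1 : G j w = G i z := hFi (hmap j hw) (hmap i hz) hwz
    apply Subtype.ext
    apply hdisj i.1 i.2 j.1 j.2 (G i z)
    · rw [← hGim i]; exact mem_image_of_mem _ hz
    · rw [← hGim j, ← h1]; exact mem_image_of_mem _ hw
  · rintro z ⟨hz, hz0⟩
    have hreal : (starRingEnd ℂ) (f z) = f z := conj_eq_iff_im.2 hz0
    have hV : f z ∈ VV f := by
      rw [mem_VV, hreal]
      exact ⟨mem_image_of_mem f hz, mem_image_of_mem f hz⟩
    set i : S := ⟨connectedComponentIn (VV f) (f z), f z, hV, hreal, rfl⟩ with hi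
    have hmem : f z ∈ G i '' ball 0 1 := by
      rw [hGim i]
      exact mem_connectedComponentIn hV
    obtain ⟨w, hw, hwz⟩ := hmem
    have hcw : (starRingEnd ℂ) w = w := by
      apply hGi i (conj_mem_ball.2 hw) hw
      rw [hGc i w hw, hwz, hreal]
    have hwim : w.im = 0 := conj_eq_iff_im.1 hcw
    have hwr : ((w.re : ℝ) : ℂ) = w := by
      apply Complex.ext <;> simp [hwim]
    rw [mem_iUnion]
    refine ⟨i, w, ⟨w.re, ?_, hwr⟩, ?_⟩
    · have h1 : |w.re| < 1 := lt_of_le_of_lt (Complex.abs_re_le_norm w) (by simpa using hw)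
      exact abs_lt.1 h1
    · change F (G i w) = z
      rw [hwz, hFf z hz]
  · intro i ε hε
    set K : Set ℂ := f '' (closedBall 0 (1 - ε)) ∩ cj ⁻¹' (f '' (closedBall 0 (1 - ε))) with hK
    have hsubball : closedBall (0:ℂ) (1 - ε) ⊆ ball 0 1 := closedBall_subset_ball (by linarith)
    have hK1 : IsCompact (f '' (closedBall (0:ℂ) (1 - ε))) :=
      (isCompact_closedBall (0:ℂ) (1 - ε)).image_of_continuousOn (hf.continuousOn.mono hsubball)
    have hKc : IsCompact K := hK1.inter_right (hK1.isClosed.preimage cj.continuous)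
    have hKV : K ⊆ VV f := by
      intro w hw
      rw [mem_VV]
      exact ⟨image_mono hsubball hw.1, image_mono hsubball hw.2⟩
    obtain ⟨p, hp, hr, hip⟩ := i.2
    have hKi : IsCompact (K ∩ i.1) := by
      have h1 : K ∩ i.1 = K \ (VV f \ i.1) := by
        ext w
        constructor
        · rintro ⟨h1, h2⟩
          exact ⟨h1, fun h3 => h3.2 h2⟩
        · rintro ⟨h1, h2⟩
          refine ⟨h1, ?_⟩
          by_contra h3
          exact h2 ⟨hKV h1, h3⟩
      rw [h1, hip]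
      exact hKc.diff (isOpen_diff_comp hVo p)
    obtain ⟨g, hg, hgi, hgim, hgG, hGg, -⟩ :=
      Pool.Agent.Lib.Hurwitz.exists_inverse isOpen_ball (hGd i) (hGi i)
    rw [hGim i] at hg hgi hgim hGg
    have hgm : MapsTo g i.1 (ball 0 1) := by
      conv_rhs => rw [← hgim]
      exact mapsTo_image _ _
    have hLc : IsCompact (g '' (K ∩ i.1)) :=
      hKi.image_of_continuousOn (hg.continuousOn.mono inter_subset_right)
    have hLb : g '' (K ∩ i.1) ⊆ ball 0 1 := by
      rintro _ ⟨w, hw, rfl⟩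
      exact hgm hw.2
    obtain ⟨t, ht1, ht⟩ : ∃ t < 1, ∀ w ∈ g '' (K ∩ i.1), ‖w‖ ≤ t := by
      rcases (g '' (K ∩ i.1)).eq_empty_or_nonempty with h | h
      · exact ⟨0, one_pos, by rw [h]; simp⟩
      · obtain ⟨w, hw, hmax⟩ := hLc.exists_isMaxOn h continuous_norm.continuousOn
        exact ⟨‖w‖, by simpa using hLb hw, fun v hv => hmax hv⟩
    refine ⟨(t + 1) / 2, by linarith, ?_⟩
    intro z hz hz1
    have hzb : z ∈ ball (0:ℂ) 1 := by simpa using hz1
    by_contra hcon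
    push Not at hcon
    obtain ⟨ha, hb⟩ := hcon
    have hGz : G i z ∈ i.1 := by rw [← hGim i]; exact mem_image_of_mem _ hzb
    have hcz : (starRingEnd ℂ) z ∈ ball (0:ℂ) 1 := conj_mem_ball.2 hzb
    have hm1 : G i z ∈ f '' (closedBall 0 (1 - ε)) :=
      ⟨F (G i z), by rw [mem_closedBall_zero_iff]; exact ha.le, hfF _ (hmap i hzb)⟩
    have hm2 : (starRingEnd ℂ) (G i z) ∈ f '' (closedBall 0 (1 - ε)) := by
      rw [← hGc i z hzb]
      exact ⟨F (G i ((starRingEnd ℂ) z)), by rw [mem_closedBall_zero_iff]; exact hb.le,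
        hfF _ (hmap i hcz)⟩
    have hzm : z ∈ g '' (K ∩ i.1) := ⟨G i z, ⟨⟨hm1, hm2⟩, hGz⟩, hgG z hzb⟩
    have := ht z hzm
    linarith

end Pool.Agent.HaymanWu
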