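import Mathlib
import Pool.Agent.HaymanWu.Component

/-!
# Summation over the components
-/

open Set MeasureTheory Metric
open scoped ComplexConjugate ENNReal

namespace Pool.Agent.HaymanWu

/-- the line integral of `‖ψ'‖` -/
noncomputable def lineI (ψ : ℂ → ℂ) (τ : ℝ) : ℝ := ∫ x in (-τ)..τ, ‖deriv ψ (x:ℂ)‖

theorem lineI_nonneg {ψ : ℂ → ℂ} {τ : ℝ} (hτ : 0 ≤ τ) : 0 ≤ lineI ψ τ :=
  intervalIntegral.integral_nonneg (by linarith) (fun _ _ => norm_nonneg _)

theorem lineI_mono {ψ : ℂ → ℂ} (hd : DifferentiableOn ℂ ψ (ball 0 1)) {τ τ' : ℝ}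
    (h0 : 0 ≤ τ) (h : τ ≤ τ') (h1 : τ' < 1) : lineI ψ τ ≤ lineI ψ τ' := by
  unfold lineI
  refine intervalIntegral.integral_mono_interval (by linarith) (by linarith) h
    (Filter.Eventually.of_forall fun _ => norm_nonneg _) ?_
  refine ContinuousOn.intervalIntegrable ?_
  rw [uIcc_of_le (by linarith)]
  exact (continuousOn_deriv_line hd h1).norm

theorem volume_annulus {r : ℝ} (hr0 : 0 ≤ r) (hr1 : r ≤ 1) :
    volume {w : ℂ | w ∈ ball (0:ℂ) 1 ∧ r < ‖w‖} = ENNReal.ofReal (Real.pi * (1 - r ^ 2)) := by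
  have e : {w : ℂ | w ∈ ball (0:ℂ) 1 ∧ r < ‖w‖} = ball 0 1 \ closedBall 0 r := by
    ext w; simp
  rcases hr1.eq_or_lt with h | h
  · subst h
    rw [e]
    have : ball (0:ℂ) 1 \ closedBall 0 1 = ∅ := by
      rw [diff_eq_empty]; exact ball_subset_closedBall
    rw [this]; simp
  rw [e, measure_diff (closedBall_subset_ball h) measurableSet_closedBall.nullMeasurableSet
    (by rw [Complex.volume_closedBall]; finiteness), Complex.volume_ball, Complex.volume_closedBall]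
  have e1 : (NNReal.pi : ℝ≥0∞) = ENNReal.ofReal Real.pi := by
    rw [ENNReal.ofReal, ← NNReal.coe_real_pi, Real.toNNReal_coe]
  rw [e1, ← ENNReal.ofReal_pow (by norm_num), ← ENNReal.ofReal_pow hr0,
    ← ENNReal.ofReal_mul (by norm_num), ← ENNReal.ofReal_mul (by positivity),
    ← ENNReal.ofReal_sub _ (by positivity)]
  congr 1
  ring

section

variable {ι : Type*} {ψ : ι → ℂ → ℂ}

/-- the family of maps coming from the symmetric components -/
structure IsFamily (ψ : ι → ℂ → ℂ) : Prop where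
  diff : ∀ i, DifferentiableOn ℂ (ψ i) (ball 0 1)
  inj : ∀ i, InjOn (ψ i) (ball 0 1)
  maps : ∀ i, MapsTo (ψ i) (ball 0 1) (ball 0 1)
  disj : Pairwise fun i j => Disjoint (ψ i '' ball 0 1) (ψ j '' ball 0 1)
  bdry : ∀ i, ∀ ε > 0, ∃ t0 < 1, ∀ z : ℂ, t0 ≤ ‖z‖ → ‖z‖ < 1 →
    1 - ε ≤ ‖ψ i z‖ ∨ 1 - ε ≤ ‖ψ i ((starRingEnd ℂ) z)‖

theorem sum_lineI_le_aux (hψ : IsFamily ψ) (s : Finset ι) {τ : ℝ} (hτ0 : 0 < τ) (hτ1 : τ < 1) :
    ∑ i ∈ s, lineI (ψ i) τ ≤ 4 * Real.pi ^ 2 / (1 + τ) ^ 2 := by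
  have hpi := Real.pi_pos
  choose r0 hr0 hr0n hbound using fun i => component_bound (hψ.diff i) (hψ.inj i) (hψ.maps i)
    (hψ.bdry i) hτ0 hτ1
  -- a common level
  obtain ⟨ρ, hρ1, hρ⟩ : ∃ ρ < 1, ∀ i ∈ s, r0 i ≤ ρ := by
    induction s using Finset.cons_induction with
    | empty => exact ⟨0, by norm_num, by simp⟩
    | cons a s has ih =>
      obtain ⟨ρ, h1, h2⟩ := ih
      refine ⟨max ρ (r0 a), max_lt h1 (hr0 a), fun i hi => ?_⟩
      rcases Finset.mem_cons.mp hi with h | h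
      · subst h; exact le_max_right _ _
      · exact (h2 i h).trans (le_max_left _ _)
  have key : ∀ r ∈ Ioo (max ρ 0) 1, ∑ i ∈ s, lineI (ψ i) τ ≤
      2 * Real.pi ^ 2 * (1 + r) / (r * (1 + τ) ^ 2) := by
    intro r hr
    have hrρ : ρ < r := lt_of_le_of_lt (le_max_left _ _) hr.1
    have hr00 : 0 < r := lt_of_le_of_lt (le_max_right _ _) hr.1
    have hr1 : r < 1 := hr.2
    set S : ι → Set ℂ := fun i => {z | z ∈ ball (0:ℂ) 1 ∧ r < ‖ψ i z‖} with hS
    have hSo : ∀ i, IsOpen (S i) := by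
      intro i
      have : S i = ball (0:ℂ) 1 ∩ (fun z => ‖ψ i z‖) ⁻¹' (Ioi r) := rfl
      rw [this]
      exact (hψ.diff i).continuousOn.norm.isOpen_inter_preimage isOpen_ball isOpen_Ioi
    have hSU : ∀ i, S i ⊆ ball 0 1 := fun i z hz => hz.1
    have himgo : ∀ i, IsOpen (ψ i '' S i) := fun i =>
      Pool.Agent.Lib.Hurwitz.isOpen_image_of_injOn (hSo i) ((hψ.diff i).mono (hSU i))
        ((hψ.inj i).mono (hSU i))
    have h1 : ∑ i ∈ s, volume (ψ i '' S i) = volume (⋃ i ∈ s, ψ i '' S i) := by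
      rw [measure_biUnion_finset]
      · intro i _ j _ hij
        exact (hψ.disj hij).mono (image_mono (hSU i)) (image_mono (hSU j))
      · intro i _
        exact (himgo i).measurableSet
    have h2 : volume (⋃ i ∈ s, ψ i '' S i) ≤ ENNReal.ofReal (Real.pi * (1 - r ^ 2)) := by
      rw [← volume_annulus hr00.le hr1.le]
      refine measure_mono ?_
      refine iUnion₂_subset (fun i _ => ?_)
      rintro _ ⟨z, hz, rfl⟩
      exact ⟨hψ.maps i hz.1, hz.2⟩
    have h3 : ∑ i ∈ s, ENNReal.ofReal (lineI (ψ i) τ * ((1 + τ) ^ 2 / (2 * Real.pi)) *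
        (r * (1 - r))) ≤ ENNReal.ofReal (Real.pi * (1 - r ^ 2)) := by
      refine le_trans (Finset.sum_le_sum fun i hi => ?_) (h1.trans_le h2)
      exact hbound i r (lt_of_le_of_lt (hρ i hi) hrρ) hr1
    have hfac : 0 ≤ r * (1 - r) := mul_nonneg hr00.le (by linarith)
    rw [← ENNReal.ofReal_sum_of_nonneg, ENNReal.ofReal_le_ofReal_iff] at h3
    · rw [← Finset.sum_mul, ← Finset.sum_mul] at h3
      rw [le_div_iff₀ (by positivity)]
      have h4 : (∑ i ∈ s, lineI (ψ i) τ) * ((1 + τ) ^ 2 / (2 * Real.pi)) * r ≤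
          Real.pi * (1 + r) := by
        have h5 : (∑ i ∈ s, lineI (ψ i) τ) * ((1 + τ) ^ 2 / (2 * Real.pi)) * r * (1 - r) ≤
          Real.pi * (1 + r) * (1 - r) := by nlinarith
        exact le_of_mul_le_mul_right h5 (by linarith)
      have h6 : (∑ i ∈ s, lineI (ψ i) τ) * (r * (1 + τ) ^ 2) =
          (2 * Real.pi) * ((∑ i ∈ s, lineI (ψ i) τ) * ((1 + τ) ^ 2 / (2 * Real.pi)) * r) := by
        field_simp
      rw [h6]
      nlinarith
    · apply mul_nonneg hpi.le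
      nlinarith
    · intro i _
      exact mul_nonneg (mul_nonneg (lineI_nonneg hτ0.le) (by positivity)) hfac
  have hlim : Filter.Tendsto (fun r : ℝ => 2 * Real.pi ^ 2 * (1 + r) / (r * (1 + τ) ^ 2))
      (nhdsWithin 1 (Iio 1)) (nhds (4 * Real.pi ^ 2 / (1 + τ) ^ 2)) := by
    have hc : ContinuousAt (fun r : ℝ => 2 * Real.pi ^ 2 * (1 + r) / (r * (1 + τ) ^ 2)) 1 := by
      refine ContinuousAt.div (by fun_prop) (by fun_prop) (by positivity)
    have := hc.tendsto.mono_left (nhdsWithin_le_nhds (s := Iio 1))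
    convert this using 2
    ring
  refine ge_of_tendsto hlim ?_
  have hmem : Ioo (max ρ 0) 1 ∈ nhdsWithin (1:ℝ) (Iio 1) :=
    Ioo_mem_nhdsLT (by simpa using hρ1)
  filter_upwards [hmem] with r hr using key r hr

theorem sum_lineI_le (hψ : IsFamily ψ) (s : Finset ι) {τ : ℝ} (hτ0 : 0 < τ) (hτ1 : τ < 1) :
    ∑ i ∈ s, lineI (ψ i) τ ≤ Real.pi ^ 2 := by
  have hlim : Filter.Tendsto (fun τ' : ℝ => 4 * Real.pi ^ 2 / (1 + τ') ^ 2)
      (nhdsWithin 1 (Iio 1)) (nhds (Real.pi ^ 2)) := by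
    have hc : ContinuousAt (fun τ' : ℝ => 4 * Real.pi ^ 2 / (1 + τ') ^ 2) 1 := by
      refine ContinuousAt.div (by fun_prop) (by fun_prop) (by positivity)
    have := hc.tendsto.mono_left (nhdsWithin_le_nhds (s := Iio 1))
    convert this using 2
    ring
  refine ge_of_tendsto hlim ?_
  filter_upwards [Ioo_mem_nhdsLT hτ1] with τ' hτ'
  refine le_trans (Finset.sum_le_sum fun i _ => ?_)
    (sum_lineI_le_aux hψ s (hτ0.trans hτ'.1) hτ'.2)
  exact lineI_mono (hψ.diff i) hτ0.le hτ'.1.le hτ'.2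

theorem hausdorff_family_le [Countable ι] (hψ : IsFamily ψ)
    (hlen : ∀ i, ∀ τ, 0 < τ → τ < 1 →
      μH[1] (ψ i '' ((fun x : ℝ => (x:ℂ)) '' Icc (-τ) τ)) ≤ ENNReal.ofReal (lineI (ψ i) τ)) :
    μH[1] (⋃ i, ψ i '' ((fun x : ℝ => (x:ℂ)) '' Ioo (-1) 1)) ≤ ENNReal.ofReal (Real.pi ^ 2) := by
  set τ : ℕ → ℝ := fun n => 1 - 1 / ((n:ℝ) + 2) with hτ
  have hτ0 : ∀ n, 0 < τ n := by
    intro n
    have h2 : (0:ℝ) < (n:ℝ) + 2 := by positivity
    have : 1 / ((n:ℝ) + 2) < 1 := by rw [div_lt_one h2]; linarith [(n.cast_nonneg : (0:ℝ) ≤ n)]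
    simp only [hτ]; linarith
  have hτ1 : ∀ n, τ n < 1 := by
    intro n
    have : 0 < 1 / ((n:ℝ) + 2) := by positivity
    simp only [hτ]; linarith
  have hτm : Monotone τ := by
    intro n m hnm
    have h1 : (n:ℝ) ≤ m := by exact_mod_cast hnm
    have : 1 / ((m:ℝ) + 2) ≤ 1 / ((n:ℝ) + 2) :=
      one_div_le_one_div_of_le (by positivity) (by linarith)
    simp only [hτ]; linarith
  have hcover : Ioo (-1:ℝ) 1 = ⋃ n, Icc (-τ n) (τ n) := by
    ext x
    simp only [mem_iUnion, mem_Icc, mem_Ioo]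
    constructor
    · intro hx
      have habs : |x| < 1 := abs_lt.mpr hx
      obtain ⟨n, hn⟩ := exists_nat_gt (1 / (1 - |x|))
      have h1 : 0 < 1 - |x| := by linarith
      refine ⟨n, abs_le.mp ?_⟩
      have h2 : (0:ℝ) < (n:ℝ) + 2 := by positivity
      have h3 : 1 / ((n:ℝ) + 2) ≤ 1 - |x| := by
        rw [div_le_iff₀ h2]
        rw [div_lt_iff₀ h1] at hn
        nlinarith
      simp only [hτ]; linarith
    · rintro ⟨n, hn⟩
      exact ⟨by linarith [hn.1, hτ1 n], by linarith [hn.2, hτ1 n]⟩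
  have h1 : ∀ i, μH[1] (ψ i '' ((fun x : ℝ => (x:ℂ)) '' Ioo (-1) 1)) ≤
      ⨆ n, ENNReal.ofReal (lineI (ψ i) (τ n)) := by
    intro i
    rw [hcover, image_iUnion, image_iUnion, Monotone.measure_iUnion]
    · exact iSup_mono fun n => hlen i (τ n) (hτ0 n) (hτ1 n)
    · intro n m hnm
      apply image_mono
      apply image_mono
      exact Icc_subset_Icc (by linarith [hτm hnm]) (hτm hnm)
  refine (measure_iUnion_le _).trans ((ENNReal.tsum_le_tsum h1).trans ?_)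
  rw [ENNReal.tsum_eq_iSup_sum]
  refine iSup_le fun s => ?_
  have hmono : ∀ i, Monotone fun n => ENNReal.ofReal (lineI (ψ i) (τ n)) := by
    intro i n m hnm
    exact ENNReal.ofReal_le_ofReal (lineI_mono (hψ.diff i) (hτ0 n).le (hτm hnm) (hτ1 m))
  rw [ENNReal.finsetSum_iSup_of_monotone hmono]
  refine iSup_le fun n => ?_
  rw [← ENNReal.ofReal_sum_of_nonneg (fun i _ => lineI_nonneg (hτ0 n).le)]
  exact ENNReal.ofReal_le_ofReal (sum_lineI_le hψ s (hτ0 n) (hτ1 n))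

end

end Pool.Agent.HaymanWu
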