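import Mathlib
import Pool.Agent.HaymanWu.Sum
import Pool.Agent.HaymanWu.Setup
import Pool.Agent.HaymanWu.Length

/-!
# The upper bound in the Hayman–Wu problem
-/

open Set MeasureTheory Metric
open scoped ComplexConjugate ENNReal

namespace Pool.Agent.HaymanWu

theorem upper_real {f : ℂ → ℂ} (hf : DifferentiableOn ℂ f (ball 0 1))
    (hinj : InjOn f (ball 0 1)) :
    μH[1] {z : ℂ | z ∈ ball (0:ℂ) 1 ∧ (f z).im = 0} ≤ ENNReal.ofReal (Real.pi ^ 2) := by
  obtain ⟨ι, hι, ψ, h1, h2, h3, h4, h5, h6⟩ := exists_symmetric_family hf hinj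
  have hfam : IsFamily ψ := ⟨h1, h2, h3, h4, h6⟩
  refine (measure_mono h5).trans (hausdorff_family_le hfam ?_)
  intro i τ hτ0 hτ1
  have hmem : ∀ x ∈ Icc (-τ) τ, (x:ℂ) ∈ ball (0:ℂ) 1 := by
    intro x hx
    rw [mem_ball_zero_iff, Complex.norm_real, Real.norm_eq_abs]
    exact lt_of_le_of_lt (abs_le.mpr ⟨hx.1, hx.2⟩) hτ1
  rw [← image_comp]
  refine hausdorff_image_le (f' := fun x : ℝ => deriv (ψ i) (x:ℂ)) (by linarith) ?_
    (continuousOn_deriv_line (h1 i) hτ1)
  intro x hx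
  have hd : HasDerivAt (ψ i) (deriv (ψ i) (x:ℂ)) (x:ℂ) :=
    ((h1 i).differentiableAt (isOpen_ball.mem_nhds (hmem x hx))).hasDerivAt
  exact hd.comp_ofReal.hasDerivWithinAt

/-- the length of the preimage of a line under an injective holomorphic map of the unit disc
is at most `π²` -/
theorem upper_line {f : ℂ → ℂ} (hf : DifferentiableOn ℂ f (ball 0 1))
    (hinj : InjOn f (ball 0 1)) (a b : ℂ) (hb : b ≠ 0) :
    μH[1] {z ∈ ball (0:ℂ) 1 | ∃ t : ℝ, f z = a + (t:ℂ) * b} ≤ ENNReal.ofReal (Real.pi ^ 2) := by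
  have hg : DifferentiableOn ℂ (fun z => (f z - a) / b) (ball 0 1) :=
    (hf.sub_const a).div_const b
  have hgi : InjOn (fun z => (f z - a) / b) (ball 0 1) := by
    intro x hx y hy hxy
    refine hinj hx hy ?_
    have h1 : (f x - a) / b = (f y - a) / b := hxy
    rw [div_left_inj' hb] at h1
    linear_combination h1
  refine le_trans (measure_mono ?_) (upper_real hg hgi)
  rintro z ⟨hz, t, ht⟩
  refine ⟨hz, ?_⟩
  have : (f z - a) / b = (t:ℂ) := by
    rw [ht]; field_simp; ring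
  rw [this, Complex.ofReal_im]

end Pool.Agent.HaymanWu
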