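import Mathlib
import Pool.Agent.HaymanWu.Upper

/-!
# Assembly of the Hayman–Wu constant from the upper bound and the extremal examples
-/

open Set MeasureTheory Metric
open scoped ENNReal

namespace Pool.Agent.HaymanWu

theorem isLeast_of_lower
    (hlow : ∀ ε > 0, ∃ f : ℂ → ℂ, DifferentiableOn ℂ f (ball 0 1) ∧ InjOn f (ball 0 1) ∧
      ENNReal.ofReal (Real.pi ^ 2 - ε) ≤ μH[1] {z : ℂ | z ∈ ball (0:ℂ) 1 ∧ (f z).im = 0}) :
    IsLeast
      {C : ENNReal | ∀ f : ℂ → ℂ, DifferentiableOn ℂ f (Metric.ball (0:ℂ) 1) →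
        Set.InjOn f (Metric.ball (0:ℂ) 1) → ∀ a b : ℂ, b ≠ 0 →
          MeasureTheory.Measure.hausdorffMeasure 1
            {z ∈ Metric.ball (0:ℂ) 1 | ∃ t : ℝ, f z = a + (t : ℂ) * b} ≤ C}
      (ENNReal.ofReal (Real.pi ^ 2)) := by
  refine ⟨fun f hf hinj a b hb => upper_line hf hinj a b hb, fun C hC => ?_⟩
  have h1 : ∀ ε > 0, ENNReal.ofReal (Real.pi ^ 2 - ε) ≤ C := by
    intro ε hε
    obtain ⟨f, hf, hinj, hl⟩ := hlow ε hε
    refine (hl.trans (measure_mono ?_)).trans (hC f hf hinj 0 1 one_ne_zero)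
    rintro z ⟨hz, him⟩
    refine ⟨hz, (f z).re, ?_⟩
    apply Complex.ext <;> simp [him]
  by_cases htop : C = ⊤
  · rw [htop]; exact le_top
  · rw [ENNReal.ofReal_le_iff_le_toReal htop]
    refine le_of_forall_pos_le_add (fun ε hε => ?_)
    have := h1 ε hε
    rw [ENNReal.ofReal_le_iff_le_toReal htop] at this
    linarith

end Pool.Agent.HaymanWu
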