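import Mathlib

/-!
# Hayman–Wu lower bound: the function `Λ(φ) = log (cos ((φ-α)/2) / cos ((φ+α)/2))`
-/

open Complex Set

noncomputable section

namespace Pool.Agent.HaymanWu.Lower

/-- `1 + exp (i ψ)` avoids the slit. -/
lemma one_add_exp_mem {ψ : ℂ} (h : 0 < ψ.im ∨ Real.cos (ψ.re / 2) ≠ 0) :
    1 + Complex.exp (I * ψ) ∈ Complex.slitPlane := by
  have hre : (1 + Complex.exp (I * ψ)).re = 1 + Real.exp (-ψ.im) * Real.cos ψ.re := by
    simp [Complex.exp_re]
  have him : (1 + Complex.exp (I * ψ)).im = Real.exp (-ψ.im) * Real.sin ψ.re := by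
    simp [Complex.exp_im]
  rw [Complex.mem_slitPlane_iff, hre, him]
  rcases h with h | h
  · left
    have h1 : Real.exp (-ψ.im) < 1 := by
      rw [← Real.exp_zero]; exact Real.exp_lt_exp.2 (by linarith)
    have h2 := Real.neg_one_le_cos ψ.re
    have h3 := Real.exp_pos (-ψ.im)
    nlinarith
  · by_cases hs : Real.sin ψ.re = 0
    · left
      have h1 : Real.sin ψ.re = 2 * Real.sin (ψ.re / 2) * Real.cos (ψ.re / 2) := by
        rw [← Real.sin_two_mul]; congr 1; ring
      rw [hs] at h1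
      have h2 : Real.sin (ψ.re / 2) = 0 := by
        rcases mul_eq_zero.1 h1.symm with h3 | h3
        · linarith
        · exact absurd h3 h
      have h3 : Real.cos ψ.re = 1 - 2 * Real.sin (ψ.re / 2) ^ 2 := by
        have := Real.cos_two_mul (ψ.re / 2)
        rw [Real.cos_sq'] at this
        rw [show ψ.re = 2 * (ψ.re / 2) by ring, this]
        ring_nf
      rw [h3, h2]
      have := Real.exp_pos (-ψ.im)
      norm_num
      positivity
    · right
      exact mul_ne_zero (Real.exp_pos _).ne' hs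

/-- The logarithm of `cos ((φ-α)/2) / cos ((φ+α)/2)`. -/
def Lam (α : ℝ) (φ : ℂ) : ℂ :=
  I * α + Complex.log (1 + Complex.exp (I * (φ - α))) - Complex.log (1 + Complex.exp (I * (φ + α)))

/-- The domain of `Lam`. -/
def V (α : ℝ) : Set ℂ := {φ | 1 + Complex.exp (I * (φ - α)) ∈ Complex.slitPlane ∧
  1 + Complex.exp (I * (φ + α)) ∈ Complex.slitPlane}

lemma isOpen_V (α : ℝ) : IsOpen (V α) := by
  unfold V
  apply IsOpen.inter
  · exact Complex.isOpen_slitPlane.preimage (by fun_prop)
  · exact Complex.isOpen_slitPlane.preimage (by fun_prop)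

lemma mem_V_of_im_pos {α : ℝ} {φ : ℂ} (h : 0 < φ.im) : φ ∈ V α :=
  ⟨one_add_exp_mem (Or.inl (by simpa using h)), one_add_exp_mem (Or.inl (by simpa using h))⟩

lemma mem_V_of_cos {α : ℝ} {φ : ℂ} (h1 : Real.cos ((φ.re - α) / 2) ≠ 0)
    (h2 : Real.cos ((φ.re + α) / 2) ≠ 0) : φ ∈ V α :=
  ⟨one_add_exp_mem (Or.inr (by simpa using h1)), one_add_exp_mem (Or.inr (by simpa using h2))⟩

lemma Lam_add_two_pi (α : ℝ) (φ : ℂ) : Lam α (φ + 2 * Real.pi) = Lam α φ := by
  unfold Lam
  have h1 : Complex.exp (I * (φ + 2 * Real.pi - α)) = Complex.exp (I * (φ - α)) := by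
    rw [show I * (φ + 2 * Real.pi - α) = I * (φ - α) + 2 * Real.pi * I by ring]
    exact Complex.exp_periodic _
  have h2 : Complex.exp (I * (φ + 2 * Real.pi + α)) = Complex.exp (I * (φ + α)) := by
    rw [show I * (φ + 2 * Real.pi + α) = I * (φ + α) + 2 * Real.pi * I by ring]
    exact Complex.exp_periodic _
  rw [h1, h2]

lemma V_add_two_pi {α : ℝ} {φ : ℂ} (h : φ ∈ V α) : φ + 2 * Real.pi ∈ V α := by
  have h1 : Complex.exp (I * (φ + 2 * Real.pi - α)) = Complex.exp (I * (φ - α)) := by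
    rw [show I * (φ + 2 * Real.pi - α) = I * (φ - α) + 2 * Real.pi * I by ring]
    exact Complex.exp_periodic _
  have h2 : Complex.exp (I * (φ + 2 * Real.pi + α)) = Complex.exp (I * (φ + α)) := by
    rw [show I * (φ + 2 * Real.pi + α) = I * (φ + α) + 2 * Real.pi * I by ring]
    exact Complex.exp_periodic _
  unfold V at h ⊢
  rw [mem_ofPred_eq, h1, h2]
  exact h

lemma Lam_hasDerivAt {α : ℝ} {φ : ℂ} (h : φ ∈ V α) :
    HasDerivAt (Lam α) (Complex.sin α / (Complex.cos φ + Complex.cos α)) φ := by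
  have h1 : HasDerivAt (fun φ : ℂ => I * (φ - α)) I φ := by
    simpa using ((hasDerivAt_id φ).sub_const (α : ℂ)).const_mul I
  have h2 : HasDerivAt (fun φ : ℂ => I * (φ + α)) I φ := by
    simpa using ((hasDerivAt_id φ).add_const (α : ℂ)).const_mul I
  have h3 := (h1.cexp.const_add 1).clog h.1
  have h4 := (h2.cexp.const_add 1).clog h.2
  have h5 := (h3.const_add (I * α)).sub h4
  have hne1 := Complex.slitPlane_ne_zero h.1
  have hne2 := Complex.slitPlane_ne_zero h.2
  refine h5.congr_deriv ?_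
  rw [Complex.sin, Complex.cos, Complex.cos]
  have e1 : Complex.exp (I * (φ - α)) = Complex.exp (φ * I) * Complex.exp (-α * I) := by
    rw [← Complex.exp_add]; congr 1; ring
  have e2 : Complex.exp (I * (φ + α)) = Complex.exp (φ * I) * Complex.exp (α * I) := by
    rw [← Complex.exp_add]; congr 1; ring
  rw [e1] at hne1
  rw [e2] at hne2
  rw [e1, e2]
  have e3 : Complex.exp (-α * I) = (Complex.exp (α * I))⁻¹ := by
    rw [← Complex.exp_neg]; congr 1; ring
  have e4 : Complex.exp (-φ * I) = (Complex.exp (φ * I))⁻¹ := by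
    rw [← Complex.exp_neg]; congr 1; ring
  rw [e3] at hne1 ⊢
  rw [e4]
  have hX : Complex.exp (φ * I) ≠ 0 := Complex.exp_ne_zero _
  have hA : Complex.exp (α * I) ≠ 0 := Complex.exp_ne_zero _
  set X := Complex.exp (φ * I)
  set A := Complex.exp (α * I)
  have hne3 : A + X ≠ 0 := by
    intro h0
    apply hne1
    field_simp
    rw [h0, mul_zero]
  have hden : (X + X⁻¹) / 2 + (A + A⁻¹) / 2 = (X + A) * (1 + X * A) / (2 * X * A) := by
    field_simp
    ring
  rw [hden]
  have hne3' : X + A ≠ 0 := by rwa [add_comm]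
  have e5 : 1 + X * A⁻¹ = (A + X) / A := by field_simp
  rw [e5]
  field_simp
  ring_nf

lemma exp_Lam_mul {α : ℝ} {φ : ℂ} (h : φ ∈ V α) :
    Complex.exp (Lam α φ) * (1 + Complex.exp (I * φ) * Complex.exp (I * α)) =
      Complex.exp (I * α) + Complex.exp (I * φ) := by
  have hne1 := Complex.slitPlane_ne_zero h.1
  have hne2 := Complex.slitPlane_ne_zero h.2
  unfold Lam
  rw [Complex.exp_sub, Complex.exp_add, Complex.exp_log hne1, Complex.exp_log hne2]
  have e1 : Complex.exp (I * (φ - α)) = Complex.exp (I * φ) * (Complex.exp (I * α))⁻¹ := by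
    rw [← Complex.exp_neg, ← Complex.exp_add]; congr 1; ring
  have e2 : Complex.exp (I * (φ + α)) = Complex.exp (I * φ) * Complex.exp (I * α) := by
    rw [← Complex.exp_add]; congr 1; ring
  rw [e2] at hne2
  rw [e1, e2]
  have hA : Complex.exp (I * α) ≠ 0 := Complex.exp_ne_zero _
  rw [div_mul_cancel₀ _ hne2]
  field_simp

/-- Polar form of `exp (Lam α φ)`. -/
lemma Lam_polar {α : ℝ} {φ : ℂ} (h : φ ∈ V α) :
    ∃ c : ℝ, 0 < c ∧
      Real.cos (Lam α φ).im = c * (Real.cosh φ.im * Real.cos α + Real.cos φ.re) ∧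
      Real.sin (Lam α φ).im = c * (Real.sin α * Real.sinh φ.im) := by
  have hne2 := Complex.slitPlane_ne_zero h.2
  have e2 : Complex.exp (I * (φ + α)) = Complex.exp (I * φ) * Complex.exp (I * α) := by
    rw [← Complex.exp_add]; congr 1; ring
  rw [e2] at hne2
  have key := exp_Lam_mul h
  set D := 1 + Complex.exp (I * φ) * Complex.exp (I * α) with hD
  have hnD : 0 < Complex.normSq D := Complex.normSq_pos.2 hne2
  have key2 : Complex.exp (Lam α φ) * (Complex.normSq D : ℂ) =
      (Complex.exp (I * α) + Complex.exp (I * φ)) * (starRingEnd ℂ) D := by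
    rw [← Complex.mul_conj, ← mul_assoc, key]
  have hre := congrArg Complex.re key2
  have him := congrArg Complex.im key2
  simp only [Complex.mul_re, Complex.mul_im, Complex.ofReal_re, Complex.ofReal_im, mul_zero,
    sub_zero, Complex.exp_re, Complex.exp_im, Complex.conj_re, Complex.conj_im, hD,
    Complex.add_re, Complex.add_im, Complex.one_re, Complex.one_im, Complex.I_re, Complex.I_im,
    zero_mul, one_mul, zero_sub, zero_add, Real.exp_zero] at hre him
  have hy : Real.exp (-φ.im) * Real.exp φ.im = 1 := by rw [← Real.exp_add]; simp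
  have hy' : 0 < Real.exp (-φ.im) := Real.exp_pos _
  have hL : 0 < Real.exp (Lam α φ).re := Real.exp_pos _
  refine ⟨2 * Real.exp (-φ.im) / (Real.exp (Lam α φ).re * Complex.normSq D), by positivity, ?_, ?_⟩
  · have h1 : Real.cos (Lam α φ).im = Real.exp (Lam α φ).re * Real.cos (Lam α φ).im *
        Complex.normSq D / (Real.exp (Lam α φ).re * Complex.normSq D) := by
      field_simp
    rw [h1, hD, hre, ← hD, div_mul_eq_mul_div]
    congr 1
    rw [Real.cosh_eq]
    have s1 := Real.sin_sq_add_cos_sq α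
    have s2 := Real.sin_sq_add_cos_sq φ.re
    linear_combination
      (Real.exp (-φ.im) * Real.cos φ.re) * s1 + (Real.exp (-φ.im) ^ 2 * Real.cos α) * s2 -
      Real.cos α * hy
  · have h1 : Real.sin (Lam α φ).im = Real.exp (Lam α φ).re * Real.sin (Lam α φ).im *
        Complex.normSq D / (Real.exp (Lam α φ).re * Complex.normSq D) := by
      field_simp
    rw [h1, hD, him, ← hD, div_mul_eq_mul_div]
    congr 1
    rw [Real.sinh_eq]
    have s1 := Real.sin_sq_add_cos_sq α
    have s2 := Real.sin_sq_add_cos_sq φ.re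
    linear_combination (-Real.exp (-φ.im) * Real.sin φ.re) * s1 -
      (Real.exp (-φ.im) ^ 2 * Real.sin α) * s2 - Real.sin α * hy


lemma re_one_add_exp_pos {ψ : ℂ} (h0 : 0 ≤ ψ.im) (h : 1 + Complex.exp (I * ψ) ∈ Complex.slitPlane) :
    0 < (1 + Complex.exp (I * ψ)).re := by
  have hre : (1 + Complex.exp (I * ψ)).re = 1 + Real.exp (-ψ.im) * Real.cos ψ.re := by
    simp [Complex.exp_re]
  have him : (1 + Complex.exp (I * ψ)).im = Real.exp (-ψ.im) * Real.sin ψ.re := by
    simp [Complex.exp_im]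
  have h1 : Real.exp (-ψ.im) ≤ 1 := by
    rw [← Real.exp_zero]; exact Real.exp_le_exp.2 (by linarith)
  have h2 := Real.neg_one_le_cos ψ.re
  have h3 := Real.exp_pos (-ψ.im)
  rw [Complex.mem_slitPlane_iff] at h
  rcases h with h | h
  · exact h
  · rw [hre]
    rw [him] at h
    have h4 : Real.sin ψ.re ≠ 0 := fun hh => h (by rw [hh, mul_zero])
    have h5 := Real.sin_sq_add_cos_sq ψ.re
    have h6 : -1 < Real.cos ψ.re := by
      have : 0 < Real.sin ψ.re ^ 2 := by positivity
      nlinarith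
    nlinarith

lemma Lam_im (α : ℝ) (φ : ℂ) : (Lam α φ).im = α + Complex.arg (1 + Complex.exp (I * (φ - α))) -
    Complex.arg (1 + Complex.exp (I * (φ + α))) := by
  simp [Lam, Complex.log_im]

lemma Lam_im_range {α : ℝ} {φ : ℂ} (h : φ ∈ V α) (h0 : 0 ≤ φ.im) :
    α - Real.pi < (Lam α φ).im ∧ (Lam α φ).im < α + Real.pi := by
  have h1 := re_one_add_exp_pos (ψ := φ - α) (by simpa using h0) h.1
  have h2 := re_one_add_exp_pos (ψ := φ + α) (by simpa using h0) h.2
  have h3 := (Complex.abs_arg_lt_pi_div_two_iff.2 (Or.inl h1))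
  have h4 := (Complex.abs_arg_lt_pi_div_two_iff.2 (Or.inl h2))
  rw [abs_lt] at h3 h4
  rw [Lam_im]
  constructor <;> linarith [h3.1, h3.2, h4.1, h4.2]

lemma Lam_im_mem {α : ℝ} (hα : 0 < α) (hα' : α < Real.pi) {φ : ℂ} (h0 : 0 < φ.im) :
    0 < (Lam α φ).im ∧ (Lam α φ).im < Real.pi := by
  have hV : φ ∈ V α := mem_V_of_im_pos h0
  obtain ⟨h1, h2⟩ := Lam_im_range hV h0.le
  obtain ⟨c, hc, -, hs⟩ := Lam_polar hV
  have hsin : 0 < Real.sin (Lam α φ).im := by
    rw [hs]
    have := Real.sin_pos_of_pos_of_lt_pi hα hα'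
    have := Real.sinh_pos_iff.2 h0
    positivity
  constructor
  · by_contra hcon
    push Not at hcon
    have := Real.sin_nonpos_of_nonpos_of_neg_pi_le hcon (by linarith)
    linarith
  · by_contra hcon
    push Not at hcon
    have h3 : 0 ≤ Real.sin ((Lam α φ).im - Real.pi) :=
      Real.sin_nonneg_of_nonneg_of_le_pi (by linarith) (by linarith)
    rw [Real.sin_sub_pi] at h3
    linarith

lemma Lam_im_real {α : ℝ} (hα : 0 < α) (hα' : α < Real.pi) {φ : ℂ} (hV : φ ∈ V α)
    (h0 : φ.im = 0) : (Lam α φ).im = 0 ∨ (Lam α φ).im = Real.pi := by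
  obtain ⟨h1, h2⟩ := Lam_im_range hV h0.ge
  obtain ⟨c, hc, -, hs⟩ := Lam_polar hV
  have hsin : Real.sin (Lam α φ).im = 0 := by rw [hs, h0]; simp
  rcases lt_or_ge (Lam α φ).im Real.pi with h | h
  · left
    exact (Real.sin_eq_zero_iff_of_lt_of_lt (by linarith) h).1 hsin
  · right
    have h3 : Real.sin ((Lam α φ).im - Real.pi) = 0 := by rw [Real.sin_sub_pi, hsin]; simp
    have := (Real.sin_eq_zero_iff_of_lt_of_lt (by linarith [Real.pi_pos]) (by linarith)).1 h3
    linarith

lemma Lam_im_real_zero {α : ℝ} (hα : 0 < α) (hα' : α < Real.pi) {φ : ℂ} (hV : φ ∈ V α)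
    (h0 : φ.im = 0) (hpos : 0 < Real.cos α + Real.cos φ.re) : (Lam α φ).im = 0 := by
  rcases Lam_im_real hα hα' hV h0 with h | h
  · exact h
  · exfalso
    obtain ⟨c, hc, hcos, -⟩ := Lam_polar hV
    rw [h, h0] at hcos
    simp only [Real.cos_pi, Real.cosh_zero, one_mul] at hcos
    have := mul_pos hc hpos
    linarith

/-- Elementary bound for the tangent away from its poles. -/
lemma tan_bound {a y σ : ℝ} (hσ : 0 ≤ σ)
    (h : ∀ j : ℤ, y ≤ σ * |a - (Real.pi / 2 + Real.pi * j)|) :
    y * |Real.sin a| ≤ σ * |Real.cos a| := by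
  have hpi := Real.pi_pos
  -- nearest pole
  obtain ⟨j, hj⟩ : ∃ j : ℤ, |a - (Real.pi / 2 + Real.pi * j)| ≤ Real.pi / 2 := by
    refine ⟨round ((a - Real.pi / 2) / Real.pi), ?_⟩
    have h1 := abs_sub_round ((a - Real.pi / 2) / Real.pi)
    have h2 : a - (Real.pi / 2 + Real.pi * (round ((a - Real.pi / 2) / Real.pi) : ℝ)) =
        Real.pi * ((a - Real.pi / 2) / Real.pi - (round ((a - Real.pi / 2) / Real.pi) : ℝ)) := by
      field_simp
      ring
    rw [h2, abs_mul, abs_of_pos hpi]
    nlinarith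
  set s := a - (Real.pi / 2 + Real.pi * j) with hs
  have ha : a = s + Real.pi / 2 + j * Real.pi := by rw [hs]; ring
  have hsin : |Real.sin a| = |Real.cos s| := by
    rw [ha, Real.sin_add_int_mul_pi, Real.sin_add_pi_div_two, abs_mul, abs_zpow, abs_neg, abs_one,
      one_zpow, one_mul]
  have hcos : |Real.cos a| = |Real.sin s| := by
    rw [ha, Real.cos_add_int_mul_pi, Real.cos_add_pi_div_two, abs_mul, abs_zpow, abs_neg, abs_one,
      one_zpow, one_mul, abs_neg]
  have hyj := h j
  rw [← hs] at hyj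
  rw [hsin, hcos]
  have key : |s| * |Real.cos s| ≤ |Real.sin s| := by
    rcases eq_or_lt_of_le hj with h1 | h1
    · have h2 : Real.cos s = 0 := by
        rw [← Real.cos_abs, h1, Real.cos_pi_div_two]
      rw [h2]; simp
    · rcases eq_or_ne s 0 with h2 | h2
      · rw [h2]; simp
      · have h3 : 0 < |s| := abs_pos.2 h2
        have h4 := Real.lt_tan h3 h1
        have h5 : 0 < Real.cos |s| := Real.cos_pos_of_mem_Ioo ⟨by linarith, h1⟩
        rw [Real.tan_eq_sin_div_cos, lt_div_iff₀ h5] at h4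
        have h6 : |Real.cos s| = Real.cos |s| := by
          rw [← Real.cos_abs, abs_of_pos h5]
        have h7 : |Real.sin s| = Real.sin |s| := by
          have : 0 ≤ Real.sin |s| := Real.sin_nonneg_of_nonneg_of_le_pi h3.le (by linarith)
          rcases abs_choice s with h8 | h8
          · rw [h8] at this ⊢; exact abs_of_nonneg this
          · rw [h8, Real.sin_neg] at this ⊢; rw [abs_of_nonpos (by linarith)]
        rw [h6, h7]
        linarith
  calc y * |Real.cos s| ≤ σ * |s| * |Real.cos s| :=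
        mul_le_mul_of_nonneg_right hyj (abs_nonneg _)
    _ = σ * (|s| * |Real.cos s|) := by ring
    _ ≤ σ * |Real.sin s| := mul_le_mul_of_nonneg_left key hσ


lemma cos_re' (z : ℂ) : (Complex.cos z).re = Real.cos z.re * Real.cosh z.im := by
  rw [Complex.cos_eq]
  simp [← Complex.ofReal_sin, ← Complex.ofReal_cos, ← Complex.ofReal_sinh, ← Complex.ofReal_cosh]

lemma abs_cos_re_le (z : ℂ) : |Real.cos z.re| ≤ ‖Complex.cos z‖ := by
  have h1 := Complex.abs_re_le_norm (Complex.cos z)
  rw [cos_re', abs_mul] at h1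
  have h2 : 1 ≤ |Real.cosh z.im| := by
    rw [abs_of_pos (Real.cosh_pos _)]; exact Real.one_le_cosh _
  nlinarith [abs_nonneg (Real.cos z.re)]

/-- Vertical estimate below the real axis. -/
lemma Lam_vertical {α σ : ℝ} (hα : 0 < α) (hα' : α < Real.pi) (hσ : 0 ≤ σ) {x y : ℝ} (hy : 0 ≤ y)
    (hc1 : Real.cos ((x - α) / 2) ≠ 0) (hc2 : Real.cos ((x + α) / 2) ≠ 0)
    (h1 : ∀ j : ℤ, y ≤ σ * |x - (Real.pi + α + 2 * Real.pi * j)|)
    (h2 : ∀ j : ℤ, y ≤ σ * |x - (Real.pi - α + 2 * Real.pi * j)|) :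
    ‖Lam α (x - y * I) - Lam α x‖ ≤ 2 * σ := by
  have hsin : 0 < Real.sin α := Real.sin_pos_of_pos_of_lt_pi hα hα'
  set a := (x - α) / 2 with ha
  set b := (x + α) / 2 with hb
  have hca : 0 < |Real.cos a| := abs_pos.2 hc1
  have hcb : 0 < |Real.cos b| := abs_pos.2 hc2
  have h3 := tan_bound (a := a) (y := y) (σ := 2 * σ) (by positivity) (by
    intro j
    have := h1 j
    have e : a - (Real.pi / 2 + Real.pi * j) = (x - (Real.pi + α + 2 * Real.pi * j)) / 2 := by
      rw [ha]; ring
    rw [e, abs_div, abs_two]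
    linarith)
  have h4 := tan_bound (a := b) (y := y) (σ := 2 * σ) (by positivity) (by
    intro j
    have := h2 j
    have e : b - (Real.pi / 2 + Real.pi * j) = (x - (Real.pi - α + 2 * Real.pi * j)) / 2 := by
      rw [hb]; ring
    rw [e, abs_div, abs_two]
    linarith)
  have h5 : y * Real.sin α ≤ 4 * σ * (|Real.cos a| * |Real.cos b|) := by
    have e : α = b - a := by rw [ha, hb]; ring
    have h6 : Real.sin α ≤ |Real.sin b| * |Real.cos a| + |Real.cos b| * |Real.sin a| := by
      conv_lhs => rw [e]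
      rw [Real.sin_sub]
      calc _ ≤ |Real.sin b * Real.cos a - Real.cos b * Real.sin a| := le_abs_self _
        _ ≤ |Real.sin b * Real.cos a| + |Real.cos b * Real.sin a| := abs_sub _ _
        _ = _ := by rw [abs_mul, abs_mul]
    calc y * Real.sin α ≤ y * (|Real.sin b| * |Real.cos a| + |Real.cos b| * |Real.sin a|) :=
          mul_le_mul_of_nonneg_left h6 hy
      _ = (y * |Real.sin b|) * |Real.cos a| + (y * |Real.sin a|) * |Real.cos b| := by ring
      _ ≤ (2 * σ * |Real.cos b|) * |Real.cos a| + (2 * σ * |Real.cos a|) * |Real.cos b| := by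
          gcongr
      _ = 4 * σ * (|Real.cos a| * |Real.cos b|) := by ring
  set C := Real.sin α / (2 * (|Real.cos a| * |Real.cos b|)) with hC
  -- the segment
  have hpt : ∀ w ∈ segment ℝ (x : ℂ) (x - y * I), w.re = x := by
    intro w hw
    obtain ⟨s, t, hs, ht, hst, rfl⟩ := hw
    simp
    rw [← add_mul, hst, one_mul]
  have hbound : ∀ w ∈ segment ℝ (x : ℂ) (x - y * I), ‖deriv (Lam α) w‖ ≤ C := by
    intro w hw
    have hre := hpt w hw
    have hV : w ∈ V α := mem_V_of_cos (by rw [hre]; exact hc1) (by rw [hre]; exact hc2)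
    rw [(Lam_hasDerivAt hV).deriv, norm_div]
    have e1 : Complex.cos w + Complex.cos α =
        2 * Complex.cos ((w + α) / 2) * Complex.cos ((w - α) / 2) := by
      rw [Complex.cos_add_cos]
    have e2 : |Real.cos b| ≤ ‖Complex.cos ((w + α) / 2)‖ := by
      have := abs_cos_re_le ((w + α) / 2)
      have e : ((w + α) / 2).re = b := by simp [hb, hre]
      rwa [e] at this
    have e3 : |Real.cos a| ≤ ‖Complex.cos ((w - α) / 2)‖ := by
      have := abs_cos_re_le ((w - α) / 2)
      have e : ((w - α) / 2).re = a := by simp [ha, hre]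
      rwa [e] at this
    have e4 : 2 * (|Real.cos a| * |Real.cos b|) ≤ ‖Complex.cos w + Complex.cos α‖ := by
      rw [e1, norm_mul, norm_mul, Complex.norm_two]
      calc 2 * (|Real.cos a| * |Real.cos b|) = 2 * |Real.cos b| * |Real.cos a| := by ring
        _ ≤ _ := by gcongr
    have e5 : ‖Complex.sin α‖ = Real.sin α := by
      rw [← Complex.ofReal_sin, Complex.norm_real, Real.norm_eq_abs, abs_of_pos hsin]
    rw [e5, hC]
    exact div_le_div_of_nonneg_left hsin.le (by positivity) e4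
  have hmv := (convex_segment (x : ℂ) (x - y * I)).norm_image_sub_le_of_norm_deriv_le
    (𝕜 := ℂ) (f := Lam α) (C := C) ?_ hbound (left_mem_segment ℝ _ _) (right_mem_segment ℝ _ _)
  · refine hmv.trans ?_
    have e1 : ‖((x : ℂ) - y * I) - x‖ = y := by
      have : ((x : ℂ) - y * I) - x = -(y * I) := by ring
      rw [this, norm_neg, norm_mul, Complex.norm_I, mul_one, Complex.norm_real,
        Real.norm_eq_abs, abs_of_nonneg hy]
    rw [e1, hC, div_mul_eq_mul_div, div_le_iff₀ (by positivity)]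
    linarith
  · intro w hw
    have hre := hpt w hw
    exact (Lam_hasDerivAt (mem_V_of_cos (by rw [hre]; exact hc1) (by rw [hre]; exact hc2))).differentiableAt

lemma Lam_lipschitz {α : ℝ} (hα : 0 < α) (hα' : α ≤ 1) {u v : ℂ} (hu : |u.re| ≤ 1)
    (hv : |v.re| ≤ 1) : ‖Lam α u - Lam α v‖ ≤ 2 * α * ‖u - v‖ := by
  have hpi := Real.pi_gt_three
  have hcos1 : (1 / 2 : ℝ) ≤ Real.cos 1 := by
    rw [← Real.cos_pi_div_three]
    apply Real.cos_le_cos_of_nonneg_of_le_pi (by norm_num) (by linarith)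
    linarith
  have hVmem : ∀ w : ℂ, |w.re| ≤ 1 → w ∈ V α := by
    intro w hw
    rw [abs_le] at hw
    apply mem_V_of_cos
    · exact (Real.cos_pos_of_mem_Ioo ⟨by linarith [hw.1], by linarith [hw.2]⟩).ne'
    · exact (Real.cos_pos_of_mem_Ioo ⟨by linarith [hw.1], by linarith [hw.2]⟩).ne'
  have hconv : Convex ℝ {u : ℂ | |u.re| ≤ 1} := by
    have : {u : ℂ | |u.re| ≤ 1} = Complex.reLm ⁻¹' Set.Icc (-1) 1 := by
      ext u; simp [abs_le]
    rw [this]
    exact (convex_Icc _ _).linear_preimage _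
  rw [norm_sub_rev, norm_sub_rev u v]
  refine hconv.norm_image_sub_le_of_norm_deriv_le (f := Lam α) ?_ ?_ hu hv
  · intro w hw
    exact (Lam_hasDerivAt (hVmem w hw)).differentiableAt
  · intro w hw
    have hw' : |w.re| ≤ 1 := hw
    rw [(Lam_hasDerivAt (hVmem w hw)).deriv, norm_div]
    have e5 : ‖Complex.sin α‖ ≤ α := by
      rw [← Complex.ofReal_sin, Complex.norm_real, Real.norm_eq_abs]
      have := Real.abs_sin_le_abs (x := α)
      rwa [abs_of_pos hα] at this
    have e6 : (1 / 2 : ℝ) ≤ ‖Complex.cos w + Complex.cos α‖ := by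
      have h1 := Complex.re_le_norm (Complex.cos w + Complex.cos α)
      rw [Complex.add_re, cos_re', Complex.cos_ofReal_re] at h1
      have h2 : (1 / 2 : ℝ) ≤ Real.cos w.re := by
        refine hcos1.trans ?_
        rw [← Real.cos_abs w.re]
        exact Real.cos_le_cos_of_nonneg_of_le_pi (abs_nonneg _) (by linarith) hw'
      have h3 : 1 ≤ Real.cosh w.im := Real.one_le_cosh _
      have h4 : 0 < Real.cos α := Real.cos_pos_of_mem_Ioo ⟨by linarith, by linarith⟩
      nlinarith
    rw [div_le_iff₀ (by linarith)]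
    nlinarith

end Pool.Agent.HaymanWu.Lower
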