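import Mathlib

/-!
# Hayman–Wu lower bound: the function `Q(u) = log (sinh (κ u) / sinh u)` on a strip
-/

open Complex Set

noncomputable section

namespace Pool.Agent.HaymanWu.Lower

/-- `sinh u / u`, extended by `1` at zero. -/
def shc (u : ℂ) : ℂ := dslope Complex.sinh 0 u

lemma shc_of_ne {u : ℂ} (hu : u ≠ 0) : shc u = Complex.sinh u / u := by
  unfold shc
  rw [dslope_of_ne _ hu, slope_def_field]
  simp

lemma shc_zero : shc 0 = 1 := by
  unfold shc
  rw [dslope_same]
  simp

lemma shc_differentiable : Differentiable ℂ shc := by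
  rw [← differentiableOn_univ]
  unfold shc
  rw [Complex.differentiableOn_dslope Filter.univ_mem]
  exact Complex.differentiable_sinh.differentiableOn

/-- `sinh (κ u) / sinh u`. -/
def P (κ : ℝ) (u : ℂ) : ℂ := κ * shc (κ * u) / shc u

/-- `log (sinh (κ u) / sinh u)`. -/
def Q (κ : ℝ) (u : ℂ) : ℂ := Complex.log (P κ u)

lemma P_of_ne {κ : ℝ} (hκ : 0 < κ) {u : ℂ} (hu : u ≠ 0) :
    P κ u = Complex.sinh (κ * u) / Complex.sinh u := by
  have h1 : (κ : ℂ) ≠ 0 := by exact_mod_cast hκ.ne'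
  unfold P
  rw [shc_of_ne hu, shc_of_ne (mul_ne_zero h1 hu)]
  by_cases h : Complex.sinh u = 0
  · rw [h]; simp
  · field_simp

lemma P_zero {κ : ℝ} : P κ 0 = κ := by
  simp [P, shc_zero]

lemma sinh_re' (z : ℂ) : (Complex.sinh z).re = Real.sinh z.re * Real.cos z.im := by
  conv_lhs => rw [← Complex.re_add_im z, Complex.sinh_add, Complex.sinh_mul_I, Complex.cosh_mul_I]
  simp [← Complex.ofReal_sinh, ← Complex.ofReal_cosh, ← Complex.ofReal_cos, ← Complex.ofReal_sin]

lemma sinh_im' (z : ℂ) : (Complex.sinh z).im = Real.cosh z.re * Real.sin z.im := by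
  conv_lhs => rw [← Complex.re_add_im z, Complex.sinh_add, Complex.sinh_mul_I, Complex.cosh_mul_I]
  simp [← Complex.ofReal_sinh, ← Complex.ofReal_cosh, ← Complex.ofReal_cos, ← Complex.ofReal_sin]

lemma key_pos {κ s t : ℝ} (h1 : 1 < κ) (h2 : κ < 2) (ht : κ * |t| < Real.pi)
    (hst : s ≠ 0 ∨ t ≠ 0) :
    0 < Real.sinh (κ * s) * Real.cos (κ * t) * (Real.sinh s * Real.cos t) +
      Real.cosh (κ * s) * Real.sin (κ * t) * (Real.cosh s * Real.sin t) := by
  have hpi := Real.pi_pos
  have ht' : |t| < Real.pi := by nlinarith [abs_nonneg t]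
  -- cos ((κ-1) t) > 0
  have hc : 0 < Real.cos (κ * t) * Real.cos t + Real.sin (κ * t) * Real.sin t := by
    rw [← Real.cos_sub]
    apply Real.cos_pos_of_mem_Ioo
    have habs : |κ * t - t| < Real.pi / 2 := by
      have : κ * t - t = (κ - 1) * t := by ring
      rw [this, abs_mul, abs_of_pos (by linarith)]
      have : (κ - 1) * |t| ≤ κ / 2 * |t| := by
        apply mul_le_mul_of_nonneg_right _ (abs_nonneg t)
        linarith
      linarith
    rw [abs_lt] at habs
    exact ⟨by linarith [habs.1], habs.2⟩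
  -- sin (κ t) sin t > 0 unless t = 0
  have hs : 0 ≤ Real.sin (κ * t) * Real.sin t ∧ (t ≠ 0 → 0 < Real.sin (κ * t) * Real.sin t) := by
    rcases lt_trichotomy t 0 with h | h | h
    · have ha : |t| = -t := abs_of_neg h
      rw [ha] at ht ht'
      have h3 : Real.sin t < 0 := Real.sin_neg_of_neg_of_neg_pi_lt h (by linarith)
      have h4 : Real.sin (κ * t) < 0 :=
        Real.sin_neg_of_neg_of_neg_pi_lt (by nlinarith) (by linarith)
      exact ⟨(mul_pos_of_neg_of_neg h4 h3).le, fun _ => mul_pos_of_neg_of_neg h4 h3⟩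
    · subst h; simp
    · have ha : |t| = t := abs_of_pos h
      rw [ha] at ht ht'
      have h3 : 0 < Real.sin t := Real.sin_pos_of_pos_of_lt_pi h ht'
      have h4 : 0 < Real.sin (κ * t) := Real.sin_pos_of_pos_of_lt_pi (by positivity) ht
      exact ⟨(mul_pos h4 h3).le, fun _ => mul_pos h4 h3⟩
  -- hyperbolic part
  have hA : 0 ≤ Real.sinh (κ * s) * Real.sinh s ∧ (s ≠ 0 → 0 < Real.sinh (κ * s) * Real.sinh s) := by
    rcases lt_trichotomy s 0 with h | h | h
    · have h3 : Real.sinh s < 0 := Real.sinh_neg_iff.2 h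
      have h4 : Real.sinh (κ * s) < 0 := Real.sinh_neg_iff.2 (by nlinarith)
      exact ⟨(mul_pos_of_neg_of_neg h4 h3).le, fun _ => mul_pos_of_neg_of_neg h4 h3⟩
    · subst h; simp
    · have h3 : 0 < Real.sinh s := Real.sinh_pos_iff.2 h
      have h4 : 0 < Real.sinh (κ * s) := Real.sinh_pos_iff.2 (by positivity)
      exact ⟨(mul_pos h4 h3).le, fun _ => mul_pos h4 h3⟩
  have hB : 1 ≤ Real.cosh (κ * s) * Real.cosh s - Real.sinh (κ * s) * Real.sinh s := by
    rw [← Real.cosh_sub]; exact Real.one_le_cosh _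
  set A := Real.sinh (κ * s) * Real.sinh s
  set B := Real.cosh (κ * s) * Real.cosh s
  set a := Real.cos (κ * t) * Real.cos t
  set b := Real.sin (κ * t) * Real.sin t
  have : Real.sinh (κ * s) * Real.cos (κ * t) * (Real.sinh s * Real.cos t) +
      Real.cosh (κ * s) * Real.sin (κ * t) * (Real.cosh s * Real.sin t) =
      A * (a + b) + (B - A) * b := by
    simp only [A, B, a, b]; ring
  rw [this]
  rcases hst with h | h
  · have h5 := hA.2 h
    have h6 := mul_pos h5 hc
    have h7 : 0 ≤ (B - A) * b := mul_nonneg (by linarith) hs.1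
    linarith
  · have h5 := hs.2 h
    have h6 : 0 < (B - A) * b := mul_pos (by linarith) h5
    have h7 : 0 ≤ A * (a + b) := mul_nonneg hA.1 hc.le
    linarith

lemma sinh_ne_zero_of {u : ℂ} (hu : u ≠ 0) (h : |u.im| < Real.pi) : Complex.sinh u ≠ 0 := by
  intro h0
  have hre : Real.sinh u.re * Real.cos u.im = 0 := by rw [← sinh_re', h0]; rfl
  have him : Real.cosh u.re * Real.sin u.im = 0 := by rw [← sinh_im', h0]; rfl
  have h1 : Real.sin u.im = 0 := by
    rcases mul_eq_zero.1 him with h | h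
    · exact absurd h (Real.cosh_pos _).ne'
    · exact h
  rw [abs_lt] at h
  have h2 : u.im = 0 := (Real.sin_eq_zero_iff_of_lt_of_lt h.1 h.2).1 h1
  rw [h2] at hre
  simp only [Real.cos_zero, mul_one] at hre
  have h3 : u.re = 0 := Real.sinh_eq_zero.1 hre
  exact hu (Complex.ext h3 h2)

lemma P_re_pos {κ : ℝ} (h1 : 1 < κ) (h2 : κ < 2) {u : ℂ} (hu : κ * |u.im| < Real.pi) :
    0 < (P κ u).re := by
  by_cases h : u = 0
  · subst h; rw [P_zero]; simp; linarith
  · rw [P_of_ne (by linarith) h, Complex.div_re]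
    have him : |u.im| < Real.pi := by nlinarith [abs_nonneg u.im, Real.pi_pos]
    have hne := sinh_ne_zero_of h him
    have hn : 0 < Complex.normSq (Complex.sinh u) := Complex.normSq_pos.2 hne
    have hk := key_pos (s := u.re) (t := u.im) h1 h2 hu (by
      by_contra hcon
      push Not at hcon
      exact h (Complex.ext hcon.1 hcon.2))
    rw [← add_div]
    apply div_pos _ hn
    rw [sinh_re', sinh_im', sinh_re', sinh_im']
    simpa using hk


/-- The open strip where `Q` is holomorphic. -/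
def strip (κ : ℝ) : Set ℂ := {u | κ * |u.im| < Real.pi}

lemma isOpen_strip (κ : ℝ) : IsOpen (strip κ) := by
  unfold strip
  exact isOpen_lt (by fun_prop) continuous_const

lemma strip_im_lt {κ : ℝ} (h1 : 1 < κ) {u : ℂ} (hu : u ∈ strip κ) : |u.im| < Real.pi := by
  have : κ * |u.im| < Real.pi := hu
  nlinarith [abs_nonneg u.im, Real.pi_pos]

lemma shc_ne_zero {u : ℂ} (h : |u.im| < Real.pi) : shc u ≠ 0 := by
  by_cases hu : u = 0
  · subst hu; rw [shc_zero]; exact one_ne_zero
  · rw [shc_of_ne hu]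
    exact div_ne_zero (sinh_ne_zero_of hu h) hu

lemma P_differentiableOn {κ : ℝ} (h1 : 1 < κ) : DifferentiableOn ℂ (P κ) (strip κ) := by
  intro u hu
  apply DifferentiableAt.differentiableWithinAt
  unfold P
  apply DifferentiableAt.div
  · apply DifferentiableAt.const_mul
    exact (shc_differentiable (κ * u)).comp u (differentiableAt_id.const_mul (κ : ℂ))
  · exact shc_differentiable u
  · exact shc_ne_zero (strip_im_lt h1 hu)

lemma P_mem_slitPlane {κ : ℝ} (h1 : 1 < κ) (h2 : κ < 2) {u : ℂ} (hu : u ∈ strip κ) :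
    P κ u ∈ Complex.slitPlane := Or.inl (P_re_pos h1 h2 hu)

lemma Q_differentiableOn {κ : ℝ} (h1 : 1 < κ) (h2 : κ < 2) :
    DifferentiableOn ℂ (Q κ) (strip κ) := by
  unfold Q
  exact (P_differentiableOn h1).clog (fun u hu => P_mem_slitPlane h1 h2 hu)

lemma exp_Q {κ : ℝ} (h1 : 1 < κ) (h2 : κ < 2) {u : ℂ} (hu : u ∈ strip κ) (h0 : u ≠ 0) :
    Complex.exp (Q κ u) = Complex.sinh (κ * u) / Complex.sinh u := by
  unfold Q
  rw [Complex.exp_log (Complex.slitPlane_ne_zero (P_mem_slitPlane h1 h2 hu)),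
    P_of_ne (by linarith) h0]

lemma Q_conj {κ : ℝ} (h1 : 1 < κ) (h2 : κ < 2) {u : ℂ} (hu : u ∈ strip κ) :
    Q κ ((starRingEnd ℂ) u) = (starRingEnd ℂ) (Q κ u) := by
  have hP : P κ ((starRingEnd ℂ) u) = (starRingEnd ℂ) (P κ u) := by
    by_cases h : u = 0
    · subst h; simp [P_zero]
    · have h' : (starRingEnd ℂ) u ≠ 0 := by simpa using h
      rw [P_of_ne (by linarith) h, P_of_ne (by linarith) h', map_div₀, ← Complex.sinh_conj,
        ← Complex.sinh_conj, map_mul, Complex.conj_ofReal]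
  unfold Q
  rw [hP, Complex.log_conj]
  have := P_re_pos h1 h2 hu
  intro harg
  rw [Complex.arg_eq_pi_iff] at harg
  linarith [harg.1]

lemma norm_cosh_le (z : ℂ) : ‖Complex.cosh z‖ ≤ Real.cosh z.re := by
  rw [Complex.cosh, Real.cosh_eq, norm_div, Complex.norm_two]
  have h := norm_add_le (Complex.exp z) (Complex.exp (-z))
  rw [Complex.norm_exp, Complex.norm_exp] at h
  simp only [Complex.neg_re] at h
  linarith

lemma le_norm_sinh (z : ℂ) : Real.sinh |z.re| ≤ ‖Complex.sinh z‖ := by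
  rw [Complex.sinh, Real.sinh_eq, norm_div, Complex.norm_two]
  rcases le_total 0 z.re with h0 | h0
  · rw [abs_of_nonneg h0]
    have h := norm_sub_norm_le (Complex.exp z) (Complex.exp (-z))
    rw [Complex.norm_exp, Complex.norm_exp] at h
    simp only [Complex.neg_re] at h
    linarith
  · rw [abs_of_nonpos h0]
    have h := norm_sub_norm_le (Complex.exp (-z)) (Complex.exp z)
    rw [Complex.norm_exp, Complex.norm_exp, norm_sub_rev] at h
    simp only [Complex.neg_re] at h
    simp only [neg_neg]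
    linarith

lemma coth_bound {z : ℂ} (h : 1 ≤ |z.re|) : ‖Complex.cosh z / Complex.sinh z‖ ≤ 2 := by
  have h1 := norm_cosh_le z
  have h2 := le_norm_sinh z
  have h3 : Real.cosh z.re ≤ 2 * Real.sinh |z.re| := by
    rw [← Real.cosh_abs]
    set x := |z.re|
    rw [Real.cosh_eq, Real.sinh_eq]
    have h4 : (3 : ℝ) ≤ Real.exp (x + x) := by
      have := Real.add_one_le_exp (x + x)
      linarith
    rw [Real.exp_add] at h4
    have h5 : Real.exp x * Real.exp (-x) = 1 := by rw [← Real.exp_add]; simp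
    have h6 := Real.exp_pos (-x)
    nlinarith
  have h4 : 0 < Real.sinh |z.re| := Real.sinh_pos_iff.2 (by linarith)
  rw [norm_div, div_le_iff₀ (by linarith)]
  linarith

lemma Q_hasDerivAt {κ : ℝ} (h1 : 1 < κ) (h2 : κ < 2) {u : ℂ} (hu : u ∈ strip κ) (h0 : u ≠ 0) :
    HasDerivAt (Q κ) (κ * (Complex.cosh (κ * u) / Complex.sinh (κ * u)) -
      Complex.cosh u / Complex.sinh u) u := by
  have hs1 : Complex.sinh u ≠ 0 := sinh_ne_zero_of h0 (strip_im_lt h1 hu)
  have hκ : (κ : ℂ) ≠ 0 := by exact_mod_cast (by linarith : κ ≠ 0)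
  have hs2 : Complex.sinh (κ * u) ≠ 0 := by
    apply sinh_ne_zero_of (mul_ne_zero hκ h0)
    have : κ * |u.im| < Real.pi := hu
    simp [abs_mul, abs_of_pos (by linarith : (0:ℝ) < κ), this]
  have hd1 : HasDerivAt (fun u : ℂ => Complex.sinh (κ * u)) (Complex.cosh (κ * u) * κ) u := by
    have := (hasDerivAt_id u).const_mul (κ : ℂ)
    simp only [id, mul_one] at this
    exact this.csinh
  have hd2 : HasDerivAt (fun u : ℂ => Complex.sinh u) (Complex.cosh u) u :=
    Complex.hasDerivAt_sinh u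
  have hd3 := hd1.div hd2 hs1
  have hd4 := hd3.clog (by
    have := P_mem_slitPlane h1 h2 hu
    rw [P_of_ne (by linarith) h0] at this
    exact this)
  have heq : Q κ =ᶠ[nhds u] fun u => Complex.log (Complex.sinh (κ * u) / Complex.sinh u) := by
    filter_upwards [isOpen_ne.mem_nhds h0] with v hv
    unfold Q
    rw [P_of_ne (by linarith) hv]
  refine (hd4.congr_of_eventuallyEq heq).congr_deriv ?_
  simp only [Pi.div_apply]
  field_simp

/-- `Q` is Lipschitz on closed substrips. -/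
lemma Q_lipschitz {κ : ℝ} (h1 : 1 < κ) (h2 : κ < 2) {b : ℝ} (hb : κ * b < Real.pi) :
    ∃ C : ℝ, 0 < C ∧ ∀ u v : ℂ, |u.im| ≤ b → |v.im| ≤ b → ‖Q κ u - Q κ v‖ ≤ C * ‖u - v‖ := by
  have hsub : ∀ u : ℂ, |u.im| ≤ b → u ∈ strip κ := by
    intro u hu
    show κ * |u.im| < Real.pi
    nlinarith
  have hcpt : IsCompact {u : ℂ | |u.re| ≤ 1 ∧ |u.im| ≤ b} := by
    have : {u : ℂ | |u.re| ≤ 1 ∧ |u.im| ≤ b} = Set.Icc (-1) 1 ×ℂ Set.Icc (-b) b := by
      ext u; simp [Complex.mem_reProdIm, abs_le]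
    rw [this]
    exact isCompact_Icc.reProdIm isCompact_Icc
  have hcont : ContinuousOn (deriv (Q κ)) {u : ℂ | |u.re| ≤ 1 ∧ |u.im| ≤ b} :=
    ((Q_differentiableOn h1 h2).deriv (isOpen_strip κ)).continuousOn.mono
      (fun u hu => hsub u hu.2)
  obtain ⟨C0, hC0⟩ := hcpt.exists_bound_of_continuousOn hcont
  refine ⟨max C0 6, lt_of_lt_of_le (by norm_num) (le_max_right _ _), ?_⟩
  have hconv : Convex ℝ {u : ℂ | |u.im| ≤ b} := by
    have : {u : ℂ | |u.im| ≤ b} = Complex.imLm ⁻¹' Set.Icc (-b) b := by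
      ext u; simp [abs_le]
    rw [this]
    exact (convex_Icc _ _).linear_preimage _
  intro u v hu hv
  rw [norm_sub_rev, norm_sub_rev u v]
  refine hconv.norm_image_sub_le_of_norm_deriv_le (f := Q κ) ?_ ?_ hu hv
  · intro x hx
    exact (Q_differentiableOn h1 h2).differentiableAt ((isOpen_strip κ).mem_nhds (hsub x hx))
  · intro x hx
    by_cases hre : |x.re| ≤ 1
    · exact (hC0 x ⟨hre, hx⟩).trans (le_max_left _ _)
    · push Not at hre
      refine le_trans ?_ (le_max_right _ _)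
      have hx0 : x ≠ 0 := by
        rintro rfl
        simp at hre
        linarith
      rw [(Q_hasDerivAt h1 h2 (hsub x hx) hx0).deriv]
      have hb1 := coth_bound (z := x) hre.le
      have hb2 := coth_bound (z := κ * x) (by
        simp [abs_mul, abs_of_pos (by linarith : (0:ℝ) < κ)]
        nlinarith)
      have hn : ‖(κ : ℂ) * (Complex.cosh (κ * x) / Complex.sinh (κ * x))‖ ≤ 2 * 2 := by
        rw [norm_mul]
        apply mul_le_mul _ hb2 (norm_nonneg _) (by norm_num)
        rw [Complex.norm_real, Real.norm_eq_abs, abs_of_pos (by linarith)]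
        exact h2.le
      calc _ ≤ ‖(κ : ℂ) * (Complex.cosh (κ * x) / Complex.sinh (κ * x))‖ +
            ‖Complex.cosh x / Complex.sinh x‖ := norm_sub_le _ _
        _ ≤ 6 := by linarith

end Pool.Agent.HaymanWu.Lower
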