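import Mathlib
import Pool.Agent.HaymanWu.LowerPQ
import Pool.Agent.HaymanWu.LowerLam

/-!
# Hayman–Wu lower bound: the gate map
-/

open Complex Set

noncomputable section

namespace Pool.Agent.HaymanWu.Lower

/-- Parameters of the gate map. -/
structure Par where
  κ : ℝ
  s : ℝ
  C : ℝ
  α : ℝ
  h1 : 1 < κ
  h2 : κ < 2
  hs : 0 < s
  hs' : s ≤ 1 / 4
  hκs : κ * (Real.pi / 2 + 2 * s) < Real.pi
  hC : 0 < C
  hQ : ∀ u v : ℂ, |u.im| ≤ Real.pi / 2 + 2 * s → |v.im| ≤ Real.pi / 2 + 2 * s →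
    ‖Q κ u - Q κ v‖ ≤ C * ‖u - v‖
  hα : 0 < α
  hα1 : α ≤ 1
  hα2 : α < 2 * s
  hα3 : C * α ≤ s / 16

namespace Par

variable (p : Par)

lemma hαpi : p.α < Real.pi := by linarith [p.hα1, Real.pi_gt_three]

/-- lower argument -/
def um (φ : ℂ) : ℂ := (Lam p.α φ - I * p.α) / 2

/-- upper argument -/
def uq (φ : ℂ) : ℂ := (Lam p.α φ + I * p.α) / 2

/-- The gate map. -/
def G (φ : ℂ) : ℂ := φ - I * (Q p.κ (p.um φ) - Q p.κ (p.uq φ))

/-- The domain where the gate map is injective. -/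
def W : Set ℂ := {φ | φ ∈ V p.α ∧ -(2 * p.s) < (Lam p.α φ).im ∧ (Lam p.α φ).im < Real.pi + 2 * p.s}

lemma Lam_continuousOn : ContinuousOn (Lam p.α) (V p.α) :=
  fun _ hφ => (Lam_hasDerivAt hφ).continuousAt.continuousWithinAt

lemma isOpen_W : IsOpen p.W := by
  have h1 : IsOpen (V p.α ∩ (Lam p.α) ⁻¹' {z | -(2 * p.s) < z.im ∧ z.im < Real.pi + 2 * p.s}) := by
    apply p.Lam_continuousOn.isOpen_inter_preimage (isOpen_V _)
    exact (isOpen_lt continuous_const Complex.continuous_im).inter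
      (isOpen_lt Complex.continuous_im continuous_const)
  exact h1

lemma W_add_two_pi {φ : ℂ} (h : φ ∈ p.W) : φ + 2 * Real.pi ∈ p.W := by
  refine ⟨V_add_two_pi h.1, ?_⟩
  rw [Lam_add_two_pi]
  exact h.2

lemma um_im {φ : ℂ} (h : φ ∈ p.W) : |(p.um φ).im| ≤ Real.pi / 2 + 2 * p.s := by
  have e : (p.um φ).im = ((Lam p.α φ).im - p.α) / 2 := by simp [um]
  rw [e, abs_le]
  have := h.2.1
  have := h.2.2
  have := p.hα2
  have := p.hα
  have := p.hs
  have := Real.pi_pos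
  constructor <;> linarith

lemma uq_im {φ : ℂ} (h : φ ∈ p.W) : |(p.uq φ).im| ≤ Real.pi / 2 + 2 * p.s := by
  have e : (p.uq φ).im = ((Lam p.α φ).im + p.α) / 2 := by simp [uq]
  rw [e, abs_le]
  have := h.2.1
  have := h.2.2
  have := p.hα2
  have := p.hα
  have := p.hs
  have := Real.pi_pos
  constructor <;> linarith

lemma mem_strip {u : ℂ} (h : |u.im| ≤ Real.pi / 2 + 2 * p.s) : u ∈ strip p.κ := by
  show p.κ * |u.im| < Real.pi
  have := p.hκs
  have := p.h1
  nlinarith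

lemma G_differentiableOn : DifferentiableOn ℂ p.G p.W := by
  intro φ hφ
  apply DifferentiableAt.differentiableWithinAt
  have hL := (Lam_hasDerivAt hφ.1).differentiableAt
  have hQd := Q_differentiableOn p.h1 p.h2
  have h1 : DifferentiableAt ℂ (Q p.κ) (p.um φ) :=
    hQd.differentiableAt ((isOpen_strip _).mem_nhds (p.mem_strip (p.um_im hφ)))
  have h2 : DifferentiableAt ℂ (Q p.κ) (p.uq φ) :=
    hQd.differentiableAt ((isOpen_strip _).mem_nhds (p.mem_strip (p.uq_im hφ)))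
  have h3 : DifferentiableAt ℂ p.um φ := (hL.sub_const _).div_const _
  have h4 : DifferentiableAt ℂ p.uq φ := (hL.add_const _).div_const _
  unfold G
  exact differentiableAt_id.sub (((h1.comp φ h3).sub (h2.comp φ h4)).const_mul I)

lemma um_add (φ : ℂ) : p.um (φ + 2 * Real.pi) = p.um φ := by
  unfold um; rw [Lam_add_two_pi]

lemma uq_add (φ : ℂ) : p.uq (φ + 2 * Real.pi) = p.uq φ := by
  unfold uq; rw [Lam_add_two_pi]

lemma G_add (φ : ℂ) : p.G (φ + 2 * Real.pi) = p.G φ + 2 * Real.pi := by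
  unfold G; rw [um_add, uq_add]; ring

lemma G_near {φ : ℂ} (h : φ ∈ p.W) : ‖p.G φ - φ‖ ≤ p.C * p.α := by
  have h1 := p.hQ _ _ (p.um_im h) (p.uq_im h)
  have e : p.G φ - φ = -(I * (Q p.κ (p.um φ) - Q p.κ (p.uq φ))) := by unfold G; ring
  rw [e, norm_neg, norm_mul, Complex.norm_I, one_mul]
  have e2 : p.um φ - p.uq φ = -(I * p.α) := by unfold um uq; ring
  rw [e2, norm_neg, norm_mul, Complex.norm_I, one_mul, Complex.norm_real, Real.norm_eq_abs,
    abs_of_pos p.hα] at h1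
  exact h1

/-- The relation between `exp (I φ)` and `Lam`. -/
lemma exp_sinh {α : ℝ} {φ : ℂ} (h : φ ∈ V α) :
    Complex.exp (I * φ) * Complex.sinh ((Lam α φ + I * α) / 2) =
      -Complex.sinh ((Lam α φ - I * α) / 2) := by
  have key := exp_Lam_mul h
  set L := Lam α φ
  have e1 : Complex.exp ((L + I * α) / 2) = Complex.exp (L / 2) * Complex.exp (I * α / 2) := by
    rw [← Complex.exp_add]; congr 1; ring
  have e2 : Complex.exp ((L - I * α) / 2) = Complex.exp (L / 2) * (Complex.exp (I * α / 2))⁻¹ := by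
    rw [← Complex.exp_neg, ← Complex.exp_add]; congr 1; ring
  have e3 : Complex.exp (-((L + I * α) / 2)) =
      (Complex.exp (L / 2))⁻¹ * (Complex.exp (I * α / 2))⁻¹ := by
    rw [← Complex.exp_neg, ← Complex.exp_neg, ← Complex.exp_add]; congr 1; ring
  have e4 : Complex.exp (-((L - I * α) / 2)) =
      (Complex.exp (L / 2))⁻¹ * Complex.exp (I * α / 2) := by
    rw [← Complex.exp_neg, ← Complex.exp_add]; congr 1; ring
  have e5 : Complex.exp L = Complex.exp (L / 2) ^ 2 := by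
    rw [← Complex.exp_nat_mul]; congr 1; push_cast; ring
  have e6 : Complex.exp (I * α) = Complex.exp (I * α / 2) ^ 2 := by
    rw [← Complex.exp_nat_mul]; congr 1; push_cast; ring
  rw [e5, e6] at key
  rw [Complex.sinh, Complex.sinh, e1, e2, e3, e4]
  have hl : Complex.exp (L / 2) ≠ 0 := Complex.exp_ne_zero _
  have ha : Complex.exp (I * α / 2) ≠ 0 := Complex.exp_ne_zero _
  set l := Complex.exp (L / 2)
  set a := Complex.exp (I * α / 2)
  set X := Complex.exp (I * φ)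
  field_simp
  linear_combination key

lemma sinh_I_ne {α : ℝ} (hα : 0 < α) (hα' : α < Real.pi) : Complex.sinh (I * α) ≠ 0 := by
  apply sinh_ne_zero_of
  · simp [hα.ne']
  · simp [abs_of_pos hα, hα']

lemma um_ne {φ : ℂ} (h : φ ∈ p.W) : p.um φ ≠ 0 := by
  intro h0
  have key := exp_sinh h.1
  have e1 : (Lam p.α φ - I * p.α) / 2 = 0 := h0
  have e2 : (Lam p.α φ + I * p.α) / 2 = I * p.α := by linear_combination e1
  rw [e1, e2, Complex.sinh_zero, neg_zero] at key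
  rcases mul_eq_zero.1 key with h1 | h1
  · exact Complex.exp_ne_zero _ h1
  · exact sinh_I_ne p.hα p.hαpi h1

lemma uq_ne {φ : ℂ} (h : φ ∈ p.W) : p.uq φ ≠ 0 := by
  intro h0
  have key := exp_sinh h.1
  have e1 : (Lam p.α φ + I * p.α) / 2 = 0 := h0
  have e2 : (Lam p.α φ - I * p.α) / 2 = -(I * p.α) := by linear_combination e1
  rw [e1, e2, Complex.sinh_zero, mul_zero, Complex.sinh_neg, neg_neg] at key
  exact sinh_I_ne p.hα p.hαpi key.symm

lemma sinh_uq_ne {φ : ℂ} (h : φ ∈ p.W) : Complex.sinh (p.uq φ) ≠ 0 :=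
  sinh_ne_zero_of (p.uq_ne h) (strip_im_lt p.h1 (p.mem_strip (p.uq_im h)))

lemma sinh_um_ne {φ : ℂ} (h : φ ∈ p.W) : Complex.sinh (p.um φ) ≠ 0 :=
  sinh_ne_zero_of (p.um_ne h) (strip_im_lt p.h1 (p.mem_strip (p.um_im h)))

lemma sinh_κ_ne {u : ℂ} (h0 : u ≠ 0) (h : u ∈ strip p.κ) : Complex.sinh (p.κ * u) ≠ 0 := by
  have hκ : 0 < p.κ := by linarith [p.h1]
  apply sinh_ne_zero_of (mul_ne_zero (by exact_mod_cast hκ.ne') h0)
  have : p.κ * |u.im| < Real.pi := h
  simp [abs_mul, abs_of_pos hκ, this]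

lemma G_exp {φ : ℂ} (h : φ ∈ p.W) :
    Complex.exp (I * p.G φ) * Complex.sinh (p.κ * p.uq φ) = -Complex.sinh (p.κ * p.um φ) := by
  have e : I * p.G φ = I * φ + (Q p.κ (p.um φ) - Q p.κ (p.uq φ)) := by
    unfold G; linear_combination (-(Q p.κ (p.um φ) - Q p.κ (p.uq φ))) * Complex.I_sq
  have hm := p.mem_strip (p.um_im h)
  have hq := p.mem_strip (p.uq_im h)
  rw [e, Complex.exp_add, Complex.exp_sub, exp_Q p.h1 p.h2 hm (p.um_ne h),
    exp_Q p.h1 p.h2 hq (p.uq_ne h)]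
  have key : Complex.exp (I * φ) * Complex.sinh (p.uq φ) = -Complex.sinh (p.um φ) := exp_sinh h.1
  have n1 := p.sinh_uq_ne h
  have n2 := p.sinh_um_ne h
  have n3 := p.sinh_κ_ne (p.uq_ne h) hq
  have e2 : Complex.exp (I * φ) = -Complex.sinh (p.um φ) / Complex.sinh (p.uq φ) := by
    rw [eq_div_iff n1, key]
  rw [e2]
  field_simp

lemma G_injOn : Set.InjOn p.G p.W := by
  intro φ₁ h₁ φ₂ h₂ heq
  have k1 := p.G_exp h₁
  have k2 := p.G_exp h₂
  rw [← heq] at k2
  set E := Complex.exp (I * p.G φ₁)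
  have hE : E ≠ 0 := Complex.exp_ne_zero _
  have hα : 0 < p.α := p.hα
  have hκ : 0 < p.κ := by linarith [p.h1]
  have hpi := Real.pi_pos
  -- cross-multiplication
  have cross : Complex.sinh (p.κ * p.um φ₁) * Complex.sinh (p.κ * p.uq φ₂) -
      Complex.sinh (p.κ * p.um φ₂) * Complex.sinh (p.κ * p.uq φ₁) = 0 := by
    linear_combination Complex.sinh (p.κ * p.uq φ₂) * k1 - Complex.sinh (p.κ * p.uq φ₁) * k2
  set a1 := p.κ * Lam p.α φ₁ / 2 with ha1
  set a2 := p.κ * Lam p.α φ₂ / 2 with ha2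
  set β : ℂ := I * (p.κ * p.α / 2) with hβ
  have f1 : (p.κ : ℂ) * p.um φ₁ = a1 - β := by unfold um; rw [ha1, hβ]; ring
  have f2 : (p.κ : ℂ) * p.uq φ₁ = a1 + β := by unfold uq; rw [ha1, hβ]; ring
  have f3 : (p.κ : ℂ) * p.um φ₂ = a2 - β := by unfold um; rw [ha2, hβ]; ring
  have f4 : (p.κ : ℂ) * p.uq φ₂ = a2 + β := by unfold uq; rw [ha2, hβ]; ring
  rw [f1, f2, f3, f4] at cross
  have ident : Complex.sinh (a1 - β) * Complex.sinh (a2 + β) -
      Complex.sinh (a2 - β) * Complex.sinh (a1 + β) =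
      Complex.sinh (a1 - a2) * Complex.sinh (2 * β) := by
    rw [Complex.sinh_sub, Complex.sinh_add, Complex.sinh_sub, Complex.sinh_add, Complex.sinh_sub,
      Complex.sinh_two_mul]
    ring_nf
  rw [ident] at cross
  have hβne : Complex.sinh (2 * β) ≠ 0 := by
    have e : 2 * β = I * ((p.κ * p.α : ℝ) : ℂ) := by rw [hβ]; push_cast; ring
    rw [e]
    apply sinh_I_ne (by positivity)
    have := p.hα2
    have := p.hs'
    have := p.h2
    nlinarith [Real.pi_gt_three]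
  have hs0 : Complex.sinh (a1 - a2) = 0 := by
    rcases mul_eq_zero.1 cross with h | h
    · exact h
    · exact absurd h hβne
  have hLam : Lam p.α φ₁ = Lam p.α φ₂ := by
    by_contra hne
    apply sinh_ne_zero_of (u := a1 - a2) _ _ hs0
    · intro h0
      apply hne
      have : (p.κ : ℂ) * (Lam p.α φ₁ - Lam p.α φ₂) = 0 := by
        rw [ha1, ha2] at h0
        linear_combination 2 * h0
      rcases mul_eq_zero.1 this with h | h
      · exact absurd h (by exact_mod_cast hκ.ne')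
      · exact sub_eq_zero.1 h
    · have e : (a1 - a2).im = p.κ * ((Lam p.α φ₁).im - (Lam p.α φ₂).im) / 2 := by
        rw [ha1, ha2]; simp; ring
      have hd : |(Lam p.α φ₁).im - (Lam p.α φ₂).im| < Real.pi + 4 * p.s := by
        rw [abs_lt]
        constructor <;> linarith [h₁.2.1, h₁.2.2, h₂.2.1, h₂.2.2]
      rw [e, abs_div, abs_mul, abs_of_pos hκ, abs_two]
      have := p.hκs
      nlinarith
  have hu1 : p.um φ₁ = p.um φ₂ := by unfold um; rw [hLam]
  have hu2 : p.uq φ₁ = p.uq φ₂ := by unfold uq; rw [hLam]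
  unfold G at heq
  rw [hu1, hu2] at heq
  exact sub_left_injective heq


/-- Real part symmetry: if `Lam` is real then the displacement is real. -/
lemma G_im_of_Lam_im_zero {φ : ℂ} (h : φ ∈ p.W) (h0 : (Lam p.α φ).im = 0) :
    (p.G φ).im = φ.im := by
  have e : p.um φ = (starRingEnd ℂ) (p.uq φ) := by
    apply Complex.ext
    · rw [Complex.conj_re]; simp [um, uq]
    · rw [Complex.conj_im]; simp [um, uq, h0]; ring
  have e2 : Q p.κ (p.um φ) = (starRingEnd ℂ) (Q p.κ (p.uq φ)) := by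
    rw [e, Q_conj p.h1 p.h2 (p.mem_strip (p.uq_im h))]
  unfold G
  rw [e2]
  simp

lemma G_im_of_cross {φ : ℂ} (h : φ ∈ p.W) (h0 : p.κ * (Lam p.α φ).im = Real.pi) :
    (p.G φ).im = 0 := by
  have key := p.G_exp h
  set ℓ : ℝ := p.κ * (Lam p.α φ).re with hℓ
  have hLam : (p.κ : ℂ) * Lam p.α φ = ℓ + Real.pi * I := by
    apply Complex.ext
    · simp [hℓ]
    · simp [h0]
  have e1 : (p.κ : ℂ) * p.uq φ = (ℓ + I * (p.κ * p.α : ℝ)) / 2 + (Real.pi / 2 : ℝ) * I := by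
    unfold uq
    push_cast
    linear_combination hLam / 2
  have e2 : (p.κ : ℂ) * p.um φ = (ℓ - I * (p.κ * p.α : ℝ)) / 2 + (Real.pi / 2 : ℝ) * I := by
    unfold um
    push_cast
    linear_combination hLam / 2
  have hsh : ∀ z : ℂ, Complex.sinh (z + (Real.pi / 2 : ℝ) * I) = I * Complex.cosh z := by
    intro z
    rw [Complex.sinh_add, Complex.cosh_mul_I, Complex.sinh_mul_I, ← Complex.ofReal_cos,
      ← Complex.ofReal_sin, Real.cos_pi_div_two, Real.sin_pi_div_two]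
    simp [mul_comm]
  have hne := p.sinh_κ_ne (p.uq_ne h) (p.mem_strip (p.uq_im h))
  rw [e1, hsh] at hne
  rw [e1, e2, hsh, hsh] at key
  have hconj : Complex.cosh ((ℓ - I * (p.κ * p.α : ℝ)) / 2) =
      (starRingEnd ℂ) (Complex.cosh ((ℓ + I * (p.κ * p.α : ℝ)) / 2)) := by
    rw [← Complex.cosh_conj]
    congr 1
    apply Complex.ext
    · rw [Complex.conj_re]; simp
    · rw [Complex.conj_im]; simp
      ring
  have hn := congrArg norm key
  rw [hconj, norm_neg, norm_mul, norm_mul, norm_mul, Complex.norm_conj] at hn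
  have hpos : 0 < ‖I‖ * ‖Complex.cosh ((ℓ + I * (p.κ * p.α : ℝ)) / 2)‖ := by
    rw [← norm_mul]; exact norm_pos_iff.2 hne
  have h1 : ‖Complex.exp (I * p.G φ)‖ = 1 := by
    have : ‖Complex.exp (I * p.G φ)‖ * (‖I‖ * ‖Complex.cosh ((ℓ + I * (p.κ * p.α : ℝ)) / 2)‖) =
      1 * (‖I‖ * ‖Complex.cosh ((ℓ + I * (p.κ * p.α : ℝ)) / 2)‖) := by rw [hn, one_mul]
    exact mul_right_cancel₀ hpos.ne' this
  rw [Complex.norm_exp] at h1
  simp only [Complex.mul_re, Complex.I_re, zero_mul, Complex.I_im, one_mul, zero_sub] at h1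
  have h2 := Real.exp_eq_one_iff _ |>.1 h1
  linarith

lemma G_lip {u v : ℂ} (hu : u ∈ p.W) (hv : v ∈ p.W) (hu1 : |u.re| ≤ 1) (hv1 : |v.re| ≤ 1) :
    ‖(p.G u - u) - (p.G v - v)‖ ≤ 2 * (p.C * p.α) * ‖u - v‖ := by
  have hL := Lam_lipschitz p.hα p.hα1 hu1 hv1
  have h1 := p.hQ _ _ (p.um_im hu) (p.um_im hv)
  have h2 := p.hQ _ _ (p.uq_im hu) (p.uq_im hv)
  have e1 : ‖p.um u - p.um v‖ ≤ p.α * ‖u - v‖ := by
    have : p.um u - p.um v = (Lam p.α u - Lam p.α v) / 2 := by unfold um; ring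
    rw [this, norm_div, Complex.norm_two]
    linarith
  have e2 : ‖p.uq u - p.uq v‖ ≤ p.α * ‖u - v‖ := by
    have : p.uq u - p.uq v = (Lam p.α u - Lam p.α v) / 2 := by unfold uq; ring
    rw [this, norm_div, Complex.norm_two]
    linarith
  have e : (p.G u - u) - (p.G v - v) = -(I * ((Q p.κ (p.um u) - Q p.κ (p.um v)) -
      (Q p.κ (p.uq u) - Q p.κ (p.uq v)))) := by unfold G; ring
  rw [e, norm_neg, norm_mul, Complex.norm_I, one_mul]
  have hC := p.hC
  calc _ ≤ ‖Q p.κ (p.um u) - Q p.κ (p.um v)‖ + ‖Q p.κ (p.uq u) - Q p.κ (p.uq v)‖ := norm_sub_le _ _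
    _ ≤ p.C * ‖p.um u - p.um v‖ + p.C * ‖p.uq u - p.uq v‖ := add_le_add h1 h2
    _ ≤ p.C * (p.α * ‖u - v‖) + p.C * (p.α * ‖u - v‖) := by gcongr
    _ = _ := by ring

/-- Points of the closed upper half-plane (where `Lam` is defined) belong to `W`. -/
lemma mem_W_of_im_nonneg {φ : ℂ} (hV : φ ∈ V p.α) (h0 : 0 ≤ φ.im) : φ ∈ p.W := by
  have hs := p.hs
  have hpi := Real.pi_pos
  refine ⟨hV, ?_⟩
  rcases eq_or_lt_of_le h0 with h | h
  · rcases Lam_im_real p.hα p.hαpi hV h.symm with h1 | h1 <;> rw [h1] <;>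
      constructor <;> linarith
  · have := Lam_im_mem p.hα p.hαpi (φ := φ) h
    constructor <;> linarith [this.1, this.2]

lemma mem_W_of_im_pos {φ : ℂ} (h0 : 0 < φ.im) : φ ∈ p.W :=
  p.mem_W_of_im_nonneg (mem_V_of_im_pos h0) h0.le

lemma cos_ne_zero_of_ne {x α : ℝ} (h : ∀ j : ℤ, x ≠ Real.pi + α + 2 * Real.pi * j) :
    Real.cos ((x - α) / 2) ≠ 0 := by
  intro h0
  rw [Real.cos_eq_zero_iff] at h0
  obtain ⟨k, hk⟩ := h0
  apply h k
  linarith

lemma mem_W_below {σ : ℝ} (hσ : 0 ≤ σ) (hσs : σ < p.s) {φ : ℂ} (h0 : φ.im ≤ 0)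
    (h1 : ∀ j : ℤ, -φ.im < σ * |φ.re - (Real.pi + p.α + 2 * Real.pi * j)|)
    (h2 : ∀ j : ℤ, -φ.im < σ * |φ.re - (Real.pi - p.α + 2 * Real.pi * j)|) :
    φ ∈ p.W ∧ ((φ.re : ℝ) : ℂ) ∈ V p.α := by
  have hpi := Real.pi_pos
  have hc1 : Real.cos ((φ.re - p.α) / 2) ≠ 0 := by
    apply cos_ne_zero_of_ne
    intro j hj
    have := h1 j
    rw [hj] at this
    simp at this
    linarith
  have hc2 : Real.cos ((φ.re + p.α) / 2) ≠ 0 := by
    have := cos_ne_zero_of_ne (x := φ.re) (α := -p.α) (by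
      intro j hj
      have := h2 j
      rw [hj] at this
      have e : Real.pi + -p.α + 2 * Real.pi * j - (Real.pi - p.α + 2 * Real.pi * j) = 0 := by ring
      rw [e] at this
      simp at this
      linarith)
    rwa [sub_neg_eq_add] at this
  have hv := Lam_vertical (α := p.α) (σ := σ) p.hα p.hαpi hσ (x := φ.re) (y := -φ.im)
    (by linarith) hc1 hc2 (fun j => (h1 j).le) (fun j => (h2 j).le)
  have e : ((φ.re : ℝ) : ℂ) - ((-φ.im : ℝ) : ℂ) * I = φ := by
    push_cast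
    rw [neg_mul, sub_neg_eq_add, Complex.re_add_im]
  rw [e] at hv
  have hVr : ((φ.re : ℝ) : ℂ) ∈ V p.α := mem_V_of_cos (by simpa using hc1) (by simpa using hc2)
  have him := (Complex.abs_im_le_norm (Lam p.α φ - Lam p.α φ.re)).trans hv
  rw [Complex.sub_im, abs_le] at him
  refine ⟨⟨mem_V_of_cos hc1 hc2, ?_⟩, hVr⟩
  rcases Lam_im_real p.hα p.hαpi hVr (by simp) with h3 | h3 <;> rw [h3] at him <;>
    constructor <;> linarith [him.1, him.2]

/-- Points below (or on) the real axis near `0`. -/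
lemma mem_W_near {φ : ℂ} (h1 : |φ.re| ≤ 1) (h2 : -(1 / 2) ≤ φ.im) :
    φ ∈ p.W ∧ ((φ.re : ℝ) : ℂ) ∈ p.W ∧ (Lam p.α (φ.re : ℝ)).im = 0 := by
  have hpi := Real.pi_gt_three
  have hα := p.hα
  have hα1 := p.hα1
  have hs := p.hs
  have hα2 := p.hα2
  have hVmem : ∀ w : ℂ, |w.re| ≤ 1 → w ∈ V p.α := by
    intro w hw
    rw [abs_le] at hw
    apply mem_V_of_cos
    · exact (Real.cos_pos_of_mem_Ioo ⟨by linarith [hw.1], by linarith [hw.2]⟩).ne'
    · exact (Real.cos_pos_of_mem_Ioo ⟨by linarith [hw.1], by linarith [hw.2]⟩).ne'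
  have hVr : ((φ.re : ℝ) : ℂ) ∈ V p.α := hVmem _ (by simpa using h1)
  have hWr : ((φ.re : ℝ) : ℂ) ∈ p.W := p.mem_W_of_im_nonneg hVr (by simp)
  have hz : (Lam p.α (φ.re : ℝ)).im = 0 := by
    apply Lam_im_real_zero p.hα p.hαpi hVr (by simp)
    have hc1 : 0 < Real.cos p.α := Real.cos_pos_of_mem_Ioo ⟨by linarith, by linarith⟩
    have hc2 : 0 < Real.cos φ.re := by
      rw [abs_le] at h1
      exact Real.cos_pos_of_mem_Ioo ⟨by linarith [h1.1], by linarith [h1.2]⟩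
    simpa using add_pos hc1 hc2
  refine ⟨?_, hWr, hz⟩
  rcases le_or_gt 0 φ.im with h | h
  · exact p.mem_W_of_im_nonneg (hVmem φ h1) h
  · have hL := Lam_lipschitz p.hα p.hα1 (u := φ) (v := (φ.re : ℝ)) h1 (by simpa using h1)
    have e : φ - ((φ.re : ℝ) : ℂ) = φ.im * I := by
      apply Complex.ext <;> simp
    rw [e, norm_mul, Complex.norm_I, mul_one, Complex.norm_real, Real.norm_eq_abs,
      abs_of_neg h] at hL
    have him := (Complex.abs_im_le_norm (Lam p.α φ - Lam p.α φ.re)).trans hL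
    rw [Complex.sub_im, hz, abs_le] at him
    have : 2 * p.α * -φ.im ≤ p.α := by nlinarith
    exact ⟨hVmem φ h1, by linarith [him.1], by linarith [him.2]⟩

lemma P_neg {κ : ℝ} (hκ : 0 < κ) (u : ℂ) : P κ (-u) = P κ u := by
  by_cases h : u = 0
  · subst h; simp
  · rw [P_of_ne hκ h, P_of_ne hκ (neg_ne_zero.2 h), mul_neg, Complex.sinh_neg, Complex.sinh_neg,
      neg_div_neg_eq]

lemma G_zero : p.G 0 = 0 := by
  have hz := (p.mem_W_near (φ := 0) (by simp) (by norm_num))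
  have h0 : (Lam p.α 0).im = 0 := by simpa using hz.2.2
  have key := exp_Lam_mul hz.1.1
  simp only [mul_zero, Complex.exp_zero, one_mul] at key
  have hne : (1 : ℂ) + Complex.exp (I * p.α) ≠ 0 := by
    have := Complex.slitPlane_ne_zero hz.1.1.2
    simpa using this
  have h1 : Complex.exp (Lam p.α 0) = 1 := by
    have : Complex.exp (Lam p.α 0) * (1 + Complex.exp (I * p.α)) =
      1 * (1 + Complex.exp (I * p.α)) := by rw [key]; ring
    exact mul_right_cancel₀ hne this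
  have h2 : Lam p.α 0 = 0 := by
    have h3 := congrArg norm h1
    rw [Complex.norm_exp, norm_one, Real.exp_eq_one_iff] at h3
    exact Complex.ext h3 h0
  have e : p.um 0 = -(p.uq 0) := by unfold um uq; rw [h2]; ring
  unfold G
  rw [e]
  unfold Q
  rw [P_neg (by linarith [p.h1])]
  simp

end Par

end Pool.Agent.HaymanWu.Lower
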