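import Mathlib
import Pool.Agent.HaymanWu.LowerGate

/-!
# Hayman–Wu lower bound: the image of a sawtooth region under the gate map
-/

open Complex Set

noncomputable section

namespace Pool.Agent.HaymanWu.Lower

/-- The region above a sawtooth with corners at `2πk/N` and slope `σ`. -/
def S (σ : ℝ) (N : ℕ) : Set ℂ := {w | ∀ k : ℤ, -w.im < σ * |w.re - 2 * Real.pi * k / N|}

lemma mem_S_of_im_pos {σ : ℝ} (hσ : 0 ≤ σ) {N : ℕ} {w : ℂ} (h : 0 < w.im) : w ∈ S σ N := by
  intro k
  have : 0 ≤ σ * |w.re - 2 * Real.pi * k / N| := by positivity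
  linarith

lemma S_mono {σ σ' : ℝ} (h : σ ≤ σ') {N : ℕ} {w : ℂ} (hw : w ∈ S σ N) : w ∈ S σ' N := by
  intro k
  refine (hw k).trans_le ?_
  gcongr

lemma S_im {σ : ℝ} (hσ : 0 ≤ σ) {N : ℕ} (hN : 0 < N) {w : ℂ} (hw : w ∈ S σ N) :
    -w.im < σ * (Real.pi / N) ∨ 0 < w.im := by
  by_cases h : 0 < w.im
  · right; exact h
  · left
    have hN' : (0 : ℝ) < N := by exact_mod_cast hN
    have hpi := Real.pi_pos
    have h1 := hw (round (w.re * N / (2 * Real.pi)))
    refine h1.trans_le ?_
    apply mul_le_mul_of_nonneg_left _ hσ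
    have h2 := abs_sub_round (w.re * N / (2 * Real.pi))
    have e : w.re - 2 * Real.pi * (round (w.re * N / (2 * Real.pi)) : ℝ) / N =
        (2 * Real.pi / N) * (w.re * N / (2 * Real.pi) - (round (w.re * N / (2 * Real.pi)) : ℝ)) := by
      field_simp
    rw [e, abs_mul, abs_of_pos (by positivity)]
    calc 2 * Real.pi / N * |w.re * N / (2 * Real.pi) - (round (w.re * N / (2 * Real.pi)) : ℝ)| ≤
        2 * Real.pi / N * (1 / 2) := by gcongr
      _ = Real.pi / N := by ring

namespace Par

variable (p : Par)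

lemma lip_const : 2 * (p.C * p.α) ≤ 1 / 32 := by
  have := p.hα3
  have := p.hs'
  linarith

lemma G_real_near {x : ℝ} (hx : |x| ≤ 1) : (p.G x).im = 0 := by
  have h := p.mem_W_near (φ := (x : ℂ)) (by simpa using hx) (by simp)
  have h0 : (Lam p.α (x : ℂ)).im = 0 := by simpa using h.2.2
  rw [p.G_im_of_Lam_im_zero h.1 h0]
  simp

lemma G_lip_zero {φ : ℂ} (h1 : |φ.re| ≤ 1) (h2 : -(1 / 2) ≤ φ.im) :
    ‖p.G φ - φ‖ ≤ 1 / 32 * ‖φ‖ := by
  have h := p.G_lip (p.mem_W_near h1 h2).1 (p.mem_W_near (φ := 0) (by simp) (by norm_num)).1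
    h1 (by simp)
  rw [G_zero, sub_zero, sub_zero, sub_zero] at h
  refine h.trans ?_
  have := p.lip_const
  gcongr

lemma G_lip_vert {φ : ℂ} (h1 : |φ.re| ≤ 1) (h2 : -(1 / 2) ≤ φ.im) :
    |(p.G φ).im - φ.im| ≤ 1 / 32 * |φ.im| := by
  have hW := p.mem_W_near h1 h2
  have h := p.G_lip hW.1 hW.2.1 h1 (by simpa using h1)
  have e : φ - ((φ.re : ℝ) : ℂ) = φ.im * I := by apply Complex.ext <;> simp
  rw [e, norm_mul, Complex.norm_I, mul_one, Complex.norm_real, Real.norm_eq_abs] at h
  have h3 := (Complex.abs_im_le_norm _).trans h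
  simp only [Complex.sub_im, Complex.ofReal_im, sub_zero] at h3
  rw [p.G_real_near (by simpa using h1), sub_zero] at h3
  refine h3.trans ?_
  have := p.lip_const
  gcongr

lemma G_deriv : ∃ c : ℝ, 1 / 2 ≤ c ∧ HasDerivAt p.G (c : ℂ) 0 := by
  have h0W := (p.mem_W_near (φ := 0) (by simp) (by norm_num)).1
  have hd : DifferentiableAt ℂ p.G 0 := p.G_differentiableOn.differentiableAt
    (p.isOpen_W.mem_nhds h0W)
  set c := deriv p.G 0 with hc
  have hder : HasDerivAt p.G c 0 := hd.hasDerivAt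
  -- the derivative is real
  have him : c.im = 0 := by
    have h1 : HasDerivAt (fun z => -I * p.G z) (-I * c) ((0 : ℝ) : ℂ) := by
      simpa using hder.const_mul (-I)
    have h2 := h1.real_of_complex
    have h3 : (fun x : ℝ => (-I * p.G x).re) =ᶠ[nhds 0] fun _ => 0 := by
      filter_upwards [Icc_mem_nhds (show (-1 : ℝ) < 0 by norm_num) (show (0 : ℝ) < 1 by norm_num)]
        with x hx
      have := p.G_real_near (x := x) (abs_le.2 hx)
      simp [this]
    have h4 := (hasDerivAt_const (0 : ℝ) (0 : ℝ)).congr_of_eventuallyEq h3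
    have h5 := h2.unique h4
    simpa using h5
  have hnorm : ‖c - 1‖ ≤ 1 / 32 := by
    have h1 : HasDerivAt (fun z => p.G z - z) (c - 1) 0 := hder.sub (hasDerivAt_id 0)
    refine h1.le_of_lip' (by norm_num) ?_
    have hev : ∀ᶠ z : ℂ in nhds 0, |z.re| ≤ 1 ∧ -(1 / 2) ≤ z.im := by
      have : {z : ℂ | ‖z‖ < 1 / 2} ∈ nhds (0 : ℂ) := by
        have := Metric.ball_mem_nhds (0 : ℂ) (show (0 : ℝ) < 1 / 2 by norm_num)
        simpa [Metric.ball, dist_zero_right] using this
      filter_upwards [this] with z hz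
      have hz' : ‖z‖ < 1 / 2 := hz
      have h1 := Complex.abs_re_le_norm z
      have h2 := Complex.abs_im_le_norm z
      rw [abs_le] at h2
      constructor
      · linarith
      · linarith [h2.1]
    filter_upwards [hev] with z hz
    have := p.G_lip_zero hz.1 hz.2
    rw [G_zero]
    simpa using this
  refine ⟨c.re, ?_, ?_⟩
  · have := (Complex.abs_re_le_norm (c - 1)).trans hnorm
    rw [Complex.sub_re, Complex.one_re, abs_le] at this
    linarith [this.1]
  · have : ((c.re : ℝ) : ℂ) = c := Complex.ext (by simp) (by simp [him])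
    rw [this]; exact hder


lemma S_subset_W {q m : ℕ} (hq0 : 0 < q) (hm : 0 < m) (hq : p.α = Real.pi / q) {σ : ℝ}
    (hσ : 0 ≤ σ) (hσs : σ < p.s) {φ : ℂ} (hφ : φ ∈ S σ (2 * q * m)) : φ ∈ p.W := by
  by_cases h : 0 < φ.im
  · exact p.mem_W_of_im_pos h
  · push Not at h
    have hq' : (0 : ℝ) < q := by exact_mod_cast hq0
    have hm' : (0 : ℝ) < m := by exact_mod_cast hm
    refine (p.mem_W_below hσ hσs h ?_ ?_).1
    · intro j
      have := hφ (m * (q + 1) + 2 * q * m * j)
      have e : 2 * Real.pi * ((m * (q + 1) + 2 * q * m * j : ℤ) : ℝ) / ((2 * q * m : ℕ) : ℝ) =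
          Real.pi + p.α + 2 * Real.pi * j := by
        rw [hq]; push_cast; field_simp
      rwa [e] at this
    · intro j
      have := hφ (m * (q - 1) + 2 * q * m * j)
      have e : 2 * Real.pi * ((m * (q - 1) + 2 * q * m * j : ℤ) : ℝ) / ((2 * q * m : ℕ) : ℝ) =
          Real.pi - p.α + 2 * Real.pi * j := by
        rw [hq]; push_cast; field_simp
      rwa [e] at this

lemma G_sub_int (φ : ℂ) (k : ℤ) : p.G (φ - 2 * Real.pi * k) = p.G φ - 2 * Real.pi * k := by
  have hnat : ∀ (n : ℕ) (φ : ℂ), p.G (φ + 2 * Real.pi * n) = p.G φ + 2 * Real.pi * n := by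
    intro n
    induction n with
    | zero => intro φ; simp
    | succ n ih =>
      intro φ
      have : φ + 2 * Real.pi * ((n + 1 : ℕ) : ℂ) = (φ + 2 * Real.pi * n) + 2 * Real.pi := by
        push_cast; ring
      rw [this, G_add, ih]
      push_cast; ring
  rcases Int.eq_nat_or_neg k with ⟨n, rfl | rfl⟩
  · have := hnat n (φ - 2 * Real.pi * n)
    rw [sub_add_cancel] at this
    push_cast
    rw [this]; ring
  · have := hnat n φ
    push_cast
    rw [mul_neg, sub_neg_eq_add, sub_neg_eq_add, this]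

lemma S_sub_int {σ : ℝ} {N : ℕ} (hN : 0 < N) {φ : ℂ} (hφ : φ ∈ S σ N) (k : ℤ) :
    φ - 2 * Real.pi * k ∈ S σ N := by
  intro j
  have := hφ (j + k * N)
  have hN' : (N : ℝ) ≠ 0 := by exact_mod_cast hN.ne'
  have e1 : (φ - 2 * Real.pi * k).im = φ.im := by simp
  have e2 : (φ - 2 * Real.pi * k).re - 2 * Real.pi * j / N =
      φ.re - 2 * Real.pi * ((j + k * N : ℤ) : ℝ) / N := by
    simp
    field_simp
    ring
  rw [e1, e2]
  exact this

lemma wedge_lin {c σ σ' η x y gi gr : ℝ} (hc : 1 / 2 ≤ c) (hσ' : 0 < σ') (hσ1 : σ' ≤ 1 / 4)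
    (hη : η = (σ' - σ) / 8) (hη0 : 0 < η) (hx : 0 < x) (hy : y < σ * x)
    (hi : gi ≤ c * y + 2 * η * x) (hr : c * x - 2 * η * x ≤ gr) : gi < σ' * gr := by
  have h6 : σ' * (c * x - 2 * η * x) ≤ σ' * gr := mul_le_mul_of_nonneg_left hr hσ'.le
  have h8 : c * y < c * (σ * x) := mul_lt_mul_of_pos_left hy (by linarith)
  have h9 : c * σ + 2 * η ≤ σ' * (c - 2 * η) := by
    have h11 : 2 * (1 + σ') ≤ 8 * c := by linarith
    have h12 := mul_le_mul_of_nonneg_left h11 hη0.le
    have h10 : σ = σ' - 8 * η := by rw [hη]; ring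
    rw [h10]
    linarith
  have h10 : (c * σ + 2 * η) * x ≤ σ' * (c - 2 * η) * x := mul_le_mul_of_nonneg_right h9 hx.le
  linarith

lemma image_S {q : ℕ} (hq0 : 0 < q) (hq : p.α = Real.pi / q) {σ σ' : ℝ}
    (h1 : p.s / 2 ≤ σ) (h2 : σ < σ') (h3 : σ' ≤ p.s) :
    ∃ M0 : ℕ, 0 < M0 ∧ ∀ m : ℕ, M0 ≤ m → ∀ φ ∈ S σ (2 * q * m), φ ∈ p.W ∧ p.G φ ∈ S σ' 1 := by
  have hs := p.hs
  have hs' := p.hs'
  have hσ : 0 < σ := by linarith
  have hσ'pos : 0 < σ' := by linarith
  have hpi := Real.pi_pos
  have hq' : (0 : ℝ) < q := by exact_mod_cast hq0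
  obtain ⟨c, hc, hder⟩ := p.G_deriv
  -- linearisation at zero
  set η : ℝ := (σ' - σ) / 8 with hη
  have hηpos : 0 < η := by rw [hη]; linarith
  obtain ⟨r, hr, hlin⟩ : ∃ r : ℝ, 0 < r ∧ ∀ φ : ℂ, ‖φ‖ < r → ‖p.G φ - c * φ‖ ≤ η * ‖φ‖ := by
    have h := hder.isLittleO.bound hηpos
    rw [Metric.eventually_nhds_iff] at h
    obtain ⟨r, hr, h⟩ := h
    refine ⟨r, hr, fun φ hφ => ?_⟩
    have := h (y := φ) (by simpa [dist_zero_right] using hφ)
    rw [G_zero] at this
    simpa [mul_comm] using this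
  obtain ⟨M, hM⟩ := exists_nat_gt (max (16 * Real.pi / (2 * q)) (8 * σ * Real.pi / (2 * q) / (σ' * r)))
  refine ⟨M + 1, by omega, ?_⟩
  intro m hm
  have hmM : (M : ℝ) < m := by exact_mod_cast hm
  have hm0 : 0 < m := by omega
  have hm' : (0 : ℝ) < m := by exact_mod_cast hm0
  have hmax1 : 16 * Real.pi / (2 * q) < m := (le_max_left _ _).trans_lt (hM.trans hmM)
  have hmax2 : 8 * σ * Real.pi / (2 * q) / (σ' * r) < m := (le_max_right _ _).trans_lt (hM.trans hmM)
  have hN : 0 < 2 * q * m := by positivity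
  have hNc : ((2 * q * m : ℕ) : ℝ) = 2 * q * m := by push_cast; ring
  have hb1 : σ * (Real.pi / ((2 * q * m : ℕ) : ℝ)) ≤ σ / 16 := by
    rw [hNc]
    rw [div_lt_iff₀ (by positivity)] at hmax1
    have : Real.pi / (2 * q * m) ≤ 1 / 16 := by
      rw [div_le_div_iff₀ (by positivity) (by norm_num)]
      linarith
    calc σ * (Real.pi / (2 * q * m)) ≤ σ * (1 / 16) := by gcongr
      _ = σ / 16 := by ring
  have hb2 : 8 * (σ * (Real.pi / ((2 * q * m : ℕ) : ℝ))) < σ' * r := by
    rw [hNc]
    rw [div_lt_iff₀ (by nlinarith)] at hmax2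
    have e : 8 * (σ * (Real.pi / (2 * q * m))) = 8 * σ * Real.pi / (2 * q) / m := by
      field_simp
    rw [e, div_lt_iff₀ hm']
    linarith
  -- the claim for the corner `0`
  have claim : ∀ φ ∈ S σ (2 * q * m), -(p.G φ).im < σ' * |(p.G φ).re| := by
    intro φ hφ
    have hW : φ ∈ p.W := p.S_subset_W hq0 hm0 hq hσ.le (by linarith) hφ
    have him := S_im hσ.le hN hφ
    have him' : -φ.im < σ / 16 := by
      rcases him with h | h
      · linarith
      · linarith
    rcases le_or_gt 1 |φ.re| with hre | hre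
    · -- far from zero
      have hn := p.G_near hW
      have hα3 := p.hα3
      have hi := (Complex.abs_im_le_norm _).trans (hn.trans hα3)
      have hr' := (Complex.abs_re_le_norm _).trans (hn.trans hα3)
      rw [Complex.sub_im] at hi
      rw [Complex.sub_re] at hr'
      have hi' := (abs_le.1 hi).1
      have h5 : 1 - p.s / 16 ≤ |(p.G φ).re| := by
        have h6 := abs_sub_abs_le_abs_sub φ.re (p.G φ).re
        rw [abs_sub_comm] at h6
        linarith
      have h6 : σ' * (1 - p.s / 16) ≤ σ' * |(p.G φ).re| :=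
        mul_le_mul_of_nonneg_left h5 (by linarith)
      have h7 : σ' * (1 / 2) ≤ σ' * (1 - p.s / 16) :=
        mul_le_mul_of_nonneg_left (by linarith) hσ'pos.le
      linarith
    · have hre1 : |φ.re| ≤ 1 := hre.le
      have him2 : -(1 / 2) ≤ φ.im := by linarith
      have hv := p.G_lip_vert hre1 him2
      rcases lt_or_ge 0 φ.im with hpos | hneg
      · rw [abs_of_pos hpos] at hv
        have := (abs_le.1 hv).1
        have h7 : 0 ≤ σ' * |(p.G φ).re| := by positivity
        linarith
      · -- below the real axis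
        have h0 := hφ 0
        simp only [Int.cast_zero, mul_zero, zero_div, sub_zero] at h0
        have hy : -φ.im ≤ |φ.re| := by
          have : σ * |φ.re| ≤ 1 * |φ.re| := mul_le_mul_of_nonneg_right (by linarith) (abs_nonneg _)
          linarith
        have hnorm : ‖φ‖ ≤ |φ.re| + -φ.im := by
          have := Complex.norm_le_abs_re_add_abs_im φ
          rwa [abs_of_nonpos hneg] at this
        have hxpos : 0 < |φ.re| := by
          by_contra hcon
          push Not at hcon
          have : |φ.re| = 0 := le_antisymm hcon (abs_nonneg _)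
          rw [this] at h0
          linarith
        rcases lt_or_ge |φ.re| (r / 2) with hsm | hlg
        · have hφr : ‖φ‖ < r := by linarith
          have hl := hlin φ hφr
          have hl2 : ‖p.G φ - c * φ‖ ≤ 2 * η * |φ.re| := by
            refine hl.trans ?_
            have : η * ‖φ‖ ≤ η * (2 * |φ.re|) :=
              mul_le_mul_of_nonneg_left (by linarith) hηpos.le
            linarith
          have hi := (Complex.abs_im_le_norm _).trans hl2
          have hr' := (Complex.abs_re_le_norm _).trans hl2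
          simp only [Complex.sub_im, Complex.sub_re, Complex.mul_im, Complex.mul_re,
            Complex.ofReal_re, Complex.ofReal_im, zero_mul, sub_zero, add_zero] at hi hr'
          have hi' := (abs_le.1 hi).1
          have h5 : c * |φ.re| - 2 * η * |φ.re| ≤ |(p.G φ).re| := by
            have h6 := abs_sub_abs_le_abs_sub (c * φ.re) (p.G φ).re
            rw [abs_sub_comm, abs_mul, abs_of_pos (by linarith : (0:ℝ) < c)] at h6
            linarith
          have h7 : -(p.G φ).im ≤ c * (-φ.im) + 2 * η * |φ.re| := by linarith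
          exact wedge_lin hc hσ'pos (by linarith) hη hηpos hxpos h0 h7 h5
        · have hz := p.G_lip_zero hre1 him2
          have hr' := (Complex.abs_re_le_norm _).trans hz
          rw [Complex.sub_re] at hr'
          have h5 : |φ.re| / 2 ≤ |(p.G φ).re| := by
            have h6 := abs_sub_abs_le_abs_sub φ.re (p.G φ).re
            rw [abs_sub_comm] at h6
            linarith
          rw [abs_of_nonpos hneg] at hv
          have hv' := (abs_le.1 hv).1
          have h6 : -(p.G φ).im ≤ 2 * (-φ.im) := by linarith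
          have h7 : -φ.im < σ * (Real.pi / ((2 * q * m : ℕ) : ℝ)) := by
            rcases him with h | h
            · exact h
            · linarith
          have h8 : σ' * (|φ.re| / 2) ≤ σ' * |(p.G φ).re| :=
            mul_le_mul_of_nonneg_left h5 (by linarith)
          have h9 : σ' * (r / 2) ≤ σ' * |φ.re| := mul_le_mul_of_nonneg_left hlg (by linarith)
          linarith
  intro φ hφ
  refine ⟨p.S_subset_W hq0 hm0 hq hσ.le (by linarith) hφ, ?_⟩
  intro k
  have h4 := claim _ (S_sub_int hN hφ k)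
  rw [G_sub_int] at h4
  have e1 : (p.G φ - 2 * Real.pi * k).im = (p.G φ).im := by simp
  have e2 : (p.G φ - 2 * Real.pi * k).re = (p.G φ).re - 2 * Real.pi * k / (1 : ℕ) := by simp
  rw [e1, e2] at h4
  exact h4

/-- `G` maps the real points outside the gate into the same period. -/
lemma G_real_pos {x : ℝ} (hx : 0 < x) (hW : (x : ℂ) ∈ p.W) : 0 < (p.G x).re := by
  rcases le_or_gt x 1 with h | h
  · have hz := p.G_lip_zero (φ := x) (by simp [abs_of_pos hx, h]) (by simp)
    have hr' := (Complex.abs_re_le_norm _).trans hz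
    rw [Complex.sub_re, Complex.ofReal_re, Complex.norm_real, Real.norm_eq_abs, abs_of_pos hx] at hr'
    linarith [(abs_le.1 hr').1]
  · have hn := p.G_near hW
    have hα3 := p.hα3
    have hs' := p.hs'
    have hr' := (Complex.abs_re_le_norm _).trans (hn.trans hα3)
    rw [Complex.sub_re, Complex.ofReal_re] at hr'
    linarith [(abs_le.1 hr').1]

lemma G_real_neg {x : ℝ} (hx : x < 0) (hW : (x : ℂ) ∈ p.W) : (p.G x).re < 0 := by
  rcases le_or_gt (-1) x with h | h
  · have hz := p.G_lip_zero (φ := x) (by simp [abs_of_neg hx]; linarith) (by simp)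
    have hr' := (Complex.abs_re_le_norm _).trans hz
    rw [Complex.sub_re, Complex.ofReal_re, Complex.norm_real, Real.norm_eq_abs, abs_of_neg hx] at hr'
    linarith [(abs_le.1 hr').2]
  · have hn := p.G_near hW
    have hα3 := p.hα3
    have hs' := p.hs'
    have hr' := (Complex.abs_re_le_norm _).trans (hn.trans hα3)
    rw [Complex.sub_re, Complex.ofReal_re] at hr'
    linarith [(abs_le.1 hr').2]

lemma W_sub_int {φ : ℂ} (h : φ ∈ p.W) : φ - 2 * Real.pi ∈ p.W := by
  have e : Lam p.α (φ - 2 * Real.pi) = Lam p.α φ := by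
    have := Lam_add_two_pi p.α (φ - 2 * Real.pi)
    rw [sub_add_cancel] at this
    exact this.symm
  refine ⟨?_, by rw [e]; exact h.2⟩
  have h1 : Complex.exp (I * (φ - 2 * Real.pi - p.α)) = Complex.exp (I * (φ - p.α)) := by
    rw [show I * (φ - p.α) = I * (φ - 2 * Real.pi - p.α) + 2 * Real.pi * I by ring]
    exact (Complex.exp_periodic _).symm
  have h2 : Complex.exp (I * (φ - 2 * Real.pi + p.α)) = Complex.exp (I * (φ + p.α)) := by
    rw [show I * (φ + p.α) = I * (φ - 2 * Real.pi + p.α) + 2 * Real.pi * I by ring]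
    exact (Complex.exp_periodic _).symm
  have h3 := h.1
  unfold V at h3 ⊢
  rw [mem_ofPred_eq, h1, h2]
  exact h3

lemma G_real_period {x : ℝ} (hx : 0 < x) (hx' : x < 2 * Real.pi) (hW : (x : ℂ) ∈ p.W) :
    0 < (p.G x).re ∧ (p.G x).re < 2 * Real.pi := by
  refine ⟨p.G_real_pos hx hW, ?_⟩
  have h1 := p.W_sub_int hW
  have e : (x : ℂ) - 2 * Real.pi = ((x - 2 * Real.pi : ℝ) : ℂ) := by push_cast; ring
  rw [e] at h1
  have h2 := p.G_real_neg (x := x - 2 * Real.pi) (by linarith) h1
  rw [← e] at h2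
  have h3 := p.G_sub_int x 1
  simp only [Int.cast_one, mul_one] at h3
  rw [h3] at h2
  simp at h2
  linarith

/-- Real points outside the gates: `G` is real there. -/
lemma G_real_E {x : ℝ} (hx : (0 < x ∧ x < Real.pi - p.α) ∨ (Real.pi + p.α < x ∧ x < 2 * Real.pi)) :
    (p.G x).im = 0 ∧ 0 < (p.G x).re ∧ (p.G x).re < 2 * Real.pi := by
  have hpi := Real.pi_pos
  have hα := p.hα
  have hα1 := p.hα1
  have hpi3 := Real.pi_gt_three
  have hcos : 0 < Real.cos p.α + Real.cos x := by
    rcases hx with ⟨h1, h2⟩ | ⟨h1, h2⟩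
    · have := Real.cos_lt_cos_of_nonneg_of_le_pi h1.le (by linarith) h2
      rw [Real.cos_pi_sub] at this
      linarith
    · have h3 := Real.cos_lt_cos_of_nonneg_of_le_pi (x := 2 * Real.pi - x) (y := Real.pi - p.α)
        (by linarith) (by linarith) (by linarith)
      rw [Real.cos_pi_sub, Real.cos_two_pi_sub] at h3
      linarith
  have hV : (x : ℂ) ∈ V p.α := by
    have e : Real.cos p.α + Real.cos x = 2 * Real.cos ((x + p.α) / 2) * Real.cos ((x - p.α) / 2) := by
      rw [add_comm, Real.cos_add_cos]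
    rw [e] at hcos
    apply mem_V_of_cos
    · simp only [Complex.ofReal_re]
      intro h; rw [h] at hcos; simp at hcos
    · simp only [Complex.ofReal_re]
      intro h; rw [h] at hcos; simp at hcos
  have hW : (x : ℂ) ∈ p.W := p.mem_W_of_im_nonneg hV (by simp)
  have h0 : (Lam p.α (x : ℂ)).im = 0 := Lam_im_real_zero p.hα p.hαpi hV (by simp) (by simpa using hcos)
  refine ⟨?_, ?_⟩
  · rw [p.G_im_of_Lam_im_zero hW h0]; simp
  · apply p.G_real_period _ _ hW
    · rcases hx with h | h <;> linarith [h.1]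
    · rcases hx with h | h <;> linarith [h.2]

end Par

end Pool.Agent.HaymanWu.Lower
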