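import Mathlib

/-!
# Hayman–Wu lower bound: elementary lower bounds for one-dimensional Hausdorff measure
-/

open Complex Set MeasureTheory Filter Topology
open scoped ENNReal NNReal

noncomputable section

namespace Pool.Agent.HaymanWu.Lower

/-- A point of the circle of radius `ρ`. -/
def circ (ρ ψ : ℝ) : ℂ := ρ * Complex.exp (ψ * I)

lemma circ_re (ρ ψ : ℝ) : (circ ρ ψ).re = ρ * Real.cos ψ := by
  simp [circ, Complex.exp_re]

lemma circ_im (ρ ψ : ℝ) : (circ ρ ψ).im = ρ * Real.sin ψ := by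
  simp [circ, Complex.exp_im]

lemma continuous_circ (ρ : ℝ) : Continuous (circ ρ) := by
  unfold circ; fun_prop

lemma norm_circ {ρ : ℝ} (hρ : 0 < ρ) (ψ : ℝ) : ‖circ ρ ψ‖ = ρ := by
  unfold circ
  rw [norm_mul, Complex.norm_exp_ofReal_mul_I, mul_one, Complex.norm_real, Real.norm_eq_abs,
    abs_of_pos hρ]

lemma arc_piece {ρ a h : ℝ} (hρ : 0 < ρ) (hh : 0 < h) (hh' : h < Real.pi / 2) :
    ENNReal.ofReal (ρ * Real.sin h) ≤ μH[1] (circ ρ '' Ico a (a + h)) := by
  let f : ℂ → ℝ := fun w => (w * Complex.exp (-a * I)).im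
  have hexp : ‖Complex.exp (-a * I)‖ = 1 := by
    have := Complex.norm_exp_ofReal_mul_I (-a)
    simpa using this
  have hf : LipschitzWith 1 f := by
    apply LipschitzWith.of_dist_le_mul
    intro u v
    simp only [f, NNReal.coe_one, one_mul, dist_eq_norm]
    rw [← Complex.sub_im, ← sub_mul]
    refine (Complex.abs_im_le_norm _).trans ?_
    rw [norm_mul, hexp, mul_one]
  have h1 := hf.hausdorffMeasure_image_le (d := 1) zero_le_one (circ ρ '' Ico a (a + h))
  simp only [ENNReal.coe_one, ENNReal.one_rpow, one_mul] at h1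
  refine le_trans ?_ h1
  rw [hausdorffMeasure_real]
  have hsub : Ico 0 (ρ * Real.sin h) ⊆ f '' (circ ρ '' Ico a (a + h)) := by
    intro t ht
    have hpi := Real.pi_pos
    have h2 : 0 ≤ t / ρ := div_nonneg ht.1 hρ.le
    have h3 : t / ρ < Real.sin h := by
      rw [div_lt_iff₀ hρ]; linarith [ht.2]
    have h4 : Real.arcsin (t / ρ) < h := by
      have := Real.arcsin_lt_iff_lt_sin' (x := t / ρ) (y := h) ⟨by linarith, by linarith⟩
      exact this.2 h3
    have h5 : 0 ≤ Real.arcsin (t / ρ) := Real.arcsin_nonneg.2 h2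
    refine ⟨circ ρ (a + Real.arcsin (t / ρ)), ⟨_, ⟨by linarith, by linarith⟩, rfl⟩, ?_⟩
    simp only [f, circ]
    have e : (ρ : ℂ) * Complex.exp (((a + Real.arcsin (t / ρ) : ℝ) : ℂ) * I) *
        Complex.exp (-a * I) = circ ρ (Real.arcsin (t / ρ)) := by
      unfold circ
      rw [mul_assoc, ← Complex.exp_add]
      congr 2
      push_cast; ring
    rw [e, circ_im, Real.sin_arcsin (by linarith) (by linarith [Real.sin_le_one h])]
    field_simp
  have h2 := measure_mono (μ := volume) hsub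
  rw [Real.volume_Ico, sub_zero] at h2
  exact h2

lemma circ_injOn {ρ a b : ℝ} (hρ : 0 < ρ) (hab : b - a ≤ 2 * Real.pi) :
    InjOn (circ ρ) (Ico a b) := by
  intro x hx y hy hxy
  unfold circ at hxy
  have h1 : Complex.exp (x * I) = Complex.exp (y * I) :=
    mul_left_cancel₀ (by exact_mod_cast hρ.ne') hxy
  rw [Complex.exp_eq_exp_iff_exists_int] at h1
  obtain ⟨n, hn⟩ := h1
  have h2 : x = y + n * (2 * Real.pi) := by
    have := congrArg Complex.im hn
    simpa using this
  have hpi := Real.pi_pos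
  have h3 : (n : ℝ) < 1 := by
    have : n * (2 * Real.pi) < 2 * Real.pi := by linarith [hx.2, hy.1]
    by_contra hcon
    push Not at hcon
    nlinarith
  have h4 : (-1 : ℝ) < n := by
    have : -(2 * Real.pi) < n * (2 * Real.pi) := by linarith [hx.1, hy.2]
    by_contra hcon
    push Not at hcon
    nlinarith
  have h5 : n = 0 := by
    have h6 : n < 1 := by exact_mod_cast h3
    have h7 : -1 < n := by exact_mod_cast h4
    omega
  rw [h2, h5]; simp

lemma arc_total {ρ a b : ℝ} (hρ : 0 < ρ) (hab : a < b) (hab' : b - a ≤ 2 * Real.pi) :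
    ENNReal.ofReal (ρ * (b - a)) ≤ μH[1] (circ ρ '' Ico a b) := by
  set L := b - a with hL
  have hLpos : 0 < L := by rw [hL]; linarith
  have key : ∀ n : ℕ, L < n → ENNReal.ofReal (ρ * (L - L ^ 3 / n)) ≤ μH[1] (circ ρ '' Ico a b) := by
    intro n hn
    have hn0 : (0 : ℝ) < n := hLpos.trans hn
    have hn1 : (1 : ℝ) ≤ n := by
      have : 0 < n := by exact_mod_cast hn0
      exact_mod_cast this
    set h := L / n with hh
    have hpos : 0 < h := by positivity
    have hlt1 : h < 1 := by rw [hh, div_lt_one hn0]; exact hn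
    have hlt : h < Real.pi / 2 := by linarith [Real.pi_gt_three]
    have hsub : (⋃ i ∈ Finset.range n, circ ρ '' Ico (a + i * h) (a + i * h + h)) ⊆
        circ ρ '' Ico a b := by
      intro w hw
      simp only [mem_iUnion, Finset.mem_range] at hw
      obtain ⟨i, hi, x, hx, rfl⟩ := hw
      refine ⟨x, ⟨?_, ?_⟩, rfl⟩
      · have : 0 ≤ (i : ℝ) * h := by positivity
        linarith [hx.1]
      · have h1 : (i : ℝ) + 1 ≤ n := by exact_mod_cast hi
        have h2 : ((i : ℝ) + 1) * h ≤ n * h := mul_le_mul_of_nonneg_right h1 hpos.le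
        have h3 : n * h = L := by rw [hh]; field_simp
        linarith [hx.2]
    refine le_trans ?_ (measure_mono hsub)
    have hinj := circ_injOn (ρ := ρ) (a := a) (b := b) hρ hab'
    have hsubi : ∀ i ∈ Finset.range n, Ico (a + i * h) (a + i * h + h) ⊆ Ico a b := by
      intro i hi x hx
      rw [Finset.mem_range] at hi
      refine ⟨?_, ?_⟩
      · have : 0 ≤ (i : ℝ) * h := by positivity
        linarith [hx.1]
      · have h1 : (i : ℝ) + 1 ≤ n := by exact_mod_cast hi
        have h2 : ((i : ℝ) + 1) * h ≤ n * h := mul_le_mul_of_nonneg_right h1 hpos.le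
        have h3 : n * h = L := by rw [hh]; field_simp
        linarith [hx.2]
    rw [measure_biUnion_finset]
    · calc ENNReal.ofReal (ρ * (L - L ^ 3 / n)) ≤ ENNReal.ofReal (n * (ρ * Real.sin h)) := by
            apply ENNReal.ofReal_le_ofReal
            have h1 := Real.sin_gt_sub_cube hpos
            have h2 : n * (h - h ^ 3 / 6) = L - L ^ 3 / n * (1 / (6 * n)) := by
              rw [hh]; field_simp
            have h3 : L ^ 3 / n * (1 / (6 * n)) ≤ L ^ 3 / n * 1 := by
              apply mul_le_mul_of_nonneg_left _ (by positivity)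
              rw [div_le_one (by positivity)]
              linarith
            have h4 : n * (h - h ^ 3 / 6) ≤ n * Real.sin h :=
              mul_le_mul_of_nonneg_left h1.le hn0.le
            have h5 : L - L ^ 3 / n ≤ n * Real.sin h := by linarith
            calc ρ * (L - L ^ 3 / n) ≤ ρ * (n * Real.sin h) := mul_le_mul_of_nonneg_left h5 hρ.le
              _ = n * (ρ * Real.sin h) := by ring
        _ = ∑ i ∈ Finset.range n, ENNReal.ofReal (ρ * Real.sin h) := by
            rw [Finset.sum_const, Finset.card_range, nsmul_eq_mul, ENNReal.ofReal_mul hn0.le,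
              ENNReal.ofReal_natCast]
        _ ≤ ∑ i ∈ Finset.range n, μH[1] (circ ρ '' Ico (a + i * h) (a + i * h + h)) := by
            apply Finset.sum_le_sum
            intro i hi
            exact arc_piece hρ hpos hlt
    · intro i hi j hj hij
      apply Disjoint.image _ hinj (hsubi i hi) (hsubi j hj)
      rw [Set.disjoint_left]
      intro x hx hx'
      apply hij
      have h1 : (i : ℝ) * h < (j + 1) * h := by linarith [hx.1, hx'.2]
      have h2 : (j : ℝ) * h < (i + 1) * h := by linarith [hx.2, hx'.1]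
      have h3 : (i : ℝ) < j + 1 := lt_of_mul_lt_mul_right h1 hpos.le
      have h4 : (j : ℝ) < i + 1 := lt_of_mul_lt_mul_right h2 hpos.le
      have h5 : i < j + 1 := by exact_mod_cast h3
      have h6 : j < i + 1 := by exact_mod_cast h4
      omega
    · intro i hi
      exact measurableSet_Ico.image_of_continuousOn_injOn (continuous_circ ρ).continuousOn
        (hinj.mono (hsubi i hi))
  have hlim : Tendsto (fun n : ℕ => ENNReal.ofReal (ρ * (L - L ^ 3 / n))) atTop
      (𝓝 (ENNReal.ofReal (ρ * L))) := by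
    apply ENNReal.tendsto_ofReal
    have h1 : Tendsto (fun n : ℕ => L ^ 3 / (n : ℝ)) atTop (𝓝 0) :=
      tendsto_const_div_atTop_nhds_zero_nat _
    have h2 := (tendsto_const_nhds (x := L)).sub h1
    have h3 := h2.const_mul ρ
    simpa using h3
  refine le_of_tendsto hlim ?_
  filter_upwards [tendsto_natCast_atTop_atTop.eventually_gt_atTop L] with n hn
  exact key n hn

/-- A set meeting, far enough from the centre, all rays in a sector is long. -/
lemma ray_lower {ρ a b : ℝ} (hρ : 0 < ρ) (hab : a < b) (hab' : b - a ≤ 2 * Real.pi) {Z : Set ℂ}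
    {c : ℂ} (hZ : ∀ ψ ∈ Ico a b, ∃ t : ℝ, ρ ≤ t ∧ c + circ t ψ ∈ Z) :
    ENNReal.ofReal (ρ * (b - a)) ≤ μH[1] Z := by
  let f : ℂ → ℂ := fun w => (ρ / ‖w - c‖ : ℝ) * (w - c)
  set Z' : Set ℂ := Z ∩ {w | ρ ≤ ‖w - c‖} with hZ'
  have hf : LipschitzOnWith 1 f Z' := by
    apply LipschitzOnWith.of_dist_le_mul
    rintro u ⟨-, hu⟩ v ⟨-, hv⟩
    simp only [f, NNReal.coe_one, one_mul, dist_eq_norm]
    have e : ‖u - v‖ = ‖(u - c) - (v - c)‖ := by congr 1; ring
    rw [e]
    have hu' : ρ ≤ ‖u - c‖ := hu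
    have hv' : ρ ≤ ‖v - c‖ := hv
    generalize u - c = U at hu' ⊢
    generalize v - c = W at hv' ⊢
    have hU : 0 < ‖U‖ := hρ.trans_le hu'
    have hW : 0 < ‖W‖ := hρ.trans_le hv'
    rw [← sq_le_sq₀ (norm_nonneg _) (norm_nonneg _)]
    have e1 : ∀ A B : ℂ, ‖A - B‖ ^ 2 = ‖A‖ ^ 2 + ‖B‖ ^ 2 - 2 * (A * (starRingEnd ℂ) B).re := by
      intro A B
      rw [← Complex.normSq_eq_norm_sq, ← Complex.normSq_eq_norm_sq, ← Complex.normSq_eq_norm_sq,
        Complex.normSq_sub]
    rw [e1, e1]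
    have n1 : ‖((ρ / ‖U‖ : ℝ) : ℂ) * U‖ = ρ := by
      rw [norm_mul, Complex.norm_real, Real.norm_eq_abs, abs_of_pos (by positivity)]
      field_simp
    have n2 : ‖((ρ / ‖W‖ : ℝ) : ℂ) * W‖ = ρ := by
      rw [norm_mul, Complex.norm_real, Real.norm_eq_abs, abs_of_pos (by positivity)]
      field_simp
    have e2 : (((ρ / ‖U‖ : ℝ) : ℂ) * U * (starRingEnd ℂ) (((ρ / ‖W‖ : ℝ) : ℂ) * W)).re =
        ρ ^ 2 / (‖U‖ * ‖W‖) * (U * (starRingEnd ℂ) W).re := by
      rw [map_mul, Complex.conj_ofReal]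
      have : ((ρ / ‖U‖ : ℝ) : ℂ) * U * (((ρ / ‖W‖ : ℝ) : ℂ) * (starRingEnd ℂ) W) =
          ((ρ ^ 2 / (‖U‖ * ‖W‖) : ℝ) : ℂ) * (U * (starRingEnd ℂ) W) := by
        have hU' : (‖U‖ : ℂ) ≠ 0 := by exact_mod_cast hU.ne'
        have hW' : (‖W‖ : ℂ) ≠ 0 := by exact_mod_cast hW.ne'
        push_cast
        field_simp
      rw [this, Complex.re_ofReal_mul]
    rw [n1, n2, e2]
    set R := (U * (starRingEnd ℂ) W).re with hR
    have hRle : R ≤ ‖U‖ * ‖W‖ := by
      have := Complex.re_le_norm (U * (starRingEnd ℂ) W)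
      rwa [norm_mul, Complex.norm_conj] at this
    have hm : 0 < ‖U‖ * ‖W‖ := by positivity
    have hρm : ρ ^ 2 ≤ ‖U‖ * ‖W‖ := by nlinarith
    have h1 : ρ ^ 2 + ρ ^ 2 - 2 * (ρ ^ 2 / (‖U‖ * ‖W‖) * R) =
        ρ ^ 2 / (‖U‖ * ‖W‖) * (2 * (‖U‖ * ‖W‖ - R)) := by
      field_simp
      ring
    rw [h1]
    have h2 : ρ ^ 2 / (‖U‖ * ‖W‖) ≤ 1 := by rw [div_le_one hm]; exact hρm
    have h3 : ρ ^ 2 / (‖U‖ * ‖W‖) * (2 * (‖U‖ * ‖W‖ - R)) ≤ 1 * (2 * (‖U‖ * ‖W‖ - R)) :=
      mul_le_mul_of_nonneg_right h2 (by linarith)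
    nlinarith [sq_nonneg (‖U‖ - ‖W‖)]
  have h1 := hf.hausdorffMeasure_image_le (d := 1) zero_le_one
  simp only [ENNReal.coe_one, ENNReal.one_rpow, one_mul] at h1
  have h2 : circ ρ '' Ico a b ⊆ f '' Z' := by
    rintro _ ⟨ψ, hψ, rfl⟩
    obtain ⟨t, ht, htZ⟩ := hZ ψ hψ
    have ht0 : 0 < t := hρ.trans_le ht
    have hn : ‖c + circ t ψ - c‖ = t := by rw [add_sub_cancel_left, norm_circ ht0]
    refine ⟨c + circ t ψ, ⟨htZ, ?_⟩, ?_⟩
    · show ρ ≤ ‖c + circ t ψ - c‖
      rw [hn]; exact ht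
    · simp only [f]
      rw [hn, add_sub_cancel_left]
      unfold circ
      have : (t : ℂ) ≠ 0 := by exact_mod_cast ht0.ne'
      push_cast
      field_simp
  calc ENNReal.ofReal (ρ * (b - a)) ≤ μH[1] (circ ρ '' Ico a b) := arc_total hρ hab hab'
    _ ≤ μH[1] (f '' Z') := measure_mono h2
    _ ≤ μH[1] Z' := h1
    _ ≤ μH[1] Z := measure_mono inter_subset_left

end Pool.Agent.HaymanWu.Lower
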