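import Mathlib
import Pool.Agent.HaymanWu.LowerImage
import Pool.Agent.HaymanWu.LowerMeasure

/-!
# Hayman–Wu lower bound: location of the crosscut
-/

open Complex Set MeasureTheory Filter Topology
open scoped ENNReal NNReal

noncomputable section

namespace Pool.Agent.HaymanWu.Lower

lemma one_add_le_cosh (y : ℝ) : 1 + y ^ 2 / 2 ≤ Real.cosh y := by
  have h1 : Real.cosh y = 1 + 2 * Real.sinh (y / 2) ^ 2 := by
    have h2 := Real.cosh_two_mul (y / 2)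
    have h3 := Real.cosh_sq (y / 2)
    rw [show 2 * (y / 2) = y by ring, h3] at h2
    rw [h2]; ring
  have h4 : |y / 2| ≤ |Real.sinh (y / 2)| := by
    rw [Real.abs_sinh]
    exact Real.self_le_sinh_iff.2 (abs_nonneg _)
  have h5 := mul_self_le_mul_self (abs_nonneg _) h4
  rw [abs_mul_abs_self, abs_mul_abs_self] at h5
  rw [h1]; nlinarith

lemma cosh_le_of {y : ℝ} (h0 : 0 ≤ y) (h1 : y ≤ 1) : Real.cosh y ≤ 1 + y ^ 2 / 2 + y ^ 4 / 4 := by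
  have h2 := Real.cosh_le_exp_half_sq y
  have h3 : |y ^ 2 / 2| ≤ 1 := by
    rw [abs_of_nonneg (by positivity)]
    nlinarith
  have h4 := (abs_le.1 (Real.abs_exp_sub_one_sub_id_le h3)).2
  have h5 : (y ^ 2 / 2) ^ 2 = y ^ 4 / 4 := by ring
  rw [h5] at h4
  linarith

lemma sinh_le_of {y : ℝ} (h0 : 0 ≤ y) (h1 : y ≤ 1) : Real.sinh y ≤ 2 * y := by
  have h3 : |y| ≤ 1 := by rw [abs_of_nonneg h0]; exact h1
  have h3' : |-y| ≤ 1 := by rw [abs_neg, abs_of_nonneg h0]; exact h1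
  have h4 := (abs_le.1 (Real.abs_exp_sub_one_sub_id_le h3)).2
  have h5 := (abs_le.1 (Real.abs_exp_sub_one_sub_id_le h3')).1
  rw [Real.sinh_eq]
  nlinarith

lemma ineq_in {α η τ x y : ℝ} (hα : 0 < α) (hη : 0 < η) (hη1 : η ≤ 1) (hα1 : α ≤ 1 / 4)
    (hα2 : α ^ 2 ≤ η / 4) (hτ0 : 0 ≤ τ) (hτ : τ ≤ η / 16) (hy : 0 ≤ y)
    (hxy : x ^ 2 + y ^ 2 ≤ ((1 - η / 2) * α) ^ 2) :
    τ * (Real.sin α * Real.sinh y) < Real.cos x - Real.cosh y * Real.cos α := by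
  have hya : y ≤ α := by
    have h1 : y ^ 2 ≤ α ^ 2 := by
      have : ((1 - η / 2) * α) ^ 2 ≤ α ^ 2 := by
        rw [mul_pow]
        have : (1 - η / 2) ^ 2 ≤ 1 := by nlinarith
        nlinarith [sq_nonneg α]
      nlinarith [sq_nonneg x]
    exact (sq_le_sq₀ hy hα.le).1 h1
  have hpi := Real.pi_gt_three
  have c1 : 1 - x ^ 2 / 2 ≤ Real.cos x := Real.one_sub_sq_div_two_le_cos
  have c2 := cosh_le_of hy (by linarith)
  have c3 : Real.cos α ≤ 1 - α ^ 2 / 2 + 5 / 96 * α ^ 4 := by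
    have h := (abs_le.1 (Real.cos_bound (x := α) (by rw [abs_of_pos hα]; linarith))).2
    rw [abs_of_pos hα] at h
    linarith
  have c4 := sinh_le_of hy (by linarith)
  have c5 : Real.sin α ≤ α := Real.sin_le hα.le
  have c6 : 0 ≤ Real.sin α := Real.sin_nonneg_of_nonneg_of_le_pi hα.le (by linarith)
  have c7 : 0 ≤ Real.sinh y := Real.sinh_nonneg_iff.2 hy
  have c8 : 0 < Real.cosh y := Real.cosh_pos _
  have c9 : 0 < Real.cos α := Real.cos_pos_of_mem_Ioo ⟨by linarith, by linarith⟩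
  have e1 : τ * (Real.sin α * Real.sinh y) ≤ τ * (α * (2 * α)) := by
    apply mul_le_mul_of_nonneg_left _ hτ0
    apply mul_le_mul c5 _ c7 hα.le
    linarith
  have e1' : τ * (α * (2 * α)) ≤ η / 16 * (2 * α ^ 2) := by
    have : τ * (α * (2 * α)) = τ * (2 * α ^ 2) := by ring
    rw [this]
    exact mul_le_mul_of_nonneg_right hτ (by positivity)
  have e2 : Real.cosh y * Real.cos α ≤
      (1 + y ^ 2 / 2 + y ^ 4 / 4) * (1 - α ^ 2 / 2 + 5 / 96 * α ^ 4) :=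
    mul_le_mul c2 c3 c9.le (by positivity)
  have hy2 : y ^ 2 ≤ α ^ 2 := by nlinarith
  have hy4 : y ^ 4 ≤ α ^ 4 := by
    have : (y ^ 2) ^ 2 ≤ (α ^ 2) ^ 2 := by gcongr
    calc y ^ 4 = (y ^ 2) ^ 2 := by ring
      _ ≤ (α ^ 2) ^ 2 := this
      _ = α ^ 4 := by ring
  have hα4 : α ^ 4 ≤ η / 4 * α ^ 2 := by
    calc α ^ 4 = α ^ 2 * α ^ 2 := by ring
      _ ≤ η / 4 * α ^ 2 := by gcongr
  have hA2 : α ^ 2 ≤ 1 / 16 := by nlinarith
  have e3 : (1 + y ^ 2 / 2 + y ^ 4 / 4) * (1 - α ^ 2 / 2 + 5 / 96 * α ^ 4) ≤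
      1 + y ^ 2 / 2 - α ^ 2 / 2 + α ^ 4 / 2 := by
    have f1 : 0 ≤ y ^ 2 / 2 + y ^ 4 / 4 := by positivity
    have f2 : (1 + y ^ 2 / 2 + y ^ 4 / 4) * (1 - α ^ 2 / 2 + 5 / 96 * α ^ 4) =
        1 + y ^ 2 / 2 - α ^ 2 / 2 + (y ^ 4 / 4 + 5 / 96 * α ^ 4) +
        (y ^ 2 / 2 + y ^ 4 / 4) * (- α ^ 2 / 2 + 5 / 96 * α ^ 4) := by ring
    have f3 : - α ^ 2 / 2 + 5 / 96 * α ^ 4 ≤ 0 := by nlinarith [sq_nonneg α, sq_nonneg (α ^ 2)]
    have f4 : (y ^ 2 / 2 + y ^ 4 / 4) * (- α ^ 2 / 2 + 5 / 96 * α ^ 4) ≤ 0 :=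
      mul_nonpos_of_nonneg_of_nonpos f1 f3
    have f5 : 0 ≤ α ^ 4 := by positivity
    rw [f2]
    linarith
  have e4 : ((1 - η / 2) * α) ^ 2 = α ^ 2 - (η - η ^ 2 / 4) * α ^ 2 := by ring
  rw [e4] at hxy
  have e5 : (3 / 4 * η) * α ^ 2 ≤ (η - η ^ 2 / 4) * α ^ 2 := by
    apply mul_le_mul_of_nonneg_right _ (sq_nonneg _)
    nlinarith
  have hηα : 0 < η * α ^ 2 := by positivity
  nlinarith

lemma ineq_out {α x y : ℝ} (hα : 0 < α) (hα1 : α ≤ 1 / 4)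
    (hxy1 : (3 / 2 * α) ^ 2 ≤ x ^ 2 + y ^ 2) (hxy2 : x ^ 2 + y ^ 2 ≤ (5 / 2 * α) ^ 2) :
    0 < Real.cosh y * Real.cos α - Real.cos x := by
  have hx2 : x ^ 2 ≤ (5 / 2 * α) ^ 2 := by nlinarith [sq_nonneg y]
  have hy2 : y ^ 2 ≤ (5 / 2 * α) ^ 2 := by nlinarith [sq_nonneg x]
  have hxa : |x| ≤ 5 / 2 * α := abs_le_of_sq_le_sq hx2 (by positivity)
  have c1 := one_add_le_cosh y
  have c2 : 1 - α ^ 2 / 2 ≤ Real.cos α := Real.one_sub_sq_div_two_le_cos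
  have c3 : Real.cos x ≤ 1 - x ^ 2 / 2 + 5 / 96 * x ^ 4 := by
    have h := (abs_le.1 (Real.cos_bound (x := x) (by linarith))).2
    have e : |x| ^ 4 = x ^ 4 := by
      calc |x| ^ 4 = (|x| ^ 2) ^ 2 := by ring
        _ = (x ^ 2) ^ 2 := by rw [sq_abs]
        _ = x ^ 4 := by ring
    rw [e] at h
    linarith
  have hA : 0 < α ^ 2 := by positivity
  have hA2 : α ^ 2 ≤ 1 / 16 := by nlinarith
  have e1 : (1 + y ^ 2 / 2) * (1 - α ^ 2 / 2) ≤ Real.cosh y * Real.cos α :=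
    mul_le_mul c1 c2 (by linarith) (Real.cosh_pos _).le
  have hx4 : x ^ 4 ≤ (25 / 4 * α ^ 2) * (25 / 4 * α ^ 2) := by
    have h1 : x ^ 2 ≤ 25 / 4 * α ^ 2 := by nlinarith
    calc x ^ 4 = x ^ 2 * x ^ 2 := by ring
      _ ≤ _ := mul_le_mul h1 h1 (sq_nonneg _) (by positivity)
  have hy2' : y ^ 2 * α ^ 2 ≤ (25 / 4 * α ^ 2) * α ^ 2 := by
    have h1 : y ^ 2 ≤ 25 / 4 * α ^ 2 := by nlinarith
    exact mul_le_mul_of_nonneg_right h1 hA.le
  have hα4 : α ^ 2 * α ^ 2 ≤ 1 / 16 * α ^ 2 := mul_le_mul_of_nonneg_right hA2 hA.le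
  nlinarith

namespace Par

variable (p : Par)

lemma κpos : 0 < p.κ := by linarith [p.h1]

lemma cross_in {η τ : ℝ} (hη : 0 < η) (hη1 : η ≤ 1) (hα1 : p.α ≤ 1 / 4) (hα2 : p.α ^ 2 ≤ η / 4)
    (hτ0 : 0 ≤ τ) (hτ : τ ≤ η / 16)
    (hκ : -Real.cos (Real.pi / p.κ) ≤ τ * Real.sin (Real.pi / p.κ)) {w : ℂ} (hw : 0 < w.im)
    (hd : (w.re - Real.pi) ^ 2 + w.im ^ 2 ≤ ((1 - η / 2) * p.α) ^ 2) :
    Real.pi < p.κ * (Lam p.α w).im := by
  have hpi := Real.pi_pos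
  have hκ0 := p.κpos
  obtain ⟨c, hc, hcos, hsin⟩ := Lam_polar (mem_V_of_im_pos (α := p.α) hw)
  obtain ⟨h1, h2⟩ := Lam_im_mem p.hα p.hαpi hw
  have hin := ineq_in p.hα hη hη1 hα1 hα2 hτ0 hτ hw.le hd
  have e : Real.cos (w.re - Real.pi) = -Real.cos w.re := Real.cos_sub_pi _
  rw [e] at hin
  set θ := (Lam p.α w).im
  set θ0 := Real.pi / p.κ with hθ0
  have hθ0pos : 0 < θ0 := by positivity
  have hθ0lt : θ0 < Real.pi := by
    rw [hθ0, div_lt_iff₀ hκ0]; nlinarith [p.h1]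
  have hs0 : 0 < Real.sin θ0 := Real.sin_pos_of_pos_of_lt_pi hθ0pos hθ0lt
  have hsy : 0 ≤ Real.sin p.α * Real.sinh w.im :=
    mul_nonneg (Real.sin_nonneg_of_nonneg_of_le_pi p.hα.le p.hαpi.le) (Real.sinh_nonneg_iff.2 hw.le)
  have hsub : 0 < Real.sin (θ - θ0) := by
    rw [Real.sin_sub, hcos, hsin]
    have e2 : c * (Real.sin p.α * Real.sinh w.im) * Real.cos θ0 -
        c * (Real.cosh w.im * Real.cos p.α + Real.cos w.re) * Real.sin θ0 =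
        c * ((-(Real.cosh w.im * Real.cos p.α + Real.cos w.re)) * Real.sin θ0 -
          (Real.sin p.α * Real.sinh w.im) * (-Real.cos θ0)) := by ring
    rw [e2]
    apply mul_pos hc
    have h3 : (Real.sin p.α * Real.sinh w.im) * (-Real.cos θ0) ≤
        (Real.sin p.α * Real.sinh w.im) * (τ * Real.sin θ0) := mul_le_mul_of_nonneg_left hκ hsy
    have h4 : τ * (Real.sin p.α * Real.sinh w.im) * Real.sin θ0 <
        (-Real.cos w.re - Real.cosh w.im * Real.cos p.α) * Real.sin θ0 :=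
      mul_lt_mul_of_pos_right hin hs0
    linarith
  have hlt : θ0 < θ := by
    by_contra hcon
    push Not at hcon
    have := Real.sin_nonpos_of_nonpos_of_neg_pi_le (x := θ - θ0) (by linarith) (by linarith)
    linarith
  rw [hθ0, div_lt_iff₀ hκ0] at hlt
  linarith

lemma cross_out (hα1 : p.α ≤ 1 / 4) {w : ℂ} (hw : 0 < w.im)
    (hd1 : (3 / 2 * p.α) ^ 2 ≤ (w.re - Real.pi) ^ 2 + w.im ^ 2)
    (hd2 : (w.re - Real.pi) ^ 2 + w.im ^ 2 ≤ (5 / 2 * p.α) ^ 2) :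
    p.κ * (Lam p.α w).im < Real.pi := by
  have hpi := Real.pi_pos
  have hκ0 := p.κpos
  obtain ⟨c, hc, hcos, hsin⟩ := Lam_polar (mem_V_of_im_pos (α := p.α) hw)
  obtain ⟨h1, h2⟩ := Lam_im_mem p.hα p.hαpi hw
  have hout := ineq_out p.hα hα1 hd1 hd2
  rw [Real.cos_sub_pi] at hout
  have hpos : 0 < Real.cos (Lam p.α w).im := by
    rw [hcos]
    apply mul_pos hc
    linarith
  have hlt : (Lam p.α w).im < Real.pi / 2 := by
    by_contra hcon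
    push Not at hcon
    have := Real.cos_nonpos_of_pi_div_two_le_of_le hcon (by linarith)
    linarith
  have := p.h2
  nlinarith

end Par

end Pool.Agent.HaymanWu.Lower
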