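import Mathlib
import Pool.Agent.HaymanWu.LowerCross

/-!
# Hayman–Wu lower bound: the recursion
-/

open Complex Set MeasureTheory Filter Topology
open scoped ENNReal NNReal

noncomputable section

namespace Pool.Agent.HaymanWu.Lower

/-- The upper half-plane. -/
def UH : Set ℂ := {z | 0 < z.im}

lemma isOpen_UH : IsOpen UH := isOpen_lt continuous_const Complex.continuous_im

/-- The class of maps for the recursion. -/
structure Cls (σ : ℝ) (F : ℂ → ℂ) : Prop where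
  diff : DifferentiableOn ℂ F UH
  inj : InjOn F UH
  per : ∀ φ ∈ UH, F (φ + 2 * Real.pi) = F φ + 2 * Real.pi
  bdd : ∃ C : ℝ, 0 < C ∧ ∀ φ ∈ UH, ‖F φ - φ‖ ≤ C
  img : ∀ φ ∈ UH, F φ ∈ S σ 1

/-- The real points in one period. -/
def Zs (F : ℂ → ℂ) : Set ℂ := {φ | φ ∈ UH ∧ (F φ).im = 0 ∧ 0 < (F φ).re ∧ (F φ).re < 2 * Real.pi}

lemma measurable_pre {F : ℂ → ℂ} (hF : ContinuousOn F UH) {B : Set ℂ} (hB : MeasurableSet B) :
    MeasurableSet {φ | φ ∈ UH ∧ F φ ∈ B} := by
  have h1 : {φ | φ ∈ UH ∧ F φ ∈ B} = Subtype.val '' ((UH.domRestrict F) ⁻¹' B) := by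
    ext φ
    constructor
    · rintro ⟨h1, h2⟩
      exact ⟨⟨φ, h1⟩, h2, rfl⟩
    · rintro ⟨⟨x, hx⟩, h2, rfl⟩
      exact ⟨hx, h2⟩
  rw [h1]
  exact isOpen_UH.measurableSet.subtype_image (hF.domRestrict.measurable hB)

lemma measurable_Zs {F : ℂ → ℂ} (hF : ContinuousOn F UH) : MeasurableSet (Zs F) := by
  have h1 : MeasurableSet {w : ℂ | w.im = 0 ∧ 0 < w.re ∧ w.re < 2 * Real.pi} := by
    apply MeasurableSet.inter
    · exact (isClosed_eq Complex.continuous_im continuous_const).measurableSet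
    · exact ((isOpen_lt continuous_const Complex.continuous_re).inter
        (isOpen_lt Complex.continuous_re continuous_const)).measurableSet
  exact measurable_pre hF h1

/-- The rescaled map. -/
def sc (F : ℂ → ℂ) (N : ℕ) (φ : ℂ) : ℂ := F (N * φ) / N

variable {σ : ℝ} {F : ℂ → ℂ}

lemma mul_mem_UH {N : ℕ} (hN : 0 < N) {φ : ℂ} (h : φ ∈ UH) : (N : ℂ) * φ ∈ UH := by
  have h' : 0 < φ.im := h
  have hN' : (0 : ℝ) < N := by exact_mod_cast hN
  show 0 < ((N : ℂ) * φ).im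
  have : ((N : ℂ) * φ).im = N * φ.im := by simp
  rw [this]; positivity

lemma Cls.per_nat (hF : Cls σ F) (n : ℕ) : ∀ φ ∈ UH, F (φ + 2 * Real.pi * n) = F φ + 2 * Real.pi * n := by
  induction n with
  | zero => intro φ _; simp
  | succ n ih =>
    intro φ hφ
    have e : φ + 2 * Real.pi * ((n + 1 : ℕ) : ℂ) = (φ + 2 * Real.pi * n) + 2 * Real.pi := by
      push_cast; ring
    have hm : φ + 2 * Real.pi * n ∈ UH := by
      show 0 < (φ + 2 * Real.pi * n).im
      have : (φ + 2 * Real.pi * n).im = φ.im := by simp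
      rw [this]; exact hφ
    rw [e, hF.per _ hm, ih φ hφ]
    push_cast; ring

lemma sc_diff (hF : Cls σ F) {N : ℕ} (hN : 0 < N) : DifferentiableOn ℂ (sc F N) UH := by
  unfold sc
  apply DifferentiableOn.div_const
  apply hF.diff.comp (f := fun φ : ℂ => (N : ℂ) * φ)
  · exact (differentiable_id.const_mul (N : ℂ)).differentiableOn
  · intro φ hφ; exact mul_mem_UH hN hφ

lemma sc_inj (hF : Cls σ F) {N : ℕ} (hN : 0 < N) : InjOn (sc F N) UH := by
  intro a ha b hb hab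
  have hN' : (N : ℂ) ≠ 0 := by exact_mod_cast hN.ne'
  unfold sc at hab
  have h1 : F (N * a) = F (N * b) := by
    field_simp at hab
    exact hab
  exact mul_left_cancel₀ hN' (hF.inj (mul_mem_UH hN ha) (mul_mem_UH hN hb) h1)

lemma sc_per (hF : Cls σ F) {N : ℕ} (hN : 0 < N) {φ : ℂ} (hφ : φ ∈ UH) :
    sc F N (φ + 2 * Real.pi) = sc F N φ + 2 * Real.pi := by
  have hN' : (N : ℂ) ≠ 0 := by exact_mod_cast hN.ne'
  unfold sc
  have e : (N : ℂ) * (φ + 2 * Real.pi) = N * φ + 2 * Real.pi * N := by ring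
  rw [e, hF.per_nat N _ (mul_mem_UH hN hφ)]
  field_simp

lemma sc_near {C : ℝ} (hC : ∀ φ ∈ UH, ‖F φ - φ‖ ≤ C) {N : ℕ} (hN : 0 < N) {φ : ℂ} (hφ : φ ∈ UH) :
    ‖sc F N φ - φ‖ ≤ C / N := by
  have hN' : (N : ℂ) ≠ 0 := by exact_mod_cast hN.ne'
  have hN'' : (0 : ℝ) < N := by exact_mod_cast hN
  have e : sc F N φ - φ = (F (N * φ) - N * φ) / N := by
    unfold sc; field_simp
  rw [e, norm_div, Complex.norm_natCast]
  exact div_le_div_of_nonneg_right (hC _ (mul_mem_UH hN hφ)) hN''.le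

lemma sc_img (hF : Cls σ F) {N : ℕ} (hN : 0 < N) {φ : ℂ} (hφ : φ ∈ UH) : sc F N φ ∈ S σ N := by
  intro k
  have hN'' : (0 : ℝ) < N := by exact_mod_cast hN
  have h := hF.img _ (mul_mem_UH hN hφ) k
  simp only [Nat.cast_one, div_one] at h
  have e1 : (sc F N φ).im = (F (N * φ)).im / N := by unfold sc; simp
  have e2 : (sc F N φ).re - 2 * Real.pi * k / N = ((F (N * φ)).re - 2 * Real.pi * k) / N := by
    unfold sc; simp; ring
  rw [e1, e2, abs_div, abs_of_pos hN'', ← neg_div, mul_div_assoc']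
  exact div_lt_div_of_pos_right h hN''

/-- The cells of the rescaled map. -/
def cell (F : ℂ → ℂ) (N k : ℕ) : Set ℂ := (fun φ : ℂ => (N : ℂ) * φ - 2 * Real.pi * k) ⁻¹' (Zs F)

lemma mem_cell (hF : Cls σ F) {N k : ℕ} (hN : 0 < N) {φ : ℂ} (h : φ ∈ cell F N k) :
    φ ∈ UH ∧ (sc F N φ).im = 0 ∧ 2 * Real.pi * k / N < (sc F N φ).re ∧
      (sc F N φ).re < 2 * Real.pi * (k + 1) / N := by
  obtain ⟨h1, h2, h3, h4⟩ := h
  have hN'' : (0 : ℝ) < N := by exact_mod_cast hN
  have h1' : (N : ℂ) * φ - 2 * Real.pi * k ∈ UH := h1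
  have hφ : φ ∈ UH := by
    have h5 : 0 < ((N : ℂ) * φ - 2 * Real.pi * k).im := h1'
    have e : ((N : ℂ) * φ - 2 * Real.pi * k).im = N * φ.im := by simp
    rw [e] at h5
    exact (mul_pos_iff_of_pos_left hN'').1 h5
  have hper := hF.per_nat k _ h1'
  rw [sub_add_cancel] at hper
  have e1 : (sc F N φ).im = (F (N * φ)).im / N := by unfold sc; simp
  have e2 : (sc F N φ).re = (F (N * φ)).re / N := by unfold sc; simp
  have e3 : (F (N * φ)).im = 0 := by
    rw [hper]; simpa using h2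
  have e4 : (F (N * φ)).re = (F ((N : ℂ) * φ - 2 * Real.pi * k)).re + 2 * Real.pi * k := by
    rw [hper]; simp
  refine ⟨hφ, by rw [e1, e3, zero_div], ?_, ?_⟩
  · rw [e2, e4]
    apply div_lt_div_of_pos_right _ hN''
    linarith
  · rw [e2, e4]
    apply div_lt_div_of_pos_right _ hN''
    linarith

lemma measurable_cell (hF : Cls σ F) (N k : ℕ) : MeasurableSet (cell F N k) := by
  unfold cell
  apply (measurable_Zs hF.diff.continuousOn).preimage
  fun_prop

lemma cell_measure (F : ℂ → ℂ) {N : ℕ} (hN : 0 < N) (k : ℕ) :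
    μH[1] (Zs F) ≤ N * μH[1] (cell F N k) := by
  have hN' : (N : ℂ) ≠ 0 := by exact_mod_cast hN.ne'
  let f : ℂ → ℂ := fun φ => (N : ℂ) * φ - 2 * Real.pi * k
  have hf : LipschitzWith (N : ℝ≥0) f := by
    apply LipschitzWith.of_dist_le_mul
    intro u v
    simp only [f, dist_eq_norm]
    have e : (N : ℂ) * u - 2 * Real.pi * k - (N * v - 2 * Real.pi * k) = N * (u - v) := by ring
    rw [e, norm_mul, Complex.norm_natCast]
    simp
  have h1 := hf.hausdorffMeasure_image_le (d := 1) zero_le_one (cell F N k)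
  rw [ENNReal.rpow_one] at h1
  have h2 : Zs F ⊆ f '' (cell F N k) := by
    intro z hz
    have e : f ((z + 2 * Real.pi * k) / N) = z := by
      simp only [f]; field_simp; ring
    refine ⟨(z + 2 * Real.pi * k) / N, ?_, e⟩
    show f ((z + 2 * Real.pi * k) / N) ∈ Zs F
    rw [e]; exact hz
  refine (measure_mono h2).trans (h1.trans ?_)
  simp


/-- The composed map. -/
def nxt (p : Par) (F : ℂ → ℂ) (N : ℕ) (φ : ℂ) : ℂ := p.G (sc F N φ)

lemma nxt_cls (p : Par) {q : ℕ} (hq0 : 0 < q) {σ' : ℝ} (hF : Cls σ F) {m : ℕ} (hm : 0 < m)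
    (himg : ∀ φ ∈ S σ (2 * q * m), φ ∈ p.W ∧ p.G φ ∈ S σ' 1) :
    Cls σ' (nxt p F (2 * q * m)) := by
  have hN : 0 < 2 * q * m := by positivity
  have hmaps : MapsTo (sc F (2 * q * m)) UH p.W := fun φ hφ => (himg _ (sc_img hF hN hφ)).1
  refine ⟨?_, ?_, ?_, ?_, ?_⟩
  · exact p.G_differentiableOn.comp (sc_diff hF hN) hmaps
  · exact p.G_injOn.comp (sc_inj hF hN) hmaps
  · intro φ hφ
    unfold nxt
    rw [sc_per hF hN hφ, p.G_add]
  · obtain ⟨C, hC0, hC⟩ := hF.bdd
    have h1 : 0 < p.C * p.α := mul_pos p.hC p.hα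
    have h2 : 0 < C / (2 * q * m : ℕ) := by
      have : (0 : ℝ) < (2 * q * m : ℕ) := by exact_mod_cast hN
      positivity
    refine ⟨p.C * p.α + C / (2 * q * m : ℕ), by positivity, ?_⟩
    intro φ hφ
    unfold nxt
    calc ‖p.G (sc F (2 * q * m) φ) - φ‖ =
          ‖(p.G (sc F (2 * q * m) φ) - sc F (2 * q * m) φ) + (sc F (2 * q * m) φ - φ)‖ := by
          congr 1; ring
      _ ≤ _ := norm_add_le _ _
      _ ≤ _ := add_le_add (p.G_near (hmaps hφ)) (sc_near hC hN hφ)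
  · intro φ hφ
    exact (himg _ (sc_img hF hN hφ)).2

lemma part_A (p : Par) {q : ℕ} (hq0 : 0 < q) (hq : p.α = Real.pi / q) (hF : Cls σ F) {m : ℕ}
    (hm : 0 < m) {L : ℝ} (hL : ENNReal.ofReal L ≤ μH[1] (Zs F)) :
    ENNReal.ofReal ((1 - 1 / q) * L) ≤
      μH[1] (Zs (nxt p F (2 * q * m)) ∩ {φ | φ ∈ UH ∧ sc F (2 * q * m) φ ∈ {w : ℂ | w.im = 0}}) := by
  set N := 2 * q * m with hNdef
  have hN : 0 < N := by positivity
  have hNr : (0 : ℝ) < N := by exact_mod_cast hN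
  have hqr : (0 : ℝ) < q := by exact_mod_cast hq0
  have hmr : (0 : ℝ) < m := by exact_mod_cast hm
  have hNe : (N : ℝ) = 2 * q * m := by rw [hNdef]; push_cast; ring
  have hpi := Real.pi_pos
  set K : Finset ℕ := Finset.range (m * (q - 1)) ∪ Finset.Ico (m * (q + 1)) N with hK
  obtain ⟨r, rfl⟩ : ∃ r, q = r + 1 := ⟨q - 1, by omega⟩
  have hdisjK : Disjoint (Finset.range (m * (r + 1 - 1))) (Finset.Ico (m * (r + 1 + 1)) N) := by
    rw [Finset.disjoint_left]
    intro k hk hk'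
    rw [Finset.mem_range] at hk
    rw [Finset.mem_Ico] at hk'
    have : m * (r + 1 - 1) ≤ m * (r + 1 + 1) := Nat.mul_le_mul_left _ (by omega)
    omega
  have hcard : (K.card : ℝ) = (1 - 1 / ((r + 1 : ℕ) : ℝ)) * N := by
    rw [hK, Finset.card_union_of_disjoint hdisjK, Finset.card_range, Nat.card_Ico]
    have e1 : N - m * (r + 1 + 1) = m * r := by
      rw [hNdef]
      have : 2 * (r + 1) * m = m * r + m * (r + 1 + 1) := by ring
      omega
    rw [e1, Nat.add_sub_cancel, hNe]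
    push_cast
    field_simp
    ring
  have hsub : (⋃ k ∈ K, cell F N k) ⊆
      Zs (nxt p F N) ∩ {φ | φ ∈ UH ∧ sc F N φ ∈ {w : ℂ | w.im = 0}} := by
    intro φ hφ
    simp only [mem_iUnion] at hφ
    obtain ⟨k, hk, hφk⟩ := hφ
    obtain ⟨h1, h2, h3, h4⟩ := mem_cell hF hN hφk
    have hx : sc F N φ = (((sc F N φ).re : ℝ) : ℂ) := by
      apply Complex.ext <;> simp [h2]
    have hE : (0 < (sc F N φ).re ∧ (sc F N φ).re < Real.pi - p.α) ∨
        (Real.pi + p.α < (sc F N φ).re ∧ (sc F N φ).re < 2 * Real.pi) := by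
      rw [hK, Finset.mem_union, Finset.mem_range, Finset.mem_Ico] at hk
      rcases hk with hk | ⟨hk1, hk2⟩
      · left
        refine ⟨lt_of_le_of_lt (by positivity) h3, h4.trans_le ?_⟩
        rw [hq, hNe, div_le_iff₀ (by positivity)]
        have h5 : (k : ℝ) + 1 ≤ m * r := by
          rw [Nat.add_sub_cancel] at hk
          exact_mod_cast hk
        have e : (Real.pi - Real.pi / ((r + 1 : ℕ) : ℝ)) * (2 * ((r + 1 : ℕ) : ℝ) * m) =
            2 * Real.pi * (m * r) := by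
          push_cast; field_simp; ring
        rw [e]
        gcongr
      · right
        refine ⟨lt_of_le_of_lt ?_ h3, h4.trans_le ?_⟩
        · rw [hq, hNe, le_div_iff₀ (by positivity)]
          have h5 : (m : ℝ) * (r + 1 + 1) ≤ k := by exact_mod_cast hk1
          have e : (Real.pi + Real.pi / ((r + 1 : ℕ) : ℝ)) * (2 * ((r + 1 : ℕ) : ℝ) * m) =
              2 * Real.pi * (m * (r + 1 + 1)) := by
            push_cast; field_simp
          rw [e]
          gcongr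
        · rw [div_le_iff₀ hNr]
          have h5 : (k : ℝ) + 1 ≤ N := by exact_mod_cast hk2
          gcongr
    obtain ⟨g1, g2, g3⟩ := p.G_real_E hE
    rw [← hx] at g1 g2 g3
    exact ⟨⟨h1, g1, g2, g3⟩, h1, h2⟩
  refine le_trans ?_ (measure_mono hsub)
  rw [measure_biUnion_finset]
  · calc ENNReal.ofReal ((1 - 1 / ((r + 1 : ℕ) : ℝ)) * L) =
          ENNReal.ofReal ((K.card : ℝ) * (L / N)) := by
          rw [hcard]; congr 1; field_simp
      _ = ∑ k ∈ K, ENNReal.ofReal (L / N) := by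
          rw [Finset.sum_const, nsmul_eq_mul, ENNReal.ofReal_mul (by positivity),
            ENNReal.ofReal_natCast]
      _ ≤ ∑ k ∈ K, μH[1] (cell F N k) := by
          apply Finset.sum_le_sum
          intro k _
          rw [ENNReal.ofReal_div_of_pos hNr, ENNReal.ofReal_natCast]
          exact ENNReal.div_le_of_le_mul' (hL.trans (cell_measure F hN k))
  · intro k _ k' _ hkk'
    show Disjoint (cell F N k) (cell F N k')
    rw [Set.disjoint_left]
    intro φ h h'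
    apply hkk'
    obtain ⟨-, -, h3, h4⟩ := mem_cell hF hN h
    obtain ⟨-, -, h3', h4'⟩ := mem_cell hF hN h'
    have h5 : 2 * Real.pi * k / N < 2 * Real.pi * (k' + 1) / N := h3.trans h4'
    have h6 : 2 * Real.pi * k' / N < 2 * Real.pi * (k + 1) / N := h3'.trans h4
    rw [div_lt_div_iff_of_pos_right hNr, mul_lt_mul_iff_right₀ (by positivity)] at h5 h6
    have h7 : k < k' + 1 := by exact_mod_cast h5
    have h8 : k' < k + 1 := by exact_mod_cast h6
    omega
  · intro k _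
    exact measurable_cell hF N k


lemma normSq_sub_pi (w : ℂ) : (w.re - Real.pi) ^ 2 + w.im ^ 2 = ‖w - Real.pi‖ ^ 2 := by
  rw [← Complex.normSq_eq_norm_sq, Complex.normSq_apply]
  simp
  ring

lemma part_B (p : Par) {η τ : ℝ} (hη : 0 < η) (hη1 : η ≤ 1 / 2)
    (hα1 : p.α ≤ 1 / 4) (hα2 : p.α ^ 2 ≤ η / 4) (hτ0 : 0 ≤ τ) (hτ : τ ≤ η / 16)
    (hκ : -Real.cos (Real.pi / p.κ) ≤ τ * Real.sin (Real.pi / p.κ))
    (hF : Cls σ F) {C : ℝ} (hC : ∀ φ ∈ UH, ‖F φ - φ‖ ≤ C) {N : ℕ} (hN : 0 < N)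
    (hN1 : C / N < η * p.α / 2) (hN2 : C / N < (1 - η) * p.α * Real.sin η / 2) :
    ENNReal.ofReal ((1 - η) * p.α * (Real.pi - 2 * η)) ≤
      μH[1] (Zs (nxt p F N) \ {φ | φ ∈ UH ∧ sc F N φ ∈ {w : ℂ | w.im = 0}}) := by
  have hpi := Real.pi_gt_three
  have hα := p.hα
  set ρ := (1 - η) * p.α with hρ
  have hρpos : 0 < ρ := by rw [hρ]; apply mul_pos <;> linarith
  have hρα : ρ ≤ p.α := by rw [hρ]; nlinarith
  have hsη : 0 < Real.sin η := Real.sin_pos_of_pos_of_lt_pi hη (by linarith)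
  have e0 : Real.pi - 2 * η = (Real.pi - η) - η := by ring
  rw [e0]
  apply ray_lower (c := (Real.pi : ℂ)) hρpos (by linarith) (by linarith)
  intro ψ hψ
  have hsinψ : Real.sin η ≤ Real.sin ψ := by
    rcases le_or_gt ψ (Real.pi / 2) with h | h
    · exact Real.sin_le_sin_of_le_of_le_pi_div_two (by linarith) h hψ.1
    · rw [← Real.sin_pi_sub ψ]
      exact Real.sin_le_sin_of_le_of_le_pi_div_two (by linarith) (by linarith) (by linarith [hψ.2])
  -- the ray
  have hray : ∀ t ∈ Icc ρ (2 * p.α), ((Real.pi : ℂ) + circ t ψ) ∈ UH ∧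
      ρ * Real.sin η ≤ ((Real.pi : ℂ) + circ t ψ).im ∧
      ‖((Real.pi : ℂ) + circ t ψ) - Real.pi‖ = t := by
    intro t ht
    have ht0 : 0 < t := hρpos.trans_le ht.1
    have e1 : ((Real.pi : ℂ) + circ t ψ).im = t * Real.sin ψ := by
      rw [Complex.add_im, circ_im]; simp
    have h1 : ρ * Real.sin η ≤ t * Real.sin ψ := by
      apply mul_le_mul ht.1 hsinψ hsη.le ht0.le
    refine ⟨?_, by rw [e1]; exact h1, ?_⟩
    · show 0 < ((Real.pi : ℂ) + circ t ψ).im
      rw [e1]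
      exact lt_of_lt_of_le (by positivity) h1
    · rw [add_sub_cancel_left, norm_circ ht0]
  have hpt : ∀ t ∈ Icc ρ (2 * p.α), ρ * Real.sin η / 2 < (sc F N ((Real.pi : ℂ) + circ t ψ)).im ∧
      ‖sc F N ((Real.pi : ℂ) + circ t ψ) - Real.pi‖ ≤ t + C / N ∧
      t - C / N ≤ ‖sc F N ((Real.pi : ℂ) + circ t ψ) - Real.pi‖ := by
    intro t ht
    obtain ⟨h1, h2, h3⟩ := hray t ht
    have h4 := sc_near hC hN h1
    have h5 := (abs_le.1 ((Complex.abs_im_le_norm _).trans h4)).1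
    rw [Complex.sub_im] at h5
    refine ⟨by linarith, ?_, ?_⟩
    · calc ‖sc F N ((Real.pi : ℂ) + circ t ψ) - Real.pi‖ =
            ‖(sc F N ((Real.pi : ℂ) + circ t ψ) - ((Real.pi : ℂ) + circ t ψ)) +
              (((Real.pi : ℂ) + circ t ψ) - Real.pi)‖ := by congr 1; ring
        _ ≤ _ := norm_add_le _ _
        _ ≤ C / N + t := by rw [h3]; linarith
        _ = t + C / N := by ring
    · have h6 := norm_sub_norm_le (((Real.pi : ℂ) + circ t ψ) - Real.pi)
        (((Real.pi : ℂ) + circ t ψ) - sc F N ((Real.pi : ℂ) + circ t ψ))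
      have e : (((Real.pi : ℂ) + circ t ψ) - Real.pi) -
        (((Real.pi : ℂ) + circ t ψ) - sc F N ((Real.pi : ℂ) + circ t ψ)) =
          sc F N ((Real.pi : ℂ) + circ t ψ) - Real.pi := by ring
      rw [e, h3, norm_sub_rev ((Real.pi : ℂ) + circ t ψ)] at h6
      linarith
  let g : ℝ → ℝ := fun t => p.κ * (Lam p.α (sc F N ((Real.pi : ℂ) + circ t ψ))).im - Real.pi
  have hg : ContinuousOn g (Icc ρ (2 * p.α)) := by
    have h1 : ContinuousOn (fun t : ℝ => (Real.pi : ℂ) + circ t ψ) (Icc ρ (2 * p.α)) := by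
      apply Continuous.continuousOn
      unfold circ
      fun_prop
    have h2 : ContinuousOn (fun t : ℝ => sc F N ((Real.pi : ℂ) + circ t ψ)) (Icc ρ (2 * p.α)) :=
      (sc_diff hF hN).continuousOn.comp h1 (fun t ht => (hray t ht).1)
    have h3 : ContinuousOn (fun t : ℝ => Lam p.α (sc F N ((Real.pi : ℂ) + circ t ψ)))
        (Icc ρ (2 * p.α)) := by
      apply p.Lam_continuousOn.comp h2
      intro t ht
      apply mem_V_of_im_pos
      have h4 := (hpt t ht).1
      have : 0 < ρ * Real.sin η / 2 := by positivity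
      linarith
    exact ((Complex.continuous_im.comp_continuousOn h3).const_smul p.κ).sub continuousOn_const
  have hle : ρ ≤ 2 * p.α := by linarith
  have hCN : 0 ≤ C / N := by
    have h1 := sc_near hC hN (hray ρ ⟨le_rfl, hle⟩).1
    exact (norm_nonneg _).trans h1
  have hga : 0 ≤ g ρ := by
    obtain ⟨h1, h2, h3⟩ := hpt ρ ⟨le_rfl, hle⟩
    have h4 : 0 < ρ * Real.sin η / 2 := by positivity
    have := p.cross_in hη (by linarith) hα1 hα2 hτ0 hτ hκ (w := sc F N ((Real.pi : ℂ) + circ ρ ψ))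
      (by linarith) (by
        rw [normSq_sub_pi]
        apply pow_le_pow_left₀ (norm_nonneg _)
        refine h2.trans ?_
        rw [hρ]
        nlinarith)
    simp only [g]
    linarith
  have hgb : g (2 * p.α) ≤ 0 := by
    obtain ⟨h1, h2, h3⟩ := hpt (2 * p.α) ⟨hle, le_rfl⟩
    have h4 : 0 < ρ * Real.sin η / 2 := by positivity
    have h5 : C / N ≤ p.α / 2 := by nlinarith
    have := p.cross_out hα1 (w := sc F N ((Real.pi : ℂ) + circ (2 * p.α) ψ))
      (by linarith) (by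
        rw [normSq_sub_pi]
        apply pow_le_pow_left₀ (by positivity)
        linarith) (by
        rw [normSq_sub_pi]
        apply pow_le_pow_left₀ (norm_nonneg _)
        linarith)
    simp only [g]
    linarith
  obtain ⟨t, ht, hgt⟩ := intermediate_value_Icc' hle hg ⟨hgb, hga⟩
  refine ⟨t, ht.1, ?_⟩
  obtain ⟨h1, h2, h3⟩ := hray t ht
  obtain ⟨k1, k2, k3⟩ := hpt t ht
  have h4 : 0 < ρ * Real.sin η / 2 := by positivity
  have hw : 0 < (sc F N ((Real.pi : ℂ) + circ t ψ)).im := by linarith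
  have hW := p.mem_W_of_im_pos hw
  have hcross : p.κ * (Lam p.α (sc F N ((Real.pi : ℂ) + circ t ψ))).im = Real.pi := by
    simp only [g] at hgt; linarith
  have him := p.G_im_of_cross hW hcross
  have hnear := (p.G_near hW).trans p.hα3
  have hdist : ‖p.G (sc F N ((Real.pi : ℂ) + circ t ψ)) - Real.pi‖ ≤ 1 := by
    have hs' := p.hs'
    have h5 : C / N ≤ p.α / 2 := by nlinarith
    have h6 := ht.2
    calc ‖p.G (sc F N ((Real.pi : ℂ) + circ t ψ)) - Real.pi‖ =
          ‖(p.G (sc F N ((Real.pi : ℂ) + circ t ψ)) - sc F N ((Real.pi : ℂ) + circ t ψ)) +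
            (sc F N ((Real.pi : ℂ) + circ t ψ) - Real.pi)‖ := by congr 1; ring
      _ ≤ _ := norm_add_le _ _
      _ ≤ 1 := by linarith
  have hre := abs_le.1 ((Complex.abs_re_le_norm _).trans hdist)
  rw [Complex.sub_re, Complex.ofReal_re] at hre
  refine ⟨⟨h1, him, ?_, ?_⟩, ?_⟩
  · show 0 < (p.G (sc F N ((Real.pi : ℂ) + circ t ψ))).re
    linarith [hre.1]
  · show (p.G (sc F N ((Real.pi : ℂ) + circ t ψ))).re < 2 * Real.pi
    linarith [hre.2]
  · rintro ⟨-, h0⟩
    have h0' : (sc F N ((Real.pi : ℂ) + circ t ψ)).im = 0 := h0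
    linarith

lemma step (p : Par) {q : ℕ} (hq0 : 0 < q) (hq : p.α = Real.pi / q) {η τ : ℝ} (hη : 0 < η)
    (hη1 : η ≤ 1 / 2) (hα1 : p.α ≤ 1 / 4) (hα2 : p.α ^ 2 ≤ η / 4) (hτ0 : 0 ≤ τ) (hτ : τ ≤ η / 16)
    (hκ : -Real.cos (Real.pi / p.κ) ≤ τ * Real.sin (Real.pi / p.κ))
    {σ' : ℝ} (h1 : p.s / 2 ≤ σ) (h2 : σ < σ') (h3 : σ' ≤ p.s) (hF : Cls σ F) {L : ℝ}
    (hL0 : 0 ≤ L) (hL : ENNReal.ofReal L ≤ μH[1] (Zs F)) :
    ∃ F' : ℂ → ℂ, Cls σ' F' ∧
      ENNReal.ofReal ((1 - 1 / q) * L + (1 - η) * p.α * (Real.pi - 2 * η)) ≤ μH[1] (Zs F') := by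
  obtain ⟨C, hC0, hC⟩ := hF.bdd
  obtain ⟨M0, hM0, himg⟩ := p.image_S hq0 hq h1 h2 h3
  have hpi := Real.pi_gt_three
  have hα := p.hα
  have hsη : 0 < Real.sin η := Real.sin_pos_of_pos_of_lt_pi hη (by linarith)
  have hqr : (1 : ℝ) ≤ q := by exact_mod_cast hq0
  set δ := min (η * p.α / 2) ((1 - η) * p.α * Real.sin η / 2) with hδ
  have hδpos : 0 < δ := by
    rw [hδ]
    apply lt_min
    · positivity
    · have : 0 < 1 - η := by linarith
      positivity
  obtain ⟨M1, hM1⟩ := exists_nat_gt (C / δ)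
  set m := max M0 M1 with hm
  have hm0 : 0 < m := lt_of_lt_of_le hM0 (le_max_left _ _)
  have hN : 0 < 2 * q * m := by positivity
  have hNlt : C / (2 * q * m : ℕ) < δ := by
    have h4 : (M1 : ℝ) ≤ m := by exact_mod_cast le_max_right _ _
    have h5 : C / δ < m := hM1.trans_le h4
    have h6 : (m : ℝ) ≤ (2 * q * m : ℕ) := by
      push_cast
      have : (0 : ℝ) ≤ m := by positivity
      nlinarith
    have hmr : (0 : ℝ) < (2 * q * m : ℕ) := by exact_mod_cast hN
    rw [div_lt_iff₀ hmr]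
    rw [div_lt_iff₀ hδpos] at h5
    nlinarith
  refine ⟨nxt p F (2 * q * m), nxt_cls p hq0 hF hm0 (himg m (le_max_left _ _)), ?_⟩
  have hT : MeasurableSet {φ | φ ∈ UH ∧ sc F (2 * q * m) φ ∈ {w : ℂ | w.im = 0}} := by
    apply measurable_pre (sc_diff hF hN).continuousOn
    exact (isClosed_eq Complex.continuous_im continuous_const).measurableSet
  rw [← measure_inter_add_sdiff (Zs (nxt p F (2 * q * m))) hT]
  have hA := part_A p hq0 hq hF hm0 hL
  have hB := part_B p hη hη1 hα1 hα2 hτ0 hτ hκ hF hC hN (hNlt.trans_le (min_le_left _ _))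
    (hNlt.trans_le (min_le_right _ _))
  refine le_trans ?_ (add_le_add hA hB)
  rw [ENNReal.ofReal_add]
  · apply mul_nonneg _ hL0
    rw [sub_nonneg, div_le_one (by linarith)]
    exact hqr
  · apply mul_nonneg (mul_nonneg (by linarith) hα.le) (by linarith)

end Pool.Agent.HaymanWu.Lower
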