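import Mathlib
import Pool.Agent.HaymanWu.LowerRec

/-!
# Hayman–Wu lower bound: existence of good periodic maps
-/

open Complex Set MeasureTheory Filter Topology
open scoped ENNReal NNReal

noncomputable section

namespace Pool.Agent.HaymanWu.Lower

lemma exists_par {η : ℝ} (hη : 0 < η) (hη1 : η ≤ 1 / 2) :
    ∃ (p : Par) (q : ℕ), 0 < q ∧ p.α = Real.pi / q ∧ p.α ≤ 1 / 4 ∧ p.α ^ 2 ≤ η / 4 ∧
      -Real.cos (Real.pi / p.κ) ≤ η / 16 * Real.sin (Real.pi / p.κ) := by
  have hpi := Real.pi_gt_three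
  set δ := η / 64 with hδ
  have hδ0 : 0 < δ := by positivity
  have hδ1 : δ ≤ 1 / 128 := by linarith
  set κ := Real.pi / (Real.pi / 2 + δ) with hκ
  have hden : 0 < Real.pi / 2 + δ := by positivity
  have hκ1 : 1 < κ := by rw [hκ, one_lt_div hden]; linarith
  have hκ2 : κ < 2 := by rw [hκ, div_lt_iff₀ hden]; linarith
  have hκe : κ * (Real.pi / 2 + δ) = Real.pi := by rw [hκ]; field_simp
  set s := δ / 4 with hs
  have hs0 : 0 < s := by positivity
  have hκs : κ * (Real.pi / 2 + 2 * s) < Real.pi := by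
    have : κ * (Real.pi / 2 + 2 * s) < κ * (Real.pi / 2 + δ) := by
      apply mul_lt_mul_of_pos_left _ (by linarith)
      rw [hs]; linarith
    linarith
  obtain ⟨C, hC, hQ⟩ := Q_lipschitz hκ1 hκ2 hκs
  set B := min (min (1 / 4) (η / 4)) (min s (s / (16 * C))) with hB
  have hB0 : 0 < B := by
    rw [hB]
    refine lt_min (lt_min (by norm_num) (by positivity)) (lt_min hs0 (by positivity))
  obtain ⟨q, hq⟩ := exists_nat_gt (Real.pi / B)
  have hq0r : (0 : ℝ) < q := lt_trans (by positivity) hq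
  have hq0 : 0 < q := by exact_mod_cast hq0r
  set α := Real.pi / q with hα
  have hα0 : 0 < α := by positivity
  have hαB : α ≤ B := by
    rw [hα, div_le_iff₀ hq0r]
    rw [div_lt_iff₀ hB0] at hq
    linarith
  have hα1 : α ≤ 1 / 4 := hαB.trans ((min_le_left _ _).trans (min_le_left _ _))
  have hα2 : α ≤ η / 4 := hαB.trans ((min_le_left _ _).trans (min_le_right _ _))
  have hα3 : α ≤ s := hαB.trans ((min_le_right _ _).trans (min_le_left _ _))
  have hα4 : α ≤ s / (16 * C) := hαB.trans ((min_le_right _ _).trans (min_le_right _ _))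
  refine ⟨⟨κ, s, C, α, hκ1, hκ2, hs0, by rw [hs]; linarith, hκs, hC, hQ, hα0, by linarith,
    by linarith, ?_⟩, q, hq0, rfl, hα1, ?_, ?_⟩
  · calc C * α ≤ C * (s / (16 * C)) := mul_le_mul_of_nonneg_left hα4 hC.le
      _ = s / 16 := by field_simp
  · show α ^ 2 ≤ η / 4
    nlinarith
  · show -Real.cos (Real.pi / κ) ≤ η / 16 * Real.sin (Real.pi / κ)
    have e : Real.pi / κ = δ + Real.pi / 2 := by
      rw [div_eq_iff (by linarith)]; linarith
    rw [e, Real.cos_add_pi_div_two, Real.sin_add_pi_div_two, neg_neg]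
    have h1 : Real.sin δ ≤ δ := Real.sin_le hδ0.le
    have h2 : 1 - δ ^ 2 / 2 ≤ Real.cos δ := Real.one_sub_sq_div_two_le_cos
    have h3 : (1 / 2 : ℝ) ≤ Real.cos δ := by nlinarith
    have h4 : η / 16 * (1 / 2) ≤ η / 16 * Real.cos δ :=
      mul_le_mul_of_nonneg_left h3 (by positivity)
    rw [hδ] at h1
    linarith

/-- The slopes used in the recursion. -/
def slope (s : ℝ) (n : ℕ) : ℝ := s * (1 - 1 / (n + 2))

lemma slope_lt {s : ℝ} (hs : 0 < s) (n : ℕ) : slope s n < slope s (n + 1) := by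
  unfold slope
  apply mul_lt_mul_of_pos_left _ hs
  have : (1 : ℝ) / ((n + 1 : ℕ) + 2) < 1 / (n + 2) := by
    apply one_div_lt_one_div_of_lt (by positivity)
    push_cast; linarith
  linarith

lemma slope_le {s : ℝ} (hs : 0 < s) (n : ℕ) : slope s n ≤ s := by
  unfold slope
  have : (0 : ℝ) < 1 / (n + 2) := by positivity
  nlinarith

lemma le_slope {s : ℝ} (hs : 0 < s) (n : ℕ) : s / 2 ≤ slope s n := by
  unfold slope
  have : (1 : ℝ) / (n + 2) ≤ 1 / 2 := by
    apply one_div_le_one_div_of_le (by norm_num)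
    have : (0 : ℝ) ≤ n := by positivity
    linarith
  nlinarith

lemma id_cls {σ : ℝ} (hσ : 0 < σ) : Cls σ (fun z => z) := by
  refine ⟨differentiableOn_id, injOn_id _, fun _ _ => rfl, ⟨1, one_pos, fun φ _ => by simp⟩, ?_⟩
  intro φ hφ
  exact mem_S_of_im_pos hσ.le hφ

theorem exists_cls {ε : ℝ} (hε : 0 < ε) : ∃ (σ : ℝ) (F : ℂ → ℂ), 0 < σ ∧ Cls σ F ∧
    ENNReal.ofReal (Real.pi ^ 2 - ε) ≤ μH[1] (Zs F) := by
  have hpi := Real.pi_gt_three
  have hpi4 := Real.pi_lt_four
  set η := min (1 / 2) (ε / 60) with hηdef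
  have hη : 0 < η := by rw [hηdef]; exact lt_min (by norm_num) (by positivity)
  have hη1 : η ≤ 1 / 2 := min_le_left _ _
  have hη2 : η ≤ ε / 60 := min_le_right _ _
  obtain ⟨p, q, hq0, hq, hα1, hα2, hκ⟩ := exists_par hη hη1
  have hqr : (0 : ℝ) < q := by exact_mod_cast hq0
  have hq1 : (1 : ℝ) ≤ q := by exact_mod_cast hq0
  set γ := (1 - η) * (Real.pi - 2 * η) with hγ
  have hγ0 : 0 ≤ γ := by rw [hγ]; apply mul_nonneg <;> linarith
  set r : ℝ := 1 - 1 / q with hr
  have hr0 : 0 ≤ r := by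
    rw [hr, sub_nonneg, div_le_one hqr]; exact hq1
  have hr1 : r < 1 := by
    rw [hr]
    have : (0 : ℝ) < 1 / q := by positivity
    linarith
  have iter : ∀ n : ℕ, ∃ F : ℂ → ℂ, Cls (slope p.s n) F ∧
      ENNReal.ofReal (Real.pi * γ * (1 - r ^ n)) ≤ μH[1] (Zs F) := by
    intro n
    induction n with
    | zero =>
      refine ⟨fun z => z, id_cls ?_, by simp⟩
      have := le_slope p.hs 0
      have := p.hs
      linarith
    | succ n ih =>
      obtain ⟨F, hF, hL⟩ := ih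
      have hrn : r ^ n ≤ 1 := pow_le_one₀ hr0 hr1.le
      obtain ⟨F', hF', hL'⟩ := step p hq0 hq hη hη1 hα1 hα2 (by positivity) le_rfl hκ
        (le_slope p.hs n) (slope_lt p.hs n) (slope_le p.hs (n + 1)) hF (by
          apply mul_nonneg (mul_nonneg (by linarith) hγ0) (by linarith)) hL
      refine ⟨F', hF', ?_⟩
      have e : Real.pi * γ * (1 - r ^ (n + 1)) =
          (1 - 1 / q) * (Real.pi * γ * (1 - r ^ n)) + (1 - η) * p.α * (Real.pi - 2 * η) := by
        rw [hq, pow_succ, hγ]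
        have e1 : (1 - η) * (Real.pi / q) * (Real.pi - 2 * η) = Real.pi * γ * (1 - r) := by
          rw [hγ, hr]; ring
        rw [e1, ← hr, hγ]
        ring
      rw [e]; exact hL'
  obtain ⟨n, hn⟩ := exists_pow_lt_of_lt_one (show 0 < ε / 40 by positivity) hr1
  obtain ⟨F, hF, hL⟩ := iter n
  refine ⟨slope p.s n, F, ?_, hF, ?_⟩
  · have := le_slope p.hs n
    have := p.hs
    linarith
  · refine le_trans (ENNReal.ofReal_le_ofReal ?_) hL
    have h1 : Real.pi ^ 2 - ε / 2 ≤ Real.pi * γ := by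
      rw [hγ]
      have : Real.pi * ((1 - η) * (Real.pi - 2 * η)) =
        Real.pi ^ 2 - η * (Real.pi * (2 + Real.pi)) + 2 * Real.pi * η ^ 2 := by ring
      rw [this]
      have h2 : Real.pi * (2 + Real.pi) ≤ 24 := by nlinarith
      have h3 : η * (Real.pi * (2 + Real.pi)) ≤ η * 24 := mul_le_mul_of_nonneg_left h2 hη.le
      have h4 : 0 ≤ 2 * Real.pi * η ^ 2 := by positivity
      linarith
    have h2 : γ ≤ 4 := by
      rw [hγ]
      have : (1 - η) * (Real.pi - 2 * η) ≤ 1 * 4 := by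
        apply mul_le_mul <;> linarith
      linarith
    have h3 : Real.pi * γ ≤ 16 := by nlinarith
    have h4 : 0 ≤ r ^ n := pow_nonneg hr0 n
    have h5 : Real.pi * γ * r ^ n ≤ 16 * (ε / 40) := by
      apply mul_le_mul h3 hn.le h4 (by norm_num)
    linarith

end Pool.Agent.HaymanWu.Lower
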