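import Mathlib
import Pool.Agent.HaymanWu.LowerExist

/-!
# Hayman–Wu lower bound: conclusion
-/

open Complex Set MeasureTheory Filter Topology
open scoped ENNReal NNReal

noncomputable section

namespace Pool.Agent.HaymanWu.Lower

variable {σ : ℝ} {F : ℂ → ℂ}

/-- The multiplicative displacement, extended by zero outside the upper half-plane. -/
def disp (F : ℂ → ℂ) (N : ℕ) (φ : ℂ) : ℂ :=
  open Classical in if φ ∈ UH then Complex.exp (I * (sc F N φ - φ)) else 0

lemma UH_add {φ : ℂ} : φ + (2 * Real.pi : ℝ) ∈ UH ↔ φ ∈ UH := by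
  unfold UH
  simp

lemma disp_periodic (hF : Cls σ F) {N : ℕ} (hN : 0 < N) :
    Function.Periodic (disp F N) ((2 * Real.pi : ℝ) : ℂ) := by
  intro φ
  unfold disp
  by_cases h : φ ∈ UH
  · rw [if_pos h, if_pos (UH_add.2 h)]
    have := sc_per hF hN h
    push_cast
    rw [this]
    congr 1; ring
  · rw [if_neg h, if_neg (fun h' => h (UH_add.1 h'))]

lemma disp_diff (hF : Cls σ F) {N : ℕ} (hN : 0 < N) {φ : ℂ} (hφ : φ ∈ UH) :
    DifferentiableAt ℂ (disp F N) φ := by
  have h1 : DifferentiableAt ℂ (fun φ => Complex.exp (I * (sc F N φ - φ))) φ := by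
    have h2 : DifferentiableAt ℂ (sc F N) φ := (sc_diff hF hN).differentiableAt (isOpen_UH.mem_nhds hφ)
    exact ((h2.sub differentiableAt_id).const_mul I).cexp
  apply h1.congr_of_eventuallyEq
  filter_upwards [isOpen_UH.mem_nhds hφ] with x hx
  unfold disp
  rw [if_pos hx]

/-- The univalent map of the disc. -/
def f1 (F : ℂ → ℂ) (N : ℕ) (z : ℂ) : ℂ := z * Function.Periodic.cuspFunction (2 * Real.pi) (disp F N) z

lemma qParam_eq (z : ℂ) : Function.Periodic.qParam (2 * Real.pi) z = Complex.exp (I * z) := by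
  unfold Function.Periodic.qParam
  congr 1
  have : (Real.pi : ℂ) ≠ 0 := by exact_mod_cast Real.pi_ne_zero
  push_cast
  field_simp

lemma two_pi_ne : (2 * Real.pi : ℝ) ≠ 0 := by positivity

lemma f1_exp (hF : Cls σ F) {N : ℕ} (hN : 0 < N) {φ : ℂ} (hφ : φ ∈ UH) :
    f1 F N (Complex.exp (I * φ)) = Complex.exp (I * sc F N φ) := by
  unfold f1
  have h := Function.Periodic.eq_cuspFunction two_pi_ne (disp_periodic hF hN) φ
  rw [qParam_eq] at h
  rw [h]
  unfold disp
  rw [if_pos hφ, ← Complex.exp_add]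
  congr 1; ring

lemma exists_log {z : ℂ} (hz : z ∈ Metric.ball (0 : ℂ) 1) (h0 : z ≠ 0) :
    ∃ φ ∈ UH, Complex.exp (I * φ) = z := by
  refine ⟨Function.Periodic.invQParam (2 * Real.pi) z, ?_, ?_⟩
  · show 0 < (Function.Periodic.invQParam (2 * Real.pi) z).im
    rw [Function.Periodic.im_invQParam]
    have h1 : ‖z‖ < 1 := by simpa using hz
    have h2 : 0 < ‖z‖ := norm_pos_iff.2 h0
    have h3 := Real.log_neg h2 h1
    have : -(2 * Real.pi) / (2 * Real.pi) = -1 := by
      rw [neg_div, div_self two_pi_ne]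
    rw [this]; linarith
  · rw [← qParam_eq]
    exact Function.Periodic.qParam_right_inv two_pi_ne h0

lemma exp_mem_ball {φ : ℂ} (hφ : φ ∈ UH) : Complex.exp (I * φ) ∈ Metric.ball (0 : ℂ) 1 := by
  have h : 0 < φ.im := hφ
  rw [mem_ball_zero_iff, Complex.norm_exp]
  simp only [Complex.mul_re, Complex.I_re, zero_mul, Complex.I_im, one_mul, zero_sub]
  rw [Real.exp_lt_one_iff]
  linarith

lemma f1_diff (hF : Cls σ F) {N : ℕ} (hN : 0 < N) :
    DifferentiableOn ℂ (f1 F N) (Metric.ball (0 : ℂ) 1) := by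
  intro z hz
  apply DifferentiableAt.differentiableWithinAt
  unfold f1
  apply differentiableAt_id.mul
  by_cases h0 : z = 0
  · subst h0
    obtain ⟨C, hC0, hC⟩ := hF.bdd
    apply Function.Periodic.differentiableAt_cuspFunction_zero (by positivity) (disp_periodic hF hN)
    · have : ∀ᶠ z : ℂ in comap Complex.im atTop, z ∈ UH :=
        (eventually_gt_atTop (0 : ℝ)).comap Complex.im
      filter_upwards [this] with z hz
      exact disp_diff hF hN hz
    · apply Asymptotics.IsBigO.of_bound (Real.exp (C / N))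
      have : ∀ᶠ z : ℂ in comap Complex.im atTop, z ∈ UH :=
        (eventually_gt_atTop (0 : ℝ)).comap Complex.im
      filter_upwards [this] with z hz
      unfold disp
      rw [if_pos hz, Complex.norm_exp]
      simp only [Pi.one_apply, norm_one, mul_one]
      apply Real.exp_le_exp.2
      refine (Complex.re_le_norm _).trans ?_
      rw [norm_mul, Complex.norm_I, one_mul]
      exact sc_near hC hN hz
  · obtain ⟨φ, hφ, rfl⟩ := exists_log hz h0
    rw [← qParam_eq]
    exact Function.Periodic.differentiableAt_cuspFunction two_pi_ne (disp_periodic hF hN)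
      (disp_diff hF hN hφ)

lemma exp_eq_imp {a b : ℂ} (h : Complex.exp (I * a) = Complex.exp (I * b)) :
    ∃ n : ℤ, a = b + 2 * Real.pi * n := by
  rw [Complex.exp_eq_exp_iff_exists_int] at h
  obtain ⟨n, hn⟩ := h
  refine ⟨n, ?_⟩
  have : I * a = I * (b + 2 * Real.pi * n) := by rw [hn]; ring
  exact mul_left_cancel₀ Complex.I_ne_zero this

lemma sc_per_int (hF : Cls σ F) {N : ℕ} (hN : 0 < N) (n : ℤ) {φ : ℂ} (hφ : φ ∈ UH) :
    sc F N (φ + 2 * Real.pi * n) = sc F N φ + 2 * Real.pi * n := by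
  have hnat : ∀ (n : ℕ), ∀ φ ∈ UH, sc F N (φ + 2 * Real.pi * n) = sc F N φ + 2 * Real.pi * n := by
    intro n
    induction n with
    | zero => intro φ _; simp
    | succ n ih =>
      intro φ hφ
      have e : φ + 2 * Real.pi * ((n + 1 : ℕ) : ℂ) = (φ + 2 * Real.pi * n) + 2 * Real.pi := by
        push_cast; ring
      have hm : φ + 2 * Real.pi * n ∈ UH := by
        show 0 < (φ + 2 * Real.pi * n).im
        have : (φ + 2 * Real.pi * n).im = φ.im := by simp
        rw [this]; exact hφ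
      rw [e, sc_per hF hN hm, ih φ hφ]
      push_cast; ring
  rcases Int.eq_nat_or_neg n with ⟨k, rfl | rfl⟩
  · push_cast
    exact hnat k φ hφ
  · push_cast
    have hm : φ + 2 * Real.pi * (-(k : ℂ)) ∈ UH := by
      show 0 < (φ + 2 * Real.pi * (-(k : ℂ))).im
      have : (φ + 2 * Real.pi * (-(k : ℂ))).im = φ.im := by simp
      rw [this]; exact hφ
    have := hnat k _ hm
    have e : φ + 2 * Real.pi * (-(k : ℂ)) + 2 * Real.pi * k = φ := by ring
    rw [e] at this
    rw [this]; ring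

lemma add_int_mem_UH {φ : ℂ} (hφ : φ ∈ UH) (n : ℤ) : φ + 2 * Real.pi * n ∈ UH := by
  show 0 < (φ + 2 * Real.pi * n).im
  have : (φ + 2 * Real.pi * n).im = φ.im := by simp
  rw [this]; exact hφ

lemma f1_inj (hF : Cls σ F) {N : ℕ} (hN : 0 < N) : InjOn (f1 F N) (Metric.ball (0 : ℂ) 1) := by
  have hz : f1 F N 0 = 0 := by unfold f1; simp
  have hnz : ∀ z ∈ Metric.ball (0 : ℂ) 1, z ≠ 0 → f1 F N z ≠ 0 := by
    intro z hz h0
    obtain ⟨φ, hφ, rfl⟩ := exists_log hz h0
    rw [f1_exp hF hN hφ]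
    exact Complex.exp_ne_zero _
  intro z1 h1 z2 h2 heq
  by_cases h01 : z1 = 0
  · by_cases h02 : z2 = 0
    · rw [h01, h02]
    · rw [h01, hz] at heq
      exact absurd heq.symm (hnz z2 h2 h02)
  · by_cases h02 : z2 = 0
    · rw [h02, hz] at heq
      exact absurd heq (hnz z1 h1 h01)
    · obtain ⟨a, ha, rfl⟩ := exists_log h1 h01
      obtain ⟨b, hb, rfl⟩ := exists_log h2 h02
      rw [f1_exp hF hN ha, f1_exp hF hN hb] at heq
      obtain ⟨n, hn⟩ := exp_eq_imp heq
      rw [← sc_per_int hF hN n hb] at hn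
      have := sc_inj hF hN ha (add_int_mem_UH hb n) hn
      rw [this]
      have e : I * (b + 2 * Real.pi * n) = I * b + n * (2 * Real.pi * I) := by ring
      rw [e]
      exact Complex.exp_periodic.int_mul n (I * b)

lemma f1_ne_one (hF : Cls σ F) {N : ℕ} (hN : 0 < N) {z : ℂ} (hz : z ∈ Metric.ball (0 : ℂ) 1) :
    f1 F N z ≠ 1 := by
  by_cases h0 : z = 0
  · subst h0; unfold f1; simp
  · obtain ⟨φ, hφ, rfl⟩ := exists_log hz h0
    rw [f1_exp hF hN hφ]
    intro h1
    have h2 : Complex.exp (I * sc F N φ) = Complex.exp (I * 0) := by rw [h1]; simp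
    obtain ⟨n, hn⟩ := exp_eq_imp h2
    rw [zero_add] at hn
    have h3 := sc_img hF hN hφ (n * N)
    have hN' : (N : ℝ) ≠ 0 := by exact_mod_cast hN.ne'
    rw [hn] at h3
    have e1 : (2 * (Real.pi : ℂ) * n).im = 0 := by simp
    have e2 : (2 * (Real.pi : ℂ) * n).re - 2 * Real.pi * ((n * N : ℤ) : ℝ) / N = 0 := by
      simp
      field_simp
      ring
    rw [e1, e2] at h3
    simp at h3


lemma cell_sub_Zs (hF : Cls σ F) {N k : ℕ} (hN : 0 < N) (hk : k < N) {φ : ℂ}
    (h : φ ∈ cell F N k) : φ ∈ Zs (sc F N) := by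
  obtain ⟨h1, h2, h3, h4⟩ := mem_cell hF hN h
  have hNr : (0 : ℝ) < N := by exact_mod_cast hN
  have hpi := Real.pi_pos
  refine ⟨h1, h2, lt_of_le_of_lt (by positivity) h3, h4.trans_le ?_⟩
  rw [div_le_iff₀ hNr]
  have h5 : (k : ℝ) + 1 ≤ N := by exact_mod_cast hk
  gcongr

lemma exp_injOn (hF : Cls σ F) {N : ℕ} (hN : 0 < N) :
    InjOn (fun φ : ℂ => Complex.exp (I * φ)) (Zs (sc F N)) := by
  intro a ha b hb hab
  have hpi := Real.pi_pos
  obtain ⟨ha1, ha2, ha3, ha4⟩ := ha
  obtain ⟨hb1, hb2, hb3, hb4⟩ := hb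
  obtain ⟨n, hn⟩ := exp_eq_imp hab
  have h1 : sc F N a = sc F N b + 2 * Real.pi * n := by
    rw [hn, sc_per_int hF hN n hb1]
  have h2 : (sc F N a).re = (sc F N b).re + 2 * Real.pi * n := by
    rw [h1]; simp
  have h3 : (n : ℝ) < 1 := by
    by_contra hcon
    push Not at hcon
    nlinarith
  have h4 : (-1 : ℝ) < n := by
    by_contra hcon
    push Not at hcon
    nlinarith
  have h5 : n = 0 := by
    have h6 : n < 1 := by exact_mod_cast h3
    have h7 : -1 < n := by exact_mod_cast h4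
    omega
  rw [hn, h5]; simp

lemma cell_lip {C : ℝ} (hC : ∀ φ ∈ UH, ‖F φ - φ‖ ≤ C) {N k : ℕ} (hN : 0 < N)
    (hbig : (3 * C + 2 * Real.pi) / N < 1) {a b : ℂ} (ha : a ∈ cell F N k) (hb : b ∈ cell F N k) :
    (1 - (3 * C + 2 * Real.pi) / N) * ‖a - b‖ ≤ ‖Complex.exp (I * a) - Complex.exp (I * b)‖ := by
  have hNr : (0 : ℝ) < N := by exact_mod_cast hN
  have hpi := Real.pi_pos
  set A := (N : ℂ) * a - 2 * Real.pi * k with hA
  set B := (N : ℂ) * b - 2 * Real.pi * k with hB
  have hAZ : A ∈ Zs F := ha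
  have hBZ : B ∈ Zs F := hb
  obtain ⟨a1, a2, a3, a4⟩ := hAZ
  obtain ⟨b1, b2, b3, b4⟩ := hBZ
  have hCA := hC A a1
  have hCB := hC B b1
  have hC0 : 0 ≤ C := (norm_nonneg _).trans hCA
  -- size of A - B
  have hFF : ‖F A - F B‖ ≤ 2 * Real.pi := by
    have e : F A - F B = (((F A).re - (F B).re : ℝ) : ℂ) := by
      apply Complex.ext <;> simp [a2, b2]
    rw [e, Complex.norm_real, Real.norm_eq_abs, abs_le]
    constructor <;> linarith
  have hAB : ‖A - B‖ ≤ 2 * C + 2 * Real.pi := by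
    have e : A - B = -(F A - A) + (F A - F B) + (F B - B) := by ring
    rw [e]
    calc _ ≤ ‖-(F A - A) + (F A - F B)‖ + ‖F B - B‖ := norm_add_le _ _
      _ ≤ ‖-(F A - A)‖ + ‖F A - F B‖ + ‖F B - B‖ := by gcongr; exact norm_add_le _ _
      _ ≤ C + 2 * Real.pi + C := by rw [norm_neg]; gcongr
      _ = _ := by ring
  have hab : ‖a - b‖ ≤ (2 * C + 2 * Real.pi) / N := by
    have e : A - B = N * (a - b) := by rw [hA, hB]; ring
    rw [e, norm_mul, Complex.norm_natCast] at hAB
    rw [le_div_iff₀ hNr]; linarith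
  have hbim : b.im ≤ C / N := by
    have h1 := (abs_le.1 ((Complex.abs_im_le_norm _).trans hCB)).1
    rw [Complex.sub_im, b2] at h1
    have e : B.im = N * b.im := by rw [hB]; simp
    rw [e] at h1
    rw [le_div_iff₀ hNr]; linarith
  set t := (3 * C + 2 * Real.pi) / N with ht
  have ht1 : (2 * C + 2 * Real.pi) / N + C / N = t := by rw [ht]; ring
  have hCN : 0 ≤ C / N := by positivity
  have hd0 : 0 ≤ (2 * C + 2 * Real.pi) / N := by positivity
  have hnorm : ‖a - b‖ ≤ 1 := by linarith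
  have e1 : Complex.exp (I * a) - Complex.exp (I * b) =
      Complex.exp (I * b) * (Complex.exp (I * (a - b)) - 1) := by
    rw [mul_sub, ← Complex.exp_add, mul_one]
    congr 2; ring
  have h1 : ‖Complex.exp (I * b)‖ = Real.exp (-b.im) := by
    rw [Complex.norm_exp]; simp
  have h2 : 1 - C / N ≤ Real.exp (-b.im) := by
    have := Real.add_one_le_exp (-b.im)
    linarith
  have h3 : ‖a - b‖ * (1 - (2 * C + 2 * Real.pi) / N) ≤ ‖Complex.exp (I * (a - b)) - 1‖ := by
    have hI : ‖I * (a - b)‖ = ‖a - b‖ := by rw [norm_mul, Complex.norm_I, one_mul]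
    have h4 := Complex.norm_exp_sub_one_sub_id_le (x := I * (a - b)) (by rw [hI]; exact hnorm)
    rw [hI] at h4
    have h5 := norm_sub_norm_le (I * (a - b)) (-(Complex.exp (I * (a - b)) - 1 - I * (a - b)))
    rw [norm_neg, hI] at h5
    have e : I * (a - b) - -(Complex.exp (I * (a - b)) - 1 - I * (a - b)) =
      Complex.exp (I * (a - b)) - 1 := by ring
    rw [e] at h5
    have h6 : ‖a - b‖ ^ 2 ≤ ‖a - b‖ * ((2 * C + 2 * Real.pi) / N) := by
      rw [sq]; exact mul_le_mul_of_nonneg_left hab (norm_nonneg _)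
    linarith
  rw [e1, norm_mul, h1]
  have h7 : 0 ≤ 1 - C / N := by linarith
  have h8 : 0 ≤ ‖a - b‖ * (1 - (2 * C + 2 * Real.pi) / N) := by
    apply mul_nonneg (norm_nonneg _); linarith
  calc (1 - t) * ‖a - b‖ ≤ (1 - C / N) * (‖a - b‖ * (1 - (2 * C + 2 * Real.pi) / N)) := by
        have : (1 - C / N) * (‖a - b‖ * (1 - (2 * C + 2 * Real.pi) / N)) =
            (1 - t) * ‖a - b‖ + (C / N) * ((2 * C + 2 * Real.pi) / N) * ‖a - b‖ := by
          rw [← ht1]; ring
        rw [this]
        have : 0 ≤ (C / N) * ((2 * C + 2 * Real.pi) / N) * ‖a - b‖ := by positivity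
        linarith
    _ ≤ Real.exp (-b.im) * ‖Complex.exp (I * (a - b)) - 1‖ :=
        mul_le_mul h2 h3 h8 (Real.exp_pos _).le

lemma cell_image_measure {C : ℝ} (hC : ∀ φ ∈ UH, ‖F φ - φ‖ ≤ C) {N k : ℕ} (hN : 0 < N)
    (hbig : (3 * C + 2 * Real.pi) / N < 1) :
    ENNReal.ofReal (1 - (3 * C + 2 * Real.pi) / N) * μH[1] (cell F N k) ≤
      μH[1] ((fun φ : ℂ => Complex.exp (I * φ)) '' cell F N k) := by
  set t := (3 * C + 2 * Real.pi) / N with ht
  set e : ℂ → ℂ := fun φ => Complex.exp (I * φ) with he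
  have ht0 : 0 < 1 - t := by linarith
  have hinj : InjOn e (cell F N k) := by
    intro a ha b hb hab
    have h1 := cell_lip hC hN hbig ha hb
    have h2 : Complex.exp (I * a) - Complex.exp (I * b) = 0 := sub_eq_zero.2 hab
    rw [h2, norm_zero] at h1
    have h3 : ‖a - b‖ ≤ 0 := by
      by_contra hcon
      push Not at hcon
      have := mul_pos ht0 hcon
      linarith
    exact sub_eq_zero.1 (norm_le_zero_iff.1 h3)
  let g : ℂ → ℂ := Function.invFunOn e (cell F N k)
  have hg : ∀ a ∈ cell F N k, g (e a) = a := fun a ha => hinj.leftInvOn_invFunOn ha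
  have hlip : LipschitzOnWith (Real.toNNReal (1 - t)⁻¹) g (e '' cell F N k) := by
    apply LipschitzOnWith.of_dist_le_mul
    rintro _ ⟨a, ha, rfl⟩ _ ⟨b, hb, rfl⟩
    rw [hg a ha, hg b hb, dist_eq_norm, dist_eq_norm, Real.coe_toNNReal _ (by positivity)]
    have h1 := cell_lip hC hN hbig ha hb
    rw [inv_mul_eq_div, le_div_iff₀ ht0]
    linarith
  have h1 := hlip.hausdorffMeasure_image_le (d := 1) zero_le_one
  rw [ENNReal.rpow_one] at h1
  have h2 : g '' (e '' cell F N k) = cell F N k := by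
    ext x
    constructor
    · rintro ⟨_, ⟨a, ha, rfl⟩, rfl⟩
      rw [hg a ha]; exact ha
    · intro hx
      exact ⟨e x, ⟨x, hx, rfl⟩, hg x hx⟩
  rw [h2] at h1
  calc ENNReal.ofReal (1 - t) * μH[1] (cell F N k) ≤
        ENNReal.ofReal (1 - t) * (((Real.toNNReal (1 - t)⁻¹ : ℝ≥0) : ℝ≥0∞) *
          μH[1] (e '' cell F N k)) := by gcongr
    _ = μH[1] (e '' cell F N k) := by
        rw [← mul_assoc]
        have : ENNReal.ofReal (1 - t) * ((Real.toNNReal (1 - t)⁻¹ : ℝ≥0) : ℝ≥0∞) = 1 := by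
          change ENNReal.ofReal (1 - t) * ENNReal.ofReal (1 - t)⁻¹ = 1
          rw [← ENNReal.ofReal_mul ht0.le, mul_inv_cancel₀ ht0.ne', ENNReal.ofReal_one]
        rw [this, one_mul]

/-- **Lower bound for the Hayman–Wu constant.** -/
theorem hayman_wu_lower : ∀ ε : ℝ, 0 < ε → ∃ f : ℂ → ℂ,
    DifferentiableOn ℂ f (Metric.ball (0 : ℂ) 1) ∧ Set.InjOn f (Metric.ball (0 : ℂ) 1) ∧
    ENNReal.ofReal (Real.pi ^ 2 - ε) ≤ MeasureTheory.Measure.hausdorffMeasure 1
      {z ∈ Metric.ball (0 : ℂ) 1 | (f z).im = 0} := by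
  intro ε hε
  have hpi := Real.pi_gt_three
  have hpi4 := Real.pi_lt_four
  obtain ⟨σ, F, hσ, hF, hμ⟩ := exists_cls (half_pos hε)
  obtain ⟨C, hC0, hC⟩ := hF.bdd
  -- the number of cells
  set θ := min (1 / 2) (ε / 40) with hθ
  have hθ0 : 0 < θ := by rw [hθ]; exact lt_min (by norm_num) (by positivity)
  obtain ⟨N, hN⟩ := exists_nat_gt ((3 * C + 2 * Real.pi) / θ)
  have hNr : (0 : ℝ) < N := lt_trans (by positivity) hN
  have hN0 : 0 < N := by exact_mod_cast hNr
  have hbig : (3 * C + 2 * Real.pi) / N < θ := by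
    rw [div_lt_iff₀ hNr]
    rw [div_lt_iff₀ hθ0] at hN
    linarith
  have hθ1 : θ ≤ 1 / 2 := min_le_left _ _
  have hθ2 : θ ≤ ε / 40 := min_le_right _ _
  have hbig1 : (3 * C + 2 * Real.pi) / N < 1 := by linarith
  let f : ℂ → ℂ := fun z => I * (1 + f1 F N z) / (1 - f1 F N z)
  have hne : ∀ z ∈ Metric.ball (0 : ℂ) 1, 1 - f1 F N z ≠ 0 := fun z hz h =>
    f1_ne_one hF hN0 hz (sub_eq_zero.1 h).symm
  refine ⟨f, ?_, ?_, ?_⟩
  · have h1 := f1_diff hF hN0
    exact ((h1.const_add 1).const_mul I).div (h1.const_sub 1) hne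
  · intro a ha b hb hab
    apply f1_inj hF hN0 ha hb
    simp only [f] at hab
    rw [div_eq_div_iff (hne a ha) (hne b hb)] at hab
    have h2 : (2 * I) * (f1 F N a - f1 F N b) = 0 := by linear_combination hab
    rcases mul_eq_zero.1 h2 with h3 | h3
    · exact absurd h3 (by simp)
    · exact sub_eq_zero.1 h3
  · -- the cells
    set e : ℂ → ℂ := fun φ => Complex.exp (I * φ) with he
    have hsub : (⋃ k ∈ Finset.range N, e '' cell F N k) ⊆
        {z ∈ Metric.ball (0 : ℂ) 1 | (f z).im = 0} := by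
      intro z hz
      simp only [mem_iUnion, Finset.mem_range] at hz
      obtain ⟨k, hk, φ, hφ, rfl⟩ := hz
      obtain ⟨h1, h2, -, -⟩ := cell_sub_Zs hF hN0 hk hφ
      refine ⟨exp_mem_ball h1, ?_⟩
      have h3 : ‖f1 F N (Complex.exp (I * φ))‖ = 1 := by
        rw [f1_exp hF hN0 h1, Complex.norm_exp]
        simp [h2]
      have hne' := hne _ (exp_mem_ball h1)
      show (I * (1 + f1 F N (Complex.exp (I * φ))) / (1 - f1 F N (Complex.exp (I * φ)))).im = 0
      set w := f1 F N (Complex.exp (I * φ))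
      have h4 : w.re ^ 2 + w.im ^ 2 = 1 := by
        have h5 : Complex.normSq w = 1 := by
          rw [Complex.normSq_eq_norm_sq, h3]; norm_num
        rw [Complex.normSq_apply] at h5
        linarith
      rw [Complex.div_im]
      simp only [Complex.mul_im, Complex.mul_re, Complex.I_re, Complex.I_im, Complex.add_re,
        Complex.add_im, Complex.one_re, Complex.one_im, Complex.sub_re, Complex.sub_im, zero_mul,
        one_mul, zero_add, zero_sub]
      rw [← sub_div]
      have : (1 + w.re) * (1 - w.re) - -w.im * -w.im = 0 := by linarith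
      rw [this, zero_div]
    refine le_trans ?_ (measure_mono hsub)
    rw [measure_biUnion_finset]
    · calc ENNReal.ofReal (Real.pi ^ 2 - ε) ≤
            ENNReal.ofReal ((1 - (3 * C + 2 * Real.pi) / N) * (Real.pi ^ 2 - ε / 2)) := by
            apply ENNReal.ofReal_le_ofReal
            have h1 : Real.pi ^ 2 ≤ 16 := by nlinarith
            have h2 : 0 < (3 * C + 2 * Real.pi) / N := by positivity
            have h3 : (3 * C + 2 * Real.pi) / N * Real.pi ^ 2 ≤ ε / 40 * 16 := by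
              apply mul_le_mul (by linarith) h1 (by positivity) (by positivity)
            nlinarith
        _ = ENNReal.ofReal (1 - (3 * C + 2 * Real.pi) / N) *
              ENNReal.ofReal (Real.pi ^ 2 - ε / 2) := by
            rw [ENNReal.ofReal_mul (by linarith)]
        _ ≤ ENNReal.ofReal (1 - (3 * C + 2 * Real.pi) / N) * μH[1] (Zs F) := by gcongr
        _ = ∑ k ∈ Finset.range N, ENNReal.ofReal (1 - (3 * C + 2 * Real.pi) / N) *
              (μH[1] (Zs F) / N) := by
            rw [Finset.sum_const, Finset.card_range, nsmul_eq_mul]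
            have hNe : (N : ℝ≥0∞) ≠ 0 := by exact_mod_cast hN0.ne'
            have hNt : (N : ℝ≥0∞) ≠ ⊤ := ENNReal.natCast_ne_top N
            have : μH[1] (Zs F) = N * (μH[1] (Zs F) / N) := by
              rw [ENNReal.mul_div_cancel hNe hNt]
            conv_lhs => rw [this]
            ring
        _ ≤ ∑ k ∈ Finset.range N, μH[1] (e '' cell F N k) := by
            apply Finset.sum_le_sum
            intro k _
            refine le_trans ?_ (cell_image_measure hC hN0 hbig1)
            gcongr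
            exact ENNReal.div_le_of_le_mul' (cell_measure F hN0 k)
    · intro k hk k' hk' hkk'
      rw [Finset.mem_coe, Finset.mem_range] at hk hk'
      show Disjoint (e '' cell F N k) (e '' cell F N k')
      apply Disjoint.image _ (exp_injOn hF hN0) (fun φ hφ => cell_sub_Zs hF hN0 hk hφ)
        (fun φ hφ => cell_sub_Zs hF hN0 hk' hφ)
      rw [Set.disjoint_left]
      intro φ h h'
      apply hkk'
      obtain ⟨-, -, h3, h4⟩ := mem_cell hF hN0 h
      obtain ⟨-, -, h3', h4'⟩ := mem_cell hF hN0 h'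
      have h5 : 2 * Real.pi * k / N < 2 * Real.pi * (k' + 1) / N := h3.trans h4'
      have h6 : 2 * Real.pi * k' / N < 2 * Real.pi * (k + 1) / N := h3'.trans h4
      rw [div_lt_div_iff_of_pos_right hNr, mul_lt_mul_iff_right₀ (by positivity)] at h5 h6
      have h7 : k < k' + 1 := by exact_mod_cast h5
      have h8 : k' < k + 1 := by exact_mod_cast h6
      omega
    · intro k hk
      rw [Finset.mem_range] at hk
      exact (measurable_cell hF N k).image_of_continuousOn_injOn (by fun_prop)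
        ((exp_injOn hF hN0).mono (fun φ hφ => cell_sub_Zs hF hN0 hk hφ))

end Pool.Agent.HaymanWu.Lower
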